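import Pool.Agent.Run7.h364.Enum2

/-!
Spherical fusion categories of global dimension less than `√2`: the number theoretic theorem.
-/

set_option autoImplicit false

namespace Run7.h364

open Polynomial Module IntermediateField

theorem exists_big {α : Type*} [Fintype α] (f : α → ℝ) (h : 1 ≤ ∏ σ, |f σ|) (e : α)
    (he : |f e| < 1) : ∃ σ, 1 < |f σ| := by
  classical
  by_contra hcon
  push Not at hcon
  rw [← Finset.mul_prod_erase Finset.univ _ (Finset.mem_univ e)] at h
  have h1 : ∏ σ ∈ Finset.univ.erase e, |f σ| ≤ 1 :=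
    Finset.prod_le_one (fun σ _ => abs_nonneg _) fun σ _ => hcon σ
  have h2 : |f e| * ∏ σ ∈ Finset.univ.erase e, |f σ| ≤ |f e| * 1 :=
    mul_le_mul_of_nonneg_left h1 (abs_nonneg _)
  linarith

theorem rank_two_real {k : ℕ} {a b x : ℝ} {ν : ℤ} (hν : ν = 0 ∨ ν = 1 ∨ ν = -1)
    (ha : a ^ 2 = 1 + k * a) (hb : b ^ 2 = 1 + k * b) (hb1 : 1 < |b|)
    (hx : x = 1 + a ^ 2) (hx2 : x ^ 2 < 2)
    (hineq : b ^ 2 - ν * b ≤ 4 * (1 - 2 / x ^ 2) * (1 + b ^ 2) + 4) :
    x = (5 - Real.sqrt 5) / 2 := by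
  have hx1 : 1 ≤ x := by rw [hx]; linarith [sq_nonneg a]
  have hx3 : x < 141422 / 100000 := by
    by_contra hcon
    push Not at hcon
    nlinarith
  have hasq : a ^ 2 < 41422 / 100000 := by linarith
  have hk0 : k ≠ 0 := by
    rintro rfl
    push_cast at ha
    linarith
  have hk1 : 1 ≤ k := Nat.one_le_iff_ne_zero.2 hk0
  have hk1' : (1 : ℝ) ≤ k := by exact_mod_cast hk1
  have ha0 : a < 0 := by
    by_contra hcon
    push Not at hcon
    nlinarith
  rcases Nat.lt_or_ge 1 k with hk2 | hk2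
  · exfalso
    have hk2' : (2 : ℝ) ≤ k := by exact_mod_cast hk2
    have hb0 : 0 < b := by
      by_contra hcon
      push Not at hcon
      have h1 : 1 < |b| ^ 2 := by nlinarith
      rw [sq_abs] at h1
      nlinarith
    have hb2 : 24 / 10 ≤ b := by
      by_contra hcon
      push Not at hcon
      rw [abs_of_pos hb0] at hb1
      nlinarith
    have ha2 : a ^ 2 ≤ 1 / 4 := by
      have h1 : -(1 / 2) ≤ a := by
        by_contra hcon
        push Not at hcon
        nlinarith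
      nlinarith
    have hx4 : x ≤ 5 / 4 := by linarith
    have hx5 : x ^ 2 ≤ 25 / 16 := by nlinarith
    have h3 : (2 : ℝ) / (25 / 16) ≤ 2 / x ^ 2 :=
      div_le_div_of_nonneg_left (by norm_num) (by positivity) hx5
    have h4 : 4 * (1 - 2 / x ^ 2) ≤ -1 := by
      norm_num at h3
      linarith
    have h5 : 4 * (1 - 2 / x ^ 2) * (1 + b ^ 2) ≤ -1 * (1 + b ^ 2) :=
      mul_le_mul_of_nonneg_right h4 (by positivity)
    have h6 := u_ge_abs (a := b) hν
    rw [abs_of_pos hb0] at h6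
    nlinarith
  · have hk : k = 1 := le_antisymm hk2 hk1
    subst hk
    push_cast at ha
    have h5 : Real.sqrt 5 ^ 2 = 5 := Real.sq_sqrt (by norm_num)
    have h6 : 0 ≤ Real.sqrt 5 := Real.sqrt_nonneg 5
    have h7 : (1 - 2 * a) = Real.sqrt 5 := by
      have h8 : (1 - 2 * a) ^ 2 = Real.sqrt 5 ^ 2 := by
        rw [h5]
        nlinarith
      have h9 : 0 ≤ 1 - 2 * a := by linarith
      exact (sq_eq_sq₀ h9 h6).1 h8
    rw [hx, ha]
    linarith

namespace DimData2

variable {x : ℝ} {n : ℕ} {o : Fin n} {d : Fin n → ℂ} {ν : Fin n → ℤ}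
  {N : Fin n → Fin n → Fin n → ℕ} {star : Fin n → Fin n}

theorem sum2 {M : Type*} [AddCommMonoid M] {o i : Fin 2}
    (hs : (Finset.univ : Finset (Fin 2)).erase o = {i}) (f : Fin 2 → M) :
    ∑ k, f k = f o + f i := by
  rw [← Finset.add_sum_erase Finset.univ f (Finset.mem_univ o), hs, Finset.sum_singleton]

theorem two {o : Fin 2} {d : Fin 2 → ℂ} {ν : Fin 2 → ℤ}
    {N : Fin 2 → Fin 2 → Fin 2 → ℕ} {star : Fin 2 → Fin 2}
    (h : DimData2 x 2 o d ν N star) (hx : x ^ 2 < 2) : x = (5 - Real.sqrt 5) / 2 := by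
  have := h.finDim
  obtain ⟨i, hs⟩ := Finset.card_eq_one.1
    (show (Finset.univ.erase o).card = 1 by
      rw [Finset.card_erase_of_mem (Finset.mem_univ o)]; simp)
  have hi : i ≠ o := Finset.ne_of_mem_erase (s := Finset.univ) (by rw [hs]; simp)
  have hx' := x_lt' hx
  have hsi : star i = i := by
    have h2 := h.star_ne (by linarith) i hi
    have h3 : star i ∈ (Finset.univ : Finset (Fin 2)).erase o :=
      Finset.mem_erase.2 ⟨h2, Finset.mem_univ _⟩
    rw [hs] at h3
    simpa using h3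
  have F1 := h.fusion' i i
  rw [sum2 hs, h.d_unit, h.N_unit, hsi, if_pos rfl] at F1
  generalize N i i i = k at F1
  have G1 : ∀ σ : h.F →ₐ[ℚ] ℂ, h.a σ i ^ 2 = 1 + k * h.a σ i := by
    intro σ
    have h1 : h.D i ^ 2 = 1 + (k : h.F) * h.D i := by
      apply Subtype.ext
      have h2 : (d i) ^ 2 = 1 + (k : ℂ) * d i := by
        rw [sq, F1]; push_cast; ring
      exact h2
    have h3 := congrArg σ h1
    simp only [map_add, map_mul, map_pow, map_natCast, map_one, h.a_eq] at h3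
    exact_mod_cast h3
  have hxe := h.x_eq
  rw [sum2 hs, h.d_unit, Complex.one_re, one_pow] at hxe
  have hlt : |h.a h.F.val i| < 1 := by
    rw [h.a_val, ← sq_lt_one_iff_abs_lt_one]
    linarith
  obtain ⟨σ, hσ⟩ := exists_big (fun σ => h.a σ i) (h.prod_ge i) h.F.val hlt
  have hb := h.basic σ
  have hY : h.Y σ = 1 + h.a σ i ^ 2 := by
    rw [DimData.Y, sum2 hs, h.a_unit, one_pow]
  rw [sum2 hs, h.a_unit, h.ν_unit, hY] at hb
  have g1 := G1 h.F.val
  simp only [h.a_val] at g1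
  refine rank_two_real (h.ν_val i) g1 (G1 σ) hσ hxe hx ?_
  push_cast at hb
  linarith

theorem one {o : Fin 1} {d : Fin 1 → ℂ} {ν : Fin 1 → ℤ}
    {N : Fin 1 → Fin 1 → Fin 1 → ℕ} {star : Fin 1 → Fin 1}
    (h : DimData2 x 1 o d ν N star) : x = 1 := by
  have h1 := h.x_eq
  rw [Fin.sum_univ_one] at h1
  have h2 : o = 0 := Subsingleton.elim _ _
  have h3 := h.d_unit
  rw [h2] at h3
  rw [h3] at h1
  simpa using h1

/-- The global dimensions less than `√2`. -/
theorem small (h : DimData2 x n o d ν N star) (hx : x < Real.sqrt 2) :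
    x = 1 ∨ x = (5 - Real.sqrt 5) / 2 := by
  have hx1 := h.one_le_x
  have hx2 : x ^ 2 < 2 := by
    have h1 : Real.sqrt 2 ^ 2 = 2 := Real.sq_sqrt (by norm_num)
    have h2 := Real.sqrt_nonneg 2
    nlinarith
  have h4 := h.n_le hx2
  have h5 := h.ne_four hx2
  have h6 := h.ne_three hx2
  have h7 : 0 < n := o.pos
  have h8 : n = 1 ∨ n = 2 := by omega
  rcases h8 with rfl | rfl
  · exact Or.inl h.one
  · exact Or.inr (h.two hx2)

end DimData2

end Run7.h364
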