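import Pool.Agent.Run7.h446.Smyth.IfaceM

/-!
# Smyth: piece MNEC
-/

set_option autoImplicit false

namespace Run7.h364.Smyth_MNEC

open Pool.Agent.Run7.h446.Smyth Polynomial

/-- a multiplicative relation matrix kills up to its determinant -/
theorem pow_det {Ω κ : Type} [Field Ω] [Fintype κ] [DecidableEq κ] (v : κ → Ω) (hv : ∀ k, v k ≠ 0)
    (B : Matrix κ κ ℤ) (h : ∀ k, ∏ l, v l ^ B k l = 1) (m : κ) : v m ^ B.det = 1 := by
  have hsum : ∀ (s : Finset κ) (a : Ω) (_ : a ≠ 0) (f : κ → ℤ), ∏ k ∈ s, a ^ f k = a ^ ∑ k ∈ s, f k := by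
    intro s a ha f
    induction s using Finset.induction_on with
    | empty => simp
    | insert b s hb ih => rw [Finset.prod_insert hb, Finset.sum_insert hb, ih, zpow_add₀ ha]
  have h1 : ∏ k, (∏ l, v l ^ B k l) ^ B.adjugate m k = 1 := by
    refine Finset.prod_eq_one fun k _ => ?_
    rw [h, one_zpow]
  simp only [← Finset.prod_zpow, ← zpow_mul] at h1
  rw [Finset.prod_comm] at h1
  rw [← h1]
  have h2 : ∀ l, ∏ k, v l ^ (B k l * B.adjugate m k) = v l ^ ((B.adjugate * B) m l) := by
    intro l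
    rw [hsum _ _ (hv l), Matrix.mul_apply]
    congr 1
    exact Finset.sum_congr rfl fun k _ => mul_comm _ _
  rw [Finset.prod_congr rfl fun l _ => h2 l, Matrix.adjugate_mul]
  rw [Finset.prod_eq_single m]
  · rw [Matrix.smul_apply, Matrix.one_apply_eq, smul_eq_mul, mul_one]
  · intro l _ hl
    rw [Matrix.smul_apply, Matrix.one_apply_ne (Ne.symm hl), smul_zero, zpow_zero]
  · intro h; exact absurd (Finset.mem_univ _) h

/-- the relation matrix -/
theorem exists_matrix {F Ω : Type} [Field F] [Field Ω] [Algebra F Ω] [Normal F Ω] (d : ℕ) (b : Fin d → ℤ)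
    (α : Fin d → Ω) (h0 : ∀ i, α i ≠ 0) (hc : ∀ i j, minpoly F (α i) = minpoly F (α j))
    (hrel : ∏ i, α i ^ b i = 1) (i : Fin d) (hroot : ∀ k : ℕ, 0 < k → α i ^ k ≠ 1) :
    ∃ (N : ℕ) (f : Fin N → Fin d → Fin N), (∀ k, f k i = k) ∧
      (Matrix.of fun k l : Fin N => ∑ j, if f k j = l then b j else 0).det = 0 ∧ 0 < N := by
  classical
  have hint : ∀ x : Ω, IsIntegral F x := fun x => Normal.isIntegral inferInstance x
  let κ := (minpoly F (α i)).rootSet Ω
  have hmem : ∀ x : Ω, x ∈ κ ↔ IsConjRoot F (α i) x := fun x =>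
    (isConjRoot_iff_mem_minpoly_rootSet (hint _)).symm
  have hex : ∀ γ : κ, ∃ h : Ω ≃ₐ[F] Ω, h (α i) = γ := by
    intro γ
    have h1 : IsConjRoot F (γ : Ω) (α i) := ((hmem γ).1 γ.2).symm
    exact isConjRoot_iff_exists_algEquiv.1 h1
  choose h hh using hex
  have hf : ∀ (γ : κ) (j : Fin d), h γ (α j) ∈ κ := by
    intro γ j
    rw [hmem, isConjRoot_def, minpoly.algEquiv_eq]
    exact hc i j
  let e : κ ≃ Fin (Fintype.card κ) := Fintype.equivFin κ
  have hαi : α i ∈ κ := (hmem _).2 (IsConjRoot.refl)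
  refine ⟨Fintype.card κ, fun k j => e ⟨h (e.symm k) (α j), hf _ _⟩, ?_, ?_, Fintype.card_pos_iff.2 ⟨⟨α i, hαi⟩⟩⟩
  · intro k
    have : (⟨h (e.symm k) (α i), hf _ _⟩ : κ) = e.symm k := Subtype.ext (hh _)
    show e ⟨h (e.symm k) (α i), hf _ _⟩ = k
    rw [this, Equiv.apply_symm_apply]
  · by_contra hdet
    have hne : ∀ k : Fin (Fintype.card κ), ((e.symm k : κ) : Ω) ≠ 0 := by
      intro k h1
      have h2 := hh (e.symm k)
      rw [h1] at h2
      exact h0 i ((EmbeddingLike.map_eq_zero_iff (f := h (e.symm k))).1 h2)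
    have key := pow_det (fun k => ((e.symm k : κ) : Ω)) hne
      (Matrix.of fun k l : Fin (Fintype.card κ) =>
        ∑ j, if e ⟨h (e.symm k) (α j), hf _ _⟩ = l then b j else 0) (by
        intro k
        have h1 := congrArg (h (e.symm k)) hrel
        rw [map_prod, map_one] at h1
        rw [← h1]
        simp only [map_zpow₀, Matrix.of_apply]
        have hsum : ∀ (a : Ω) (_ : a ≠ 0) (s : Finset (Fin d)) (g : Fin d → ℤ),
            a ^ ∑ j ∈ s, g j = ∏ j ∈ s, a ^ g j := by
          intro a ha s g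
          induction s using Finset.induction_on with
          | empty => simp
          | insert b s hb ih => rw [Finset.prod_insert hb, Finset.sum_insert hb, zpow_add₀ ha, ih]
        rw [Finset.prod_congr rfl fun l _ => hsum _ (hne l) _ _, Finset.prod_comm]
        refine Finset.prod_congr rfl fun j _ => ?_
        rw [Finset.prod_eq_single (e ⟨h (e.symm k) (α j), hf _ _⟩)]
        · rw [if_pos rfl, Equiv.symm_apply_apply]
        · intro l _ hl
          rw [if_neg (Ne.symm hl), zpow_zero]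
        · intro h; exact absurd (Finset.mem_univ _) h) (e ⟨α i, hαi⟩)
    simp only [Equiv.symm_apply_apply] at key
    set D := (Matrix.of fun k l : Fin (Fintype.card κ) =>
        ∑ j, if e ⟨h (e.symm k) (α j), hf _ _⟩ = l then b j else 0).det with hD
    have h3 : α i ^ D.natAbs = 1 := by
      rcases Int.natAbs_eq D with h4 | h4
      · rw [← zpow_natCast, ← h4]; exact key
      · rw [h4, zpow_neg, inv_eq_one, zpow_natCast] at key
        exact key
    exact hroot _ (Int.natAbs_pos.2 hdet) h3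

theorem dominant {d N : ℕ} (b : Fin d → ℤ) (i : Fin d) (f : Fin N → Fin d → Fin N) (hf : ∀ k, f k i = k)
    (hdet : (Matrix.of fun k l : Fin N => ∑ j, if f k j = l then b j else 0).det = 0) :
    |b i| ≤ ∑ j ∈ Finset.univ.erase i, |b j| := by
  classical
  by_contra hcon
  push Not at hcon
  set B : Matrix (Fin N) (Fin N) ℤ := Matrix.of fun k l : Fin N => ∑ j, if f k j = l then b j else 0 with hB
  have h1 : (B.map (Int.castRingHom ℝ)).det ≠ 0 := by
    apply det_ne_zero_of_sum_row_lt_diag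
    intro k
    have hnorm : ∀ l, ‖(B.map (Int.castRingHom ℝ)) k l‖ = ((|B k l| : ℤ) : ℝ) := by
      intro l
      rw [Matrix.map_apply, Real.norm_eq_abs]
      simp
    rw [Finset.sum_congr rfl fun l _ => hnorm l, hnorm]
    have hsplit : ∀ l, B k l = (if k = l then b i else 0) +
        ∑ j ∈ Finset.univ.erase i, if f k j = l then b j else 0 := by
      intro l
      rw [hB, Matrix.of_apply, ← Finset.add_sum_erase _ _ (Finset.mem_univ i), hf]
    have hoff : ∀ l ∈ Finset.univ.erase k, |B k l| ≤ ∑ j ∈ Finset.univ.erase i, if f k j = l then |b j| else 0 := by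
      intro l hl
      rw [hsplit, if_neg (Ne.symm (Finset.ne_of_mem_erase hl)), zero_add]
      refine (Finset.abs_sum_le_sum_abs _ _).trans (Finset.sum_le_sum fun j _ => ?_)
      split_ifs <;> simp
    have hdiag : |b i| - ∑ j ∈ Finset.univ.erase i, (if f k j = k then |b j| else 0) ≤ |B k k| := by
      rw [hsplit, if_pos rfl]
      have h2 : |∑ j ∈ Finset.univ.erase i, if f k j = k then b j else 0| ≤
          ∑ j ∈ Finset.univ.erase i, (if f k j = k then |b j| else 0) := by
        refine (Finset.abs_sum_le_sum_abs _ _).trans (Finset.sum_le_sum fun j _ => ?_)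
        split_ifs <;> simp
      have h3 := abs_sub_abs_le_abs_sub (b i) (-∑ j ∈ Finset.univ.erase i, if f k j = k then b j else 0)
      rw [abs_neg, sub_neg_eq_add] at h3
      linarith
    have htot : ∑ l ∈ Finset.univ.erase k, |B k l| < |B k k| := by
      have h2 : ∑ l ∈ Finset.univ.erase k, |B k l| ≤
          ∑ l ∈ Finset.univ.erase k, ∑ j ∈ Finset.univ.erase i, (if f k j = l then |b j| else 0) :=
        Finset.sum_le_sum hoff
      have h3 : ∑ l ∈ Finset.univ.erase k, ∑ j ∈ Finset.univ.erase i, (if f k j = l then |b j| else 0) +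
          ∑ j ∈ Finset.univ.erase i, (if f k j = k then |b j| else 0) =
          ∑ j ∈ Finset.univ.erase i, |b j| := by
        have h4 := Finset.add_sum_erase Finset.univ
          (fun l => ∑ j ∈ Finset.univ.erase i, (if f k j = l then |b j| else 0)) (Finset.mem_univ k)
        rw [add_comm, h4, Finset.sum_comm]
        refine Finset.sum_congr rfl fun j _ => ?_
        rw [Finset.sum_ite_eq, if_pos (Finset.mem_univ _)]
      linarith
    exact_mod_cast htot
  apply h1
  have h2 : (B.map (Int.castRingHom ℝ)).det = (Int.castRingHom ℝ) B.det := by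
    rw [RingHom.map_det]
    rfl
  rw [h2, hdet, map_zero]

theorem modp {d N : ℕ} (hN : 0 < N) (b : Fin d → ℤ) (i : Fin d) (f : Fin N → Fin d → Fin N)
    (hf : ∀ k, f k i = k)
    (hdet : (Matrix.of fun k l : Fin N => ∑ j, if f k j = l then b j else 0).det = 0) (p k : ℕ)
    (hp : p.Prime) (hb : ∀ j, j ≠ i → ((p : ℤ) ^ k) ∣ b j) : ((p : ℤ) ^ k) ∣ b i := by
  classical
  by_contra hcon
  -- the exact power
  have hex : ∃ n, ¬ ((p : ℤ) ^ n) ∣ b i := ⟨k, hcon⟩
  obtain ⟨n, hn, hmin⟩ : ∃ n, ¬ ((p : ℤ) ^ n) ∣ b i ∧ ∀ m < n, ((p : ℤ) ^ m) ∣ b i :=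
    ⟨Nat.find hex, Nat.find_spec hex, fun m hm => by
      by_contra h; exact Nat.find_min hex hm h⟩
  have hn0 : n ≠ 0 := by
    rintro rfl
    exact hn (by rw [pow_zero]; exact one_dvd _)
  obtain ⟨v, rfl⟩ := Nat.exists_eq_succ_of_ne_zero hn0
  have hvk : v < k := by
    by_contra h
    have h2 : v.succ ≤ k ∨ k ≤ v := by omega
    rcases h2 with h2 | h2
    · exact h (by omega)
    · exact hcon ((pow_dvd_pow _ h2).trans (hmin v (Nat.lt_succ_self v)))
  obtain ⟨u, hu⟩ := hmin v (Nat.lt_succ_self v)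
  have hpu : ¬ (p : ℤ) ∣ u := by
    rintro ⟨t, rfl⟩
    apply hn
    exact ⟨t, by rw [hu, pow_succ]; ring⟩
  have hp0 : (p : ℤ) ≠ 0 := by exact_mod_cast hp.ne_zero
  have hc : ∀ j, ∃ c : ℤ, b j = (p : ℤ) ^ v * c ∧ (j ≠ i → (p : ℤ) ∣ c) := by
    intro j
    by_cases hj : j = i
    · exact ⟨u, by rw [hj]; exact hu, fun h => absurd hj h⟩
    · obtain ⟨c, hc⟩ := hb j hj
      refine ⟨(p : ℤ) ^ (k - v) * c, ?_, fun _ => ?_⟩
      · rw [hc, ← mul_assoc, ← pow_add]
        congr 2
        omega
      · exact dvd_mul_of_dvd_left (dvd_pow_self _ (by omega)) _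
  choose c hc hc' using hc
  have hci : c i = u := by
    have h1 := hc i
    rw [hu] at h1
    exact (mul_left_cancel₀ (pow_ne_zero _ hp0) h1).symm
  set B' : Matrix (Fin N) (Fin N) ℤ := Matrix.of fun k l : Fin N => ∑ j, if f k j = l then c j else 0 with hB'
  have hBB : (Matrix.of fun k l : Fin N => ∑ j, if f k j = l then b j else 0) = ((p : ℤ) ^ v) • B' := by
    ext a l
    rw [Matrix.smul_apply, hB', Matrix.of_apply, Matrix.of_apply, smul_eq_mul, Finset.mul_sum]
    refine Finset.sum_congr rfl fun j _ => ?_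
    rw [hc j]
    split_ifs <;> simp
  rw [hBB, Matrix.det_smul] at hdet
  have hdet' : B'.det = 0 := by
    rcases mul_eq_zero.1 hdet with h1 | h1
    · exact absurd h1 (pow_ne_zero _ (pow_ne_zero _ hp0))
    · exact h1
  have hfact : Fact p.Prime := ⟨hp⟩
  have h2 : (B'.map (Int.castRingHom (ZMod p))).det = (Int.castRingHom (ZMod p)) B'.det := by
    rw [RingHom.map_det]
    rfl
  rw [hdet', map_zero] at h2
  have h3 : B'.map (Int.castRingHom (ZMod p)) = ((u : ℤ) : ZMod p) • (1 : Matrix (Fin N) (Fin N) (ZMod p)) := by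
    ext a l
    rw [Matrix.map_apply, hB', Matrix.of_apply, map_sum, Finset.sum_eq_single i]
    · rw [hf, hci, Matrix.smul_apply, Matrix.one_apply, smul_eq_mul]
      split_ifs <;> simp
    · intro j _ hj
      split_ifs
      · have := (ZMod.intCast_zmod_eq_zero_iff_dvd (c j) p).2 (hc' j hj)
        simpa using this
      · simp
    · intro h; exact absurd (Finset.mem_univ _) h
  rw [h3, Matrix.det_smul, Matrix.det_one, mul_one, Fintype.card_fin] at h2
  have h4 : ((u : ℤ) : ZMod p) = 0 := by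
    exact (pow_eq_zero_iff hN.ne').1 h2
  exact hpu ((ZMod.intCast_zmod_eq_zero_iff_dvd u p).1 h4)

theorem main : St_mnec := by
  intro d b α h0 halg hc hrel hroot
  let A := algebraicClosure ℚ ℂ
  let β : Fin d → A := fun i => ⟨α i, mem_algebraicClosure_iff.2 (by convert halg i)⟩
  have hβ : ∀ i, (β i : ℂ) = α i := fun i => rfl
  have hnorm : @Normal ℚ A _ _ A.algebra' :=
    @IsAlgClosure.normal ℚ A _ _ A.algebra' (algebraicClosure.isAlgClosure ℚ ℂ)
  have hmat : ∀ i, ∃ (N : ℕ) (f : Fin N → Fin d → Fin N), (∀ k, f k i = k) ∧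
      (Matrix.of fun k l : Fin N => ∑ j, if f k j = l then b j else 0).det = 0 ∧ 0 < N := by
    intro i
    refine @exists_matrix ℚ A _ _ A.algebra' hnorm d b β ?_ ?_ ?_ i ?_
    · intro i h
      exact h0 i (by rw [← hβ, h]; rfl)
    · intro i j
      have h1 : ∀ i, @minpoly ℚ A _ _ A.algebra' (β i) = minpoly ℚ (α i) := by
        intro i
        have h2 := IntermediateField.minpoly_eq (S := A) (β i)
        rw [← hβ]
        convert h2 using 1
      rw [h1, h1]
      exact hc i j
    · apply Subtype.ext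
      have h1 : ((∏ i, β i ^ b i : A) : ℂ) = ∏ i, α i ^ b i := by
        push_cast
        rfl
      rw [h1, hrel]
      rfl
    · intro k hk h
      apply hroot i k hk
      rw [← hβ, ← SubmonoidClass.coe_pow, h]
      rfl
  constructor
  · intro i
    obtain ⟨N, f, hf, hdet, _⟩ := hmat i
    exact dominant b i f hf hdet
  · intro i p k hp hb
    obtain ⟨N, f, hf, hdet, hN⟩ := hmat i
    exact modp hN b i f hf hdet p k hp hb

end Run7.h364.Smyth_MNEC
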