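import Pool.Agent.Helper259.Selmer.Gal

/-!
# Selmer polynomials of prime degree: roots in an algebraic closure of `ℚ`
-/

set_option autoImplicit false

namespace Run7.h364.Smyth_SEL

open Polynomial NumberField Pool.Agent.Helper259.Selmer

theorem aux (Ω : Type) [Field Ω] [Algebra ℚ Ω] [IsAlgClosed Ω] [Algebra.IsAlgebraic ℚ Ω] (M : ℕ)
    (hM : M.Prime) (L : Type) [Field L] [NumberField L] [IsGalois ℚ L]
    (hspl : (X ^ M - X - 1 : ℚ[X]).IsSplittingField ℚ L) [Algebra L Ω] :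
    ∃ θ : Fin M → Ω, Function.Injective θ ∧ (∀ k, θ k ^ M = θ k + 1) ∧
      ∀ π : Equiv.Perm (Fin M), ∃ g : Ω ≃ₐ[ℚ] Ω, ∀ k, g (θ k) = θ (π k) := by
  classical
  have hM2 := hM.two_le
  have hF : (F M).map (algebraMap ℤ L) = (X ^ M - X - 1 : ℚ[X]).map (algebraMap ℚ L) := by
    rw [F_map]; simp
  have hsF : ((F M).map (algebraMap ℤ L)).Splits := by rw [hF]; exact hspl.splits
  obtain ⟨_, hsurj⟩ := bijective (L := L) hM hspl
  have hcard : Fintype.card ((F M).rootSet (𝓞 L)) = M := card_rootSet_int hM2 hsF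
  let e : Fin M ≃ (F M).rootSet (𝓞 L) := (Fintype.equivFinOfCardEq hcard).symm
  have hcl : IsAlgClosure ℚ Ω := ⟨inferInstance, inferInstance⟩
  have hnorm : Normal ℚ Ω := IsAlgClosure.normal ℚ Ω
  refine ⟨fun k => algebraMap L Ω ((e k : 𝓞 L) : L), ?_, ?_, ?_⟩
  · intro a b hab
    have h1 := (algebraMap L Ω).injective hab
    have h2 : (e a : 𝓞 L) = e b := by
      apply FaithfulSMul.algebraMap_injective (𝓞 L) L
      exact h1
    exact e.injective (Subtype.ext h2)
  · intro k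
    have h1 : aeval (e k : 𝓞 L) (F M) = 0 := (mem_rootSet'.1 (e k).2).2
    have h2 : (e k : 𝓞 L) ^ M - (e k : 𝓞 L) - 1 = 0 := by
      simpa [F] using h1
    have h3 := congrArg (algebraMap (𝓞 L) L) h2
    have h4 := congrArg (algebraMap L Ω) h3
    simp only [map_sub, map_pow, map_one, map_zero] at h4
    have h5 : (algebraMap L Ω) (algebraMap (𝓞 L) L (e k : 𝓞 L)) = algebraMap L Ω ((e k : 𝓞 L) : L) := rfl
    rw [h5] at h4
    linear_combination h4
  · intro π
    obtain ⟨g, hg⟩ := hsurj (e.permCongr π)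
    have hg' : ∀ k, g • (e k) = e (π k) := by
      intro k
      have h1 := congrArg (fun σ : Equiv.Perm ((F M).rootSet (𝓞 L)) => σ (e k)) hg
      simpa using h1
    refine ⟨AlgEquiv.liftNormal g Ω, fun k => ?_⟩
    rw [AlgEquiv.liftNormal_commutes]
    congr 1
    have h2 := congrArg (fun i : (F M).rootSet (𝓞 L) => ((i : 𝓞 L) : L)) (hg' k)
    exact h2

theorem selmer (Ω : Type) [Field Ω] [Algebra ℚ Ω] [IsAlgClosed Ω] [Algebra.IsAlgebraic ℚ Ω] (M : ℕ)
    (hM : M.Prime) : ∃ θ : Fin M → Ω, Function.Injective θ ∧ (∀ k, θ k ^ M = θ k + 1) ∧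
      ∀ π : Equiv.Perm (Fin M), ∃ g : Ω ≃ₐ[ℚ] Ω, ∀ k, g (θ k) = θ (π k) := by
  have h0 := IntermediateField.adjoin_rootSet_isSplittingField (K := ℚ) (L := Ω)
      (p := (X ^ M - X - 1 : ℚ[X])) (IsAlgClosed.splits _)
  have hch : CharZero Ω := algebraRat.charZero Ω
  have hirr : Irreducible (X ^ M - X - 1 : ℚ[X]) := X_pow_sub_X_sub_one_irreducible_rat hM.one_lt.ne'
  have hspl : (X ^ M - X - 1 : ℚ[X]).IsSplittingField ℚ
      (IntermediateField.adjoin ℚ ((X ^ M - X - 1 : ℚ[X]).rootSet Ω)) := by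
    convert h0
    exact Subsingleton.elim _ _
  have hfd : @Module.Finite ℚ (IntermediateField.adjoin ℚ ((X ^ M - X - 1 : ℚ[X]).rootSet Ω)) _ _
      (DivisionRing.toRatAlgebra).toModule :=
    Polynomial.IsSplittingField.finiteDimensional _ (X ^ M - X - 1 : ℚ[X])
  have hnf : NumberField (IntermediateField.adjoin ℚ ((X ^ M - X - 1 : ℚ[X]).rootSet Ω)) := by
    refine @NumberField.mk _ _ inferInstance ?_
    convert hfd
  have hgal : @IsGalois ℚ _ (IntermediateField.adjoin ℚ ((X ^ M - X - 1 : ℚ[X]).rootSet Ω)) _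
      DivisionRing.toRatAlgebra := IsGalois.of_separable_splitting_field hirr.separable
  exact aux Ω M hM _ hspl

end Run7.h364.Smyth_SEL
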