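import Pool.Agent.Run7.h446.Smyth.Iface
import Pool.Agent.Run7.h364.Smyth_SEL

/-!
# Smyth: piece MULT
-/

set_option autoImplicit false

namespace Run7.h364.Smyth_MULT

open Pool.Agent.Run7.h446.Smyth

/-- two circles meet in at most two points -/
theorem two_circles {r s : ℝ} {z₁ z₂ z₃ : ℂ} (h1 : ‖z₁‖ = r) (h2 : ‖z₂‖ = r) (h3 : ‖z₃‖ = r)
    (h1' : ‖z₁ + 1‖ = s) (h2' : ‖z₂ + 1‖ = s) (h3' : ‖z₃ + 1‖ = s) (h12 : z₁ ≠ z₂) (h13 : z₁ ≠ z₃)
    (h23 : z₂ ≠ z₃) : False := by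
  have key : ∀ z : ℂ, ‖z‖ = r → ‖z + 1‖ = s → z.re = (s ^ 2 - r ^ 2 - 1) / 2 ∧
      z.im ^ 2 = r ^ 2 - ((s ^ 2 - r ^ 2 - 1) / 2) ^ 2 := by
    intro z hz hz'
    have e1 : z.re ^ 2 + z.im ^ 2 = r ^ 2 := by
      rw [← hz, ← Complex.normSq_eq_norm_sq, Complex.normSq_apply]; ring
    have e2 : (z.re + 1) ^ 2 + z.im ^ 2 = s ^ 2 := by
      rw [← hz', ← Complex.normSq_eq_norm_sq, Complex.normSq_apply, Complex.add_re, Complex.add_im,
        Complex.one_re, Complex.one_im]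
      ring
    have e3 : z.re = (s ^ 2 - r ^ 2 - 1) / 2 := by linarith
    refine ⟨e3, ?_⟩
    rw [← e3]; linarith
  obtain ⟨a1, b1⟩ := key z₁ h1 h1'
  obtain ⟨a2, b2⟩ := key z₂ h2 h2'
  obtain ⟨a3, b3⟩ := key z₃ h3 h3'
  have n12 : z₁.im ≠ z₂.im := fun h => h12 (Complex.ext (a1.trans a2.symm) h)
  have n13 : z₁.im ≠ z₃.im := fun h => h13 (Complex.ext (a1.trans a3.symm) h)
  have n23 : z₂.im ≠ z₃.im := fun h => h23 (Complex.ext (a2.trans a3.symm) h)
  have m12 : z₁.im + z₂.im = 0 := by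
    have : (z₁.im - z₂.im) * (z₁.im + z₂.im) = 0 := by ring_nf; linarith
    exact (mul_eq_zero.1 this).resolve_left (sub_ne_zero.2 n12)
  have m13 : z₁.im + z₃.im = 0 := by
    have : (z₁.im - z₃.im) * (z₁.im + z₃.im) = 0 := by ring_nf; linarith
    exact (mul_eq_zero.1 this).resolve_left (sub_ne_zero.2 n13)
  exact n23 (by linarith)

theorem main : St_mult := by
  classical
  intro ι _ b m w σ hw hrel
  obtain ⟨k₀, hk₀⟩ := hw
  obtain ⟨M, hMge, hM⟩ := Nat.exists_infinite_primes (m + 3)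
  have hrat : Algebra.IsAlgebraic ℚ (AlgebraicClosure ℚ) := by
    have h := AlgebraicClosure.isAlgebraic ℚ
    convert h
    · rfl
    · exact Subsingleton.elim _ _
  obtain ⟨θ, hinj, hθM, hθ⟩ := Smyth_SEL.selmer (AlgebraicClosure ℚ) M hM
  have hθ0 : ∀ k, θ k ≠ 0 := by
    intro k h
    have h1 := hθM k
    rw [h, zero_pow hM.ne_zero, zero_add] at h1
    exact zero_ne_one h1
  let J : AlgebraicClosure ℚ →ₐ[ℚ] ℂ := IsAlgClosed.lift
  have hJ : Function.Injective J := J.toRingHom.injective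
  -- the index set
  obtain ⟨d, hd⟩ : ∃ d, M = m + (d + 1) := ⟨M - m - 1, by omega⟩
  let e₀ : (Fin m ⊕ Fin (d + 1)) ≃ Fin M :=
    Fintype.equivFinOfCardEq (by simp [hd])
  let w' : (Fin m ⊕ Fin (d + 1)) → ℤ := Sum.elim w (fun _ => 0)
  let σ' : ι → Equiv.Perm (Fin m ⊕ Fin (d + 1)) := fun i => Equiv.sumCongr (σ i) 1
  have hrel' : ∀ x, ∑ i, b i * w' (σ' i x) = 0 := by
    rintro (k | k)
    · exact hrel k
    · exact Finset.sum_eq_zero fun i _ => mul_zero _
  let γ : ((Fin m ⊕ Fin (d + 1)) ≃ Fin M) → AlgebraicClosure ℚ := fun E => ∏ x, θ (E x) ^ w' x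
  have hγ0 : ∀ E, γ E ≠ 0 := fun E => Finset.prod_ne_zero_iff.2 fun x _ => zpow_ne_zero _ (hθ0 _)
  -- a labelling for which it is not a root of unity
  obtain ⟨E, hE⟩ : ∃ E : (Fin m ⊕ Fin (d + 1)) ≃ Fin M, ∀ n : ℕ, 0 < n → γ E ^ n ≠ 1 := by
    by_contra hcon
    push Not at hcon
    set x₁ : Fin m ⊕ Fin (d + 1) := Sum.inl k₀ with hx₁
    set x₀ : Fin m ⊕ Fin (d + 1) := Sum.inr 0 with hx₀
    have hne : x₁ ≠ x₀ := by simp [hx₁, hx₀]
    have hnorm : ∀ E, ‖J (γ E)‖ = 1 := by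
      intro E
      obtain ⟨n, hn, h1⟩ := hcon E
      have h2 : ‖J (γ E)‖ ^ n = 1 := by
        rw [← norm_pow, ← map_pow, h1, map_one, norm_one]
      exact (pow_eq_one_iff_of_nonneg (norm_nonneg _) hn.ne').1 h2
    have hnJ : ∀ k, ‖J (θ k)‖ ≠ 0 := by
      intro k
      rw [norm_ne_zero_iff]
      intro h
      exact hθ0 k (hJ (by rw [h, map_zero]))
    have hprod : ∀ E : (Fin m ⊕ Fin (d + 1)) ≃ Fin M, ∏ x, ‖J (θ (E x))‖ ^ w' x = 1 := by
      intro E
      rw [← hnorm E]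
      show _ = ‖J (∏ x, θ (E x) ^ w' x)‖
      rw [map_prod, norm_prod]
      refine Finset.prod_congr rfl fun x _ => ?_
      rw [map_zpow₀, norm_zpow]
    have hswap : ∀ E : (Fin m ⊕ Fin (d + 1)) ≃ Fin M, ‖J (θ (E x₁))‖ = ‖J (θ (E x₀))‖ := by
      intro E
      have h1 := hprod E
      have h2 := hprod ((Equiv.swap x₁ x₀).trans E)
      have h3 : ∏ x, (‖J (θ (E x))‖ ^ w' x / ‖J (θ (((Equiv.swap x₁ x₀).trans E) x))‖ ^ w' x) = 1 := by
        rw [Finset.prod_div_distrib, h1, h2, div_one]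
      rw [Finset.prod_eq_single x₁] at h3
      · rw [Equiv.trans_apply, Equiv.swap_apply_left, ← div_zpow] at h3
        have h4 : ‖J (θ (E x₁))‖ / ‖J (θ (E x₀))‖ = 1 := by
          by_contra h5
          exact hk₀ ((zpow_eq_one_iff_right₀ (by positivity) h5).1 h3)
        exact (div_eq_one_iff_eq (hnJ _)).1 h4
      · intro x _ hx
        by_cases hx' : x = x₀
        · have : w' x = 0 := by rw [hx']; rfl
          rw [this, zpow_zero, zpow_zero, div_one]
        · rw [Equiv.trans_apply, Equiv.swap_apply_of_ne_of_ne hx hx']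
          exact div_self (zpow_ne_zero _ (hnJ _))
      · intro h; exact absurd (Finset.mem_univ _) h
    have hall : ∀ a : Fin M, ‖J (θ a)‖ = ‖J (θ (e₀ x₀))‖ := by
      intro a
      by_cases ha : a = e₀ x₀
      · rw [ha]
      · have h1 := hswap (e₀.trans (Equiv.swap (e₀ x₁) a))
        rw [Equiv.trans_apply, Equiv.trans_apply, Equiv.swap_apply_left,
          Equiv.swap_apply_of_ne_of_ne (fun h => hne (e₀.injective h.symm)) (fun h => ha h.symm)] at h1
        exact h1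
    have hall' : ∀ a : Fin M, ‖J (θ a) + 1‖ = ‖J (θ (e₀ x₀))‖ ^ M := by
      intro a
      rw [← hall a, ← norm_pow, ← map_pow, hθM, map_add, map_one]
    have hJθ : Function.Injective fun a => J (θ a) := hJ.comp hinj
    exact two_circles (hall ⟨0, by omega⟩) (hall ⟨1, by omega⟩) (hall ⟨2, by omega⟩)
      (hall' ⟨0, by omega⟩) (hall' ⟨1, by omega⟩) (hall' ⟨2, by omega⟩)
      (fun h => by simpa using hJθ h) (fun h => by simpa using hJθ h) (fun h => by simpa using hJθ h)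
  -- the automorphisms
  have hg : ∀ i, ∃ g : AlgebraicClosure ℚ ≃ₐ[ℚ] AlgebraicClosure ℚ,
      ∀ x, g (θ (E x)) = θ (E ((σ' i)⁻¹ x)) := by
    intro i
    obtain ⟨g, hg⟩ := hθ (E.permCongr (σ' i)⁻¹)
    refine ⟨g, fun x => ?_⟩
    rw [hg, Equiv.permCongr_apply, Equiv.symm_apply_apply]
  choose g hg using hg
  have hα : ∀ i, g i (γ E) = ∏ x, θ (E x) ^ w' (σ' i x) := by
    intro i
    show g i (∏ x, θ (E x) ^ w' x) = _
    rw [map_prod, ← Equiv.prod_comp (σ' i)]
    refine Finset.prod_congr rfl fun x _ => ?_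
    rw [map_zpow₀, hg, show (σ' i)⁻¹ ((σ' i) x) = x from Equiv.symm_apply_apply _ _]
  refine ⟨fun i => J (g i (γ E)), ?_, ?_, ?_, ?_, ?_⟩
  · intro i
    exact IsAlgebraic.algHom J (Algebra.IsAlgebraic.isAlgebraic (R := ℚ) (g i (γ E)))
  · intro i h
    have h1 : g i (γ E) = 0 := hJ (by rw [map_zero]; exact h)
    exact hγ0 E ((EmbeddingLike.map_eq_zero_iff (f := g i)).1 h1)
  · intro i j
    rw [minpoly.algHom_eq J hJ, minpoly.algHom_eq J hJ, minpoly.algEquiv_eq, minpoly.algEquiv_eq]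
  · intro i k hk h
    apply hE k hk
    have h1 : g i (γ E ^ k) = 1 := by
      apply hJ
      rw [map_pow, map_pow, map_one]
      exact h
    have h2 : g i (γ E ^ k) = g i 1 := by rw [h1, map_one]
    exact (g i).injective h2
  · have h1 : ∏ i, (g i (γ E)) ^ b i = 1 := by
      simp only [hα]
      simp only [← Finset.prod_zpow]
      rw [Finset.prod_comm]
      refine Finset.prod_eq_one fun x _ => ?_
      simp only [← zpow_mul]
      have h2 : ∀ s : Finset ι, ∏ i ∈ s, θ (E x) ^ (w' (σ' i x) * b i) =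
          θ (E x) ^ (∑ i ∈ s, w' (σ' i x) * b i) := by
        intro s
        induction s using Finset.induction_on with
        | empty => simp
        | insert a s ha ih => rw [Finset.prod_insert ha, Finset.sum_insert ha, ih, zpow_add₀ (hθ0 _)]
      rw [h2]
      have h3 : ∑ i, w' (σ' i x) * b i = 0 := by
        rw [← hrel' x]
        exact Finset.sum_congr rfl fun i _ => mul_comm _ _
      rw [h3, zpow_zero]
    have h2 := congrArg J h1
    rw [map_prod, map_one] at h2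
    rw [← h2]
    refine Finset.prod_congr rfl fun i _ => ?_
    rw [map_zpow₀]

end Run7.h364.Smyth_MULT
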