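import Pool.Agent.Run7.h446.Smyth.Iface

/-!
# Smyth: piece POLY
-/

set_option autoImplicit false

namespace Run7.h364.Smyth_POLY

open Pool.Agent.Run7.h446.Smyth Finset

theorem chain (m : ℕ) : ∀ r : Fin (m + 1) → ℝ, (∀ j, 0 < r j) → ∀ L : ℝ, 0 < L →
    ((m = 0 ∧ L = r 0) ∨ (L < ∑ j, r j ∧ ∀ j, 2 * r j - ∑ j, r j < L)) →
    ∃ u : Matrix (Fin (m + 1)) (Fin (m + 1)) ℝ, (∀ j, ∑ k, u j k ^ 2 = 1) ∧
      ∑ k, (∑ j, r j * u j k) ^ 2 = L ^ 2 ∧ u.det ≠ 0 := by
  induction m with
  | zero =>
    intro r hr L hL h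
    have hLr : L = r 0 := by
      rcases h with ⟨_, h⟩ | ⟨h1, h2⟩
      · exact h
      · have h3 := h2 0
        rw [Fin.sum_univ_one] at h1 h3
        linarith
    refine ⟨1, ?_, ?_, ?_⟩
    · intro j
      have hj : j = 0 := Fin.fin_one_eq_zero j
      subst hj
      simp
    · simp [hLr]
    · simp
  | succ m ih =>
    intro r hr L hL h
    rcases h with ⟨h, _⟩ | ⟨hlt, hgt⟩
    · exact absurd h (Nat.succ_ne_zero m)
    set s := r (Fin.last (m + 1)) with hs
    have hs0 : 0 < s := hr _
    set S := ∑ j : Fin (m + 1), r j.castSucc with hS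
    have hsum : ∑ j, r j = S + s := Fin.sum_univ_castSucc r
    rw [hsum] at hlt
    have hgt1 : ∀ j : Fin (m + 1), 2 * r j.castSucc - (S + s) < L := fun j => by
      have := hgt j.castSucc
      rwa [hsum] at this
    have hgt2 : 2 * s - (S + s) < L := by
      have := hgt (Fin.last (m + 1))
      rwa [hsum] at this
    have hS0 : 0 < S := Finset.sum_pos (fun j _ => hr _) Finset.univ_nonempty
    -- the intermediate length
    obtain ⟨L', hL'0, hL'1, hL'2, hL'3⟩ : ∃ L' : ℝ, 0 < L' ∧ |L - s| < L' ∧ L' < L + s ∧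
        ((m = 0 ∧ L' = r (Fin.castSucc 0)) ∨ (L' < S ∧ ∀ j : Fin (m + 1), 2 * r j.castSucc - S < L')) := by
      rcases Nat.eq_zero_or_pos m with hm | hm
      · subst hm
        have hS1 : S = r (Fin.castSucc 0) := by rw [hS, Fin.sum_univ_one]
        refine ⟨S, hS0, ?_, ?_, Or.inl ⟨rfl, hS1⟩⟩
        · rw [abs_lt]
          constructor <;> linarith
        · have := hgt1 0
          rw [← hS1] at this
          linarith
      · obtain ⟨j₀, hj₀⟩ := Finite.exists_max (fun j : Fin (m + 1) => r j.castSucc)
        have h1 : max (max 0 (2 * r j₀.castSucc - S)) |L - s| < min S (L + s) := by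
          have habs : |L - s| < S := by
            rw [abs_lt]
            constructor <;> linarith
          have habs' : |L - s| < L + s := by
            rw [abs_lt]
            constructor <;> linarith
          have h2 : 2 * r j₀.castSucc - S < S := by
            -- since there are at least two terms
            have h3 : r j₀.castSucc < S := by
              have hne : (Finset.univ.erase j₀).Nonempty := by
                rw [← Finset.card_pos, Finset.card_erase_of_mem (Finset.mem_univ _), Finset.card_univ,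
                  Fintype.card_fin]
                omega
              have h4 : 0 < ∑ j ∈ Finset.univ.erase j₀, r j.castSucc :=
                Finset.sum_pos (fun j _ => hr _) hne
              have h5 := Finset.add_sum_erase Finset.univ (fun j : Fin (m + 1) => r j.castSucc)
                (Finset.mem_univ j₀)
              rw [← hS] at h5
              linarith
            linarith
          have h3 := hgt1 j₀
          refine max_lt (max_lt ?_ ?_) ?_
          · exact lt_min hS0 (by linarith)
          · exact lt_min h2 (by linarith)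
          · exact lt_min habs habs'
        obtain ⟨L', h2, h3⟩ := exists_between h1
        have h4 := lt_of_le_of_lt (le_max_left _ _) h2
        have h5 := lt_of_le_of_lt (le_max_right _ _) h2
        have h6 := lt_of_le_of_lt (le_max_left _ _) h4
        have h7 := lt_of_le_of_lt (le_max_right _ _) h4
        have h8 := lt_of_lt_of_le h3 (min_le_left _ _)
        have h9 := lt_of_lt_of_le h3 (min_le_right _ _)
        refine ⟨L', h6, h5, h9, Or.inr ⟨h8, fun j => ?_⟩⟩
        have h10 : r j.castSucc ≤ r j₀.castSucc := hj₀ j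
        linarith
    obtain ⟨u', hu1, hu2, hu3⟩ := ih (fun j => r j.castSucc) (fun j => hr _) L' hL'0 hL'3
    set y : Fin (m + 1) → ℝ := fun k => ∑ j : Fin (m + 1), r j.castSucc * u' j k with hy
    have hy2 : ∑ k, y k ^ 2 = L' ^ 2 := hu2
    set a := (L ^ 2 - L' ^ 2 - s ^ 2) / (2 * s * L') with ha
    have hden : 0 < 2 * s * L' := by positivity
    have ha1 : a * (2 * s * L') = L ^ 2 - L' ^ 2 - s ^ 2 := by
      rw [ha, div_mul_cancel₀]
      exact hden.ne'
    have habs := abs_lt.1 hL'1
    have ha2 : a < 1 := by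
      rw [ha, div_lt_one hden]
      nlinarith
    have ha3 : -1 < a := by
      rw [ha, lt_div_iff₀ hden]
      nlinarith
    have ha4 : 0 < 1 - a ^ 2 := by nlinarith
    set b := Real.sqrt (1 - a ^ 2) with hb
    have hb0 : 0 < b := Real.sqrt_pos.2 ha4
    have hb2 : b ^ 2 = 1 - a ^ 2 := Real.sq_sqrt ha4.le
    refine ⟨Matrix.of (Fin.snoc (α := fun _ => Fin (m + 2) → ℝ)
      (fun j' => (Fin.snoc (α := fun _ => ℝ) (u' j') 0 : Fin (m + 2) → ℝ))
      (Fin.snoc (α := fun _ => ℝ) (fun k => a / L' * y k) b : Fin (m + 2) → ℝ)), ?_, ?_, ?_⟩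
    · intro j
      refine Fin.lastCases ?_ (fun j' => ?_) j
      · rw [Fin.sum_univ_castSucc]
        simp only [Matrix.of_apply, Fin.snoc_last, Fin.snoc_castSucc]
        have : ∑ k : Fin (m + 1), (a / L' * y k) ^ 2 = (a / L') ^ 2 * ∑ k, y k ^ 2 := by
          rw [Finset.mul_sum]
          exact Finset.sum_congr rfl fun k _ => by ring
        rw [this, hy2, hb2]
        field_simp
        ring
      · rw [Fin.sum_univ_castSucc]
        simp only [Matrix.of_apply, Fin.snoc_last, Fin.snoc_castSucc]
        rw [hu1 j']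
        ring
    · rw [Fin.sum_univ_castSucc]
      have h1 : ∀ k : Fin (m + 1), ∑ j : Fin (m + 2), r j * (Matrix.of (Fin.snoc (α := fun _ => Fin (m + 2) → ℝ)
          (fun j' => (Fin.snoc (α := fun _ => ℝ) (u' j') 0 : Fin (m + 2) → ℝ))
          (Fin.snoc (α := fun _ => ℝ) (fun k => a / L' * y k) b : Fin (m + 2) → ℝ)) : Matrix _ _ ℝ) j k.castSucc =
          (1 + s * a / L') * y k := by
        intro k
        rw [Fin.sum_univ_castSucc]
        simp only [Matrix.of_apply, Fin.snoc_last, Fin.snoc_castSucc]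
        rw [hy]
        ring
      have h2 : ∑ j : Fin (m + 2), r j * (Matrix.of (Fin.snoc (α := fun _ => Fin (m + 2) → ℝ)
          (fun j' => (Fin.snoc (α := fun _ => ℝ) (u' j') 0 : Fin (m + 2) → ℝ))
          (Fin.snoc (α := fun _ => ℝ) (fun k => a / L' * y k) b : Fin (m + 2) → ℝ)) : Matrix _ _ ℝ) j (Fin.last (m + 1)) =
          s * b := by
        rw [Fin.sum_univ_castSucc]
        simp only [Matrix.of_apply, Fin.snoc_last, Fin.snoc_castSucc]
        rw [Finset.sum_eq_zero fun j _ => mul_zero _, zero_add]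
      rw [h2, Finset.sum_congr rfl fun k _ => by rw [h1 k]]
      have h3 : ∑ k : Fin (m + 1), ((1 + s * a / L') * y k) ^ 2 = (1 + s * a / L') ^ 2 * ∑ k, y k ^ 2 := by
        rw [Finset.mul_sum]
        exact Finset.sum_congr rfl fun k _ => by ring
      rw [h3, hy2, mul_pow s b, hb2]
      have h4 : (1 + s * a / L') ^ 2 * L' ^ 2 = (L' + s * a) ^ 2 := by
        field_simp
      rw [h4]
      linear_combination ha1
    · rw [Matrix.det_succ_column _ (Fin.last (m + 1)), Fin.sum_univ_castSucc, Finset.sum_eq_zero, zero_add]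
      · have hsub : (Matrix.of (Fin.snoc (α := fun _ => Fin (m + 2) → ℝ)
          (fun j' => (Fin.snoc (α := fun _ => ℝ) (u' j') 0 : Fin (m + 2) → ℝ))
          (Fin.snoc (α := fun _ => ℝ) (fun k => a / L' * y k) b : Fin (m + 2) → ℝ)) : Matrix _ _ ℝ).submatrix
            (Fin.last (m + 1)).succAbove (Fin.last (m + 1)).succAbove = u' := by
          ext i j
          rw [Matrix.submatrix_apply, Fin.succAbove_last_apply, Fin.succAbove_last_apply]
          simp only [Matrix.of_apply, Fin.snoc_castSucc]
        rw [hsub]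
        simp only [Matrix.of_apply, Fin.snoc_last]
        refine mul_ne_zero (mul_ne_zero ?_ hb0.ne') hu3
        exact pow_ne_zero _ (by norm_num)
      · intro j _
        simp only [Matrix.of_apply, Fin.snoc_last, Fin.snoc_castSucc]
        ring

/-- the polygon with `m + 2` sides -/
theorem polyFin (m : ℕ) (r : Fin (m + 2) → ℝ) (hr : ∀ j, 0 < r j)
    (hpol : ∀ j, 2 * r j < ∑ j, r j) :
    ∃ (U : Fin (m + 2) → Fin (m + 1) → ℝ) (T : Fin (m + 1) → Fin (m + 2) → ℝ),
      (∀ i, ∑ k, U i k ^ 2 = 1) ∧ (∀ k, ∑ i, r i * U i k = 0) ∧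
      (∀ z : Fin (m + 2) → ℝ, ∑ i, r i * z i = 0 → ∀ i, ∑ k, U i k * ∑ j, T k j * z j = z i) ∧
      (∀ (G : Fin (m + 1) → ℝ) (k), ∑ j, T k j * ∑ l, U j l * G l = G k) := by
  set s := r (Fin.last (m + 1)) with hs
  have hs0 : 0 < s := hr _
  have hsum : ∑ j, r j = (∑ j : Fin (m + 1), r j.castSucc) + s := Fin.sum_univ_castSucc r
  obtain ⟨u, hu1, hu2, hu3⟩ := chain m (fun j => r j.castSucc) (fun j => hr _) s hs0 (Or.inr ⟨by
    have := hpol (Fin.last (m + 1))
    rw [hsum] at this
    linarith, fun j => by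
    have := hpol j.castSucc
    rw [hsum] at this
    linarith⟩)
  have hunit : IsUnit u.det := isUnit_iff_ne_zero.2 hu3
  have huv : u * u⁻¹ = 1 := Matrix.mul_nonsing_inv u hunit
  have hvu : u⁻¹ * u = 1 := Matrix.nonsing_inv_mul u hunit
  have huv' : ∀ i j, ∑ k, u i k * u⁻¹ k j = if i = j then 1 else 0 := by
    intro i j
    rw [← Matrix.mul_apply, huv, Matrix.one_apply]
  have hvu' : ∀ i j, ∑ k, u⁻¹ i k * u k j = if i = j then 1 else 0 := by
    intro i j
    rw [← Matrix.mul_apply, hvu, Matrix.one_apply]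
  refine ⟨Fin.snoc (α := fun _ => Fin (m + 1) → ℝ) (fun j k => u j k)
      (fun k => -(∑ j : Fin (m + 1), r j.castSucc * u j k) / s),
    fun k => Fin.snoc (α := fun _ => ℝ) (fun j => u⁻¹ k j) 0, ?_, ?_, ?_, ?_⟩
  · intro i
    refine Fin.lastCases ?_ (fun i' => ?_) i
    · simp only [Fin.snoc_last]
      have : ∑ k, (-(∑ j : Fin (m + 1), r j.castSucc * u j k) / s) ^ 2 =
          (∑ k, (∑ j : Fin (m + 1), r j.castSucc * u j k) ^ 2) / s ^ 2 := by
        rw [Finset.sum_div]
        refine Finset.sum_congr rfl fun k _ => ?_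
        rw [div_pow, neg_sq]
      rw [this, hu2]
      exact div_self (by positivity)
    · simp only [Fin.snoc_castSucc]
      exact hu1 i'
  · intro k
    rw [Fin.sum_univ_castSucc]
    simp only [Fin.snoc_last, Fin.snoc_castSucc]
    rw [← hs]
    field_simp
    ring
  · intro z hz i
    rw [Fin.sum_univ_castSucc] at hz
    have hT : ∀ k : Fin (m + 1), ∑ j, (Fin.snoc (α := fun _ => ℝ) (fun j => u⁻¹ k j) 0 : Fin (m + 2) → ℝ) j * z j =
        ∑ j : Fin (m + 1), u⁻¹ k j * z j.castSucc := by
      intro k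
      rw [Fin.sum_univ_castSucc]
      simp only [Fin.snoc_last, Fin.snoc_castSucc]
      ring
    have hmain : ∀ i' : Fin (m + 1), ∑ k, u i' k * ∑ j : Fin (m + 1), u⁻¹ k j * z j.castSucc =
        z i'.castSucc := by
      intro i'
      have h1 : ∑ k, u i' k * ∑ j : Fin (m + 1), u⁻¹ k j * z j.castSucc =
          ∑ j : Fin (m + 1), (∑ k, u i' k * u⁻¹ k j) * z j.castSucc := by
        simp only [Finset.mul_sum, Finset.sum_mul]
        rw [Finset.sum_comm]
        exact Finset.sum_congr rfl fun _ _ => Finset.sum_congr rfl fun _ _ => by ring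
      rw [h1]
      simp only [huv', ite_mul, one_mul, zero_mul, Finset.sum_ite_eq, Finset.mem_univ, if_true]
    refine Fin.lastCases ?_ (fun i' => ?_) i
    · simp only [Fin.snoc_last]
      rw [Finset.sum_congr rfl fun k _ => by rw [hT k]]
      have h1 : ∑ k, -(∑ j : Fin (m + 1), r j.castSucc * u j k) / s *
          ∑ j : Fin (m + 1), u⁻¹ k j * z j.castSucc =
          -(∑ i' : Fin (m + 1), r i'.castSucc * ∑ k, u i' k * ∑ j : Fin (m + 1), u⁻¹ k j * z j.castSucc) / s := by
        have h2 : ∑ i' : Fin (m + 1), r i'.castSucc * ∑ k, u i' k * ∑ j : Fin (m + 1), u⁻¹ k j * z j.castSucc =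
            ∑ k, (∑ i' : Fin (m + 1), r i'.castSucc * u i' k) * ∑ j : Fin (m + 1), u⁻¹ k j * z j.castSucc := by
          simp only [Finset.mul_sum (s := (Finset.univ : Finset (Fin (m + 1))))
            (f := fun k => u _ k * _), Finset.sum_mul]
          rw [Finset.sum_comm]
          refine Finset.sum_congr rfl fun k _ => Finset.sum_congr rfl fun i' _ => ?_
          ring
        rw [h2, neg_div, Finset.sum_div, ← Finset.sum_neg_distrib]
        exact Finset.sum_congr rfl fun k _ => by ring
      rw [h1, Finset.sum_congr rfl fun i' _ => by rw [hmain i']]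
      rw [← hs] at hz
      field_simp
      linarith
    · simp only [Fin.snoc_castSucc]
      rw [Finset.sum_congr rfl fun k _ => by rw [hT k]]
      exact hmain i'
  · intro G k
    rw [Fin.sum_univ_castSucc]
    simp only [Fin.snoc_last, Fin.snoc_castSucc]
    rw [zero_mul, add_zero]
    have h1 : ∑ j : Fin (m + 1), u⁻¹ k j * ∑ l, u j l * G l =
        ∑ l, (∑ j : Fin (m + 1), u⁻¹ k j * u j l) * G l := by
      simp only [Finset.mul_sum, Finset.sum_mul]
      rw [Finset.sum_comm]
      exact Finset.sum_congr rfl fun _ _ => Finset.sum_congr rfl fun _ _ => by ring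
    rw [h1]
    simp only [hvu', ite_mul, one_mul, zero_mul, Finset.sum_ite_eq, Finset.mem_univ, if_true]

theorem main : St_poly := by
  intro ι _ _ r hcard hr hpol
  obtain ⟨m, hm⟩ : ∃ m, Fintype.card ι = m + 2 := ⟨Fintype.card ι - 2, by omega⟩
  have hd : Fintype.card ι - 1 = m + 1 := by omega
  rw [hd]
  let e : ι ≃ Fin (m + 2) := Fintype.equivFinOfCardEq hm
  have hsumr : ∑ j, r (e.symm j) = ∑ i, r i := e.symm.sum_comp r
  obtain ⟨U, T, h1, h2, h3, h4⟩ := polyFin m (fun j => r (e.symm j)) (fun j => hr _) (by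
    intro j
    rw [hsumr]
    have h5 := hpol (e.symm j)
    have h6 := Finset.add_sum_erase Finset.univ r (Finset.mem_univ (e.symm j))
    linarith)
  have h3' : ∀ z : ι → ℝ, ∑ i, r i * z i = 0 → ∀ i, ∑ k, U (e i) k * ∑ j, T k (e j) * z j = z i := by
    intro z hz i
    have h5 := h3 (fun j => z (e.symm j)) (by
      rw [← hz]
      exact e.symm.sum_comp (fun i => r i * z i)) (e i)
    simp only [Equiv.symm_apply_apply] at h5
    rw [← h5]
    refine Finset.sum_congr rfl fun k _ => ?_
    congr 1
    rw [← e.sum_comp]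
    refine Finset.sum_congr rfl fun j _ => ?_
    rw [Equiv.symm_apply_apply]
  refine ⟨fun i => U (e i), fun k j => T k (e j), fun i => h1 (e i), ?_, h3', ?_, ?_⟩
  · intro k
    rw [← h2 k, ← e.sum_comp]
    refine Finset.sum_congr rfl fun j _ => ?_
    rw [Equiv.symm_apply_apply]
  · intro G k
    rw [← h4 G k]
    exact e.sum_comp (fun j => T k j * ∑ l, U j l * G l)
  · intro i j hij
    by_contra hcon
    push Not at hcon
    -- the vectors are parallel
    have hpar : ∃ ε : ℝ, ∀ k, U (e i) k = ε * U (e j) k := by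
      rcases le_abs.1 hcon with h5 | h5
      · refine ⟨1, fun k => ?_⟩
        have h6 : ∑ k, (U (e i) k - U (e j) k) ^ 2 ≤ 0 := by
          have : ∑ k, (U (e i) k - U (e j) k) ^ 2 =
              ∑ k, U (e i) k ^ 2 + ∑ k, U (e j) k ^ 2 - 2 * ∑ k, U (e i) k * U (e j) k := by
            rw [Finset.mul_sum, ← Finset.sum_add_distrib, ← Finset.sum_sub_distrib]
            exact Finset.sum_congr rfl fun _ _ => by ring
          rw [this, h1, h1]
          linarith
        have h7 := (Finset.sum_eq_zero_iff_of_nonneg (fun k _ => sq_nonneg _)).1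
          (le_antisymm h6 (Finset.sum_nonneg fun k _ => sq_nonneg _)) k (Finset.mem_univ k)
        have h8 : U (e i) k - U (e j) k = 0 := by simpa using h7
        linarith
      · refine ⟨-1, fun k => ?_⟩
        have h6 : ∑ k, (U (e i) k + U (e j) k) ^ 2 ≤ 0 := by
          have : ∑ k, (U (e i) k + U (e j) k) ^ 2 =
              ∑ k, U (e i) k ^ 2 + ∑ k, U (e j) k ^ 2 + 2 * ∑ k, U (e i) k * U (e j) k := by
            rw [Finset.mul_sum, ← Finset.sum_add_distrib, ← Finset.sum_add_distrib]
            exact Finset.sum_congr rfl fun _ _ => by ring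
          rw [this, h1, h1]
          linarith
        have h7 := (Finset.sum_eq_zero_iff_of_nonneg (fun k _ => sq_nonneg _)).1
          (le_antisymm h6 (Finset.sum_nonneg fun k _ => sq_nonneg _)) k (Finset.mem_univ k)
        have h8 : U (e i) k + U (e j) k = 0 := by simpa using h7
        linarith
    obtain ⟨ε, hε⟩ := hpar
    -- a third index
    obtain ⟨l, hli, hlj⟩ : ∃ l, l ≠ i ∧ l ≠ j := by
      have : (Finset.univ \ {i, j} : Finset ι).Nonempty := by
        rw [← Finset.card_pos]
        have h5 := Finset.le_card_sdiff {i, j} (Finset.univ : Finset ι)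
        have h6 : ({i, j} : Finset ι).card ≤ 2 := Finset.card_le_two
        rw [Finset.card_univ] at h5
        omega
      obtain ⟨l, hl⟩ := this
      rw [Finset.mem_sdiff, Finset.mem_insert, Finset.mem_singleton] at hl
      exact ⟨l, fun h => hl.2 (Or.inl h), fun h => hl.2 (Or.inr h)⟩
    set z : ι → ℝ := fun x => if x = i then 1 else if x = l then -(r i / r l) else 0 with hz
    have hz0 : ∑ x, r x * z x = 0 := by
      rw [← Finset.sum_subset (Finset.subset_univ {i, l})]
      · rw [Finset.sum_pair (Ne.symm hli), hz]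
        simp only [if_true, if_neg hli]
        have := (hr l).ne'
        field_simp
        ring
      · intro x _ hx
        rw [Finset.mem_insert, Finset.mem_singleton, not_or] at hx
        rw [hz]
        simp only [if_neg hx.1, if_neg hx.2, mul_zero]
    have hi := h3' z hz0 i
    have hj := h3' z hz0 j
    have h5 : z i = ε * z j := by
      rw [← hi, ← hj, Finset.mul_sum]
      refine Finset.sum_congr rfl fun k _ => ?_
      rw [hε k]
      ring
    rw [hz] at h5
    simp only [if_true, if_neg (Ne.symm hij), if_neg (Ne.symm hlj), mul_zero] at h5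
    exact one_ne_zero h5

end Run7.h364.Smyth_POLY
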