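import Pool.Agent.Run7.h364.NumThy

/-!
Finiteness of the set of small global dimensions: the number theoretic part.
-/

set_option autoImplicit false

namespace Run7.h364

open Polynomial Module IntermediateField

/-- Numerical data of a spherical fusion category of global dimension `x`. -/
structure DimData (x : ℝ) (n : ℕ) (o : Fin n) (d : Fin n → ℂ) (ν : Fin n → ℤ) : Prop where
  d_unit : d o = 1
  ν_unit : ν o = 1
  ν_val : ∀ i, ν i = 0 ∨ ν i = 1 ∨ ν i = -1
  ne_zero : ∀ i, d i ≠ 0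
  fusion : ∃ N : Fin n → Fin n → Fin n → ℕ,
    ∀ i j, d i * d j = ∑ k, (N i j k : ℂ) * d k
  sum_sq : ∑ i, d i ^ 2 = (x : ℂ)
  real : ∀ (φ : ℂ ≃+* ℂ) (i : Fin n), (φ (d i)).im = 0
  ineq : ∀ φ : ℂ ≃+* ℂ, 8 * (φ (x : ℂ)).re ^ 2 / x ^ 2 ≤
    3 * (φ (x : ℂ)).re ^ 2 + 4 * (φ (x : ℂ)).re + (φ (x : ℂ)).re * ∑ i, (ν i : ℝ) * (φ (d i)).re

section

open Matrix

theorem charpoly_root {n : ℕ} (A : Matrix (Fin n) (Fin n) ℤ) (v : Fin n → ℂ) (hv : v ≠ 0) (μ : ℂ)
    (h : (A.map (Int.castRingHom ℂ)) *ᵥ v = μ • v) :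
    aeval μ A.charpoly = 0 := by
  have h1 : (A.map (Int.castRingHom ℂ)).charpoly.eval μ = 0 := by
    rw [Matrix.eval_charpoly]
    apply Matrix.exists_mulVec_eq_zero_iff.1
    refine ⟨v, hv, ?_⟩
    rw [Matrix.sub_mulVec, h]
    ext j
    simp [Matrix.scalar_apply]
  rw [Matrix.charpoly_map] at h1
  rw [aeval_def, eval₂_eq_eval_map]
  exact h1

end

namespace DimData

variable {x : ℝ} {n : ℕ} {o : Fin n} {d : Fin n → ℂ} {ν : Fin n → ℤ}

theorem d_vec_ne (h : DimData x n o d ν) : d ≠ 0 := by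
  intro h0
  have := h.ne_zero o
  rw [h0] at this
  exact this rfl

theorem isIntegral (h : DimData x n o d ν) (i : Fin n) : IsIntegral ℤ (d i) := by
  obtain ⟨N, hN⟩ := h.fusion
  let A : Matrix (Fin n) (Fin n) ℤ := Matrix.of fun j k => (N i j k : ℤ)
  refine ⟨A.charpoly, A.charpoly_monic, ?_⟩
  rw [← aeval_def]
  apply charpoly_root A d h.d_vec_ne
  ext j
  simp only [Matrix.mulVec, dotProduct, Matrix.map_apply, A, Matrix.of_apply, Pi.smul_apply,
    smul_eq_mul, eq_intCast, Int.cast_natCast]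
  exact (hN i j).symm

theorem root (h : DimData x n o d ν) : ∃ p : ℤ[X], p.Monic ∧ p.natDegree = n ∧
    aeval (x : ℂ) p = 0 := by
  obtain ⟨N, hN⟩ := h.fusion
  let A : Fin n → Matrix (Fin n) (Fin n) ℤ := fun i => Matrix.of fun j k => (N i j k : ℤ)
  have hA : ∀ i, Matrix.mulVec ((A i).map (Int.castRingHom ℂ)) d = d i • d := by
    intro i
    ext j
    simp only [Matrix.mulVec, dotProduct, Matrix.map_apply, A, Matrix.of_apply, Pi.smul_apply,
      smul_eq_mul, eq_intCast, Int.cast_natCast]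
    exact (hN i j).symm
  refine ⟨(∑ i, A i * A i).charpoly, Matrix.charpoly_monic _, ?_, ?_⟩
  · rw [Matrix.charpoly_natDegree_eq_dim]; simp
  · apply charpoly_root _ d h.d_vec_ne
    rw [← h.sum_sq, Finset.sum_smul]
    have h1 : (∑ i, A i * A i).map (Int.castRingHom ℂ) =
        ∑ i, ((A i).map (Int.castRingHom ℂ)) * ((A i).map (Int.castRingHom ℂ)) := by
      have h2 := map_sum (Int.castRingHom ℂ).mapMatrix (fun i => A i * A i) Finset.univ
      simp only [map_mul, RingHom.mapMatrix_apply] at h2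
      exact h2
    rw [h1, Matrix.sum_mulVec]
    refine Finset.sum_congr rfl fun i _ => ?_
    rw [← Matrix.mulVec_mulVec, hA, Matrix.mulVec_smul, hA, smul_smul, sq]

/-- the field generated by the dimensions -/
noncomputable abbrev F (_h : DimData x n o d ν) : IntermediateField ℚ ℂ :=
  IntermediateField.adjoin ℚ (Set.range d)

theorem finDim (h : DimData x n o d ν) : FiniteDimensional ℚ h.F := by
  apply IntermediateField.finiteDimensional_adjoin
  rintro _ ⟨i, rfl⟩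
  exact (h.isIntegral i).tower_top

/-- the dimensions as elements of the field -/
noncomputable def D (h : DimData x n o d ν) (i : Fin n) : h.F :=
  ⟨d i, IntermediateField.subset_adjoin ℚ _ ⟨i, rfl⟩⟩

/-- the conjugates of the dimensions -/
noncomputable def a (h : DimData x n o d ν) (σ : h.F →ₐ[ℚ] ℂ) (i : Fin n) : ℝ := (σ (h.D i)).re

/-- the global dimension as element of the field -/
noncomputable def X (h : DimData x n o d ν) : h.F := ∑ i, h.D i ^ 2

theorem coe_X (h : DimData x n o d ν) : (h.X : ℂ) = x := by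
  rw [← h.sum_sq, X]
  simp [D]

theorem exists_ext (h : DimData x n o d ν) (σ : h.F →ₐ[ℚ] ℂ) :
    ∃ φ : ℂ ≃+* ℂ, (∀ i, φ (d i) = σ (h.D i)) ∧ φ (x : ℂ) = σ h.X := by
  have := h.finDim
  obtain ⟨φ, hφ⟩ := exists_ringEquiv_extend h.F σ.toRingHom
  refine ⟨φ, fun i => hφ (h.D i), ?_⟩
  rw [← h.coe_X]
  exact hφ h.X

theorem a_eq (h : DimData x n o d ν) (σ : h.F →ₐ[ℚ] ℂ) (i : Fin n) :
    σ (h.D i) = (h.a σ i : ℂ) := by
  obtain ⟨φ, hφ, -⟩ := h.exists_ext σ
  have h1 := h.real φ i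
  rw [hφ] at h1
  apply Complex.ext
  · simp [a]
  · simpa using h1

theorem a_unit (h : DimData x n o d ν) (σ : h.F →ₐ[ℚ] ℂ) : h.a σ o = 1 := by
  have h1 : h.D o = 1 := by
    apply Subtype.ext
    exact h.d_unit
  rw [a, h1, map_one, Complex.one_re]

/-- the conjugate of the global dimension -/
noncomputable def Y (h : DimData x n o d ν) (σ : h.F →ₐ[ℚ] ℂ) : ℝ := ∑ i, h.a σ i ^ 2

theorem Y_eq (h : DimData x n o d ν) (σ : h.F →ₐ[ℚ] ℂ) : σ h.X = (h.Y σ : ℂ) := by
  rw [X, Y]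
  simp [map_sum, h.a_eq]

theorem one_le_Y (h : DimData x n o d ν) (σ : h.F →ₐ[ℚ] ℂ) : 1 ≤ h.Y σ := by
  have h1 := Finset.single_le_sum (f := fun i => h.a σ i ^ 2) (fun i _ => sq_nonneg _)
    (Finset.mem_univ o)
  simp only [h.a_unit] at h1
  rw [Y]
  linarith

theorem x_eq (h : DimData x n o d ν) : x = ∑ i, (d i).re ^ 2 := by
  have h1 := h.sum_sq
  have h2 : ∀ i, (d i : ℂ) = ((d i).re : ℂ) := by
    intro i
    apply Complex.ext
    · simp
    · have := h.real (RingEquiv.refl ℂ) i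
      simpa using this
  have h3 : ((∑ i, (d i).re ^ 2 : ℝ) : ℂ) = (x : ℂ) := by
    rw [← h1]
    push_cast
    exact Finset.sum_congr rfl fun i _ => by rw [← h2 i]
  exact_mod_cast h3.symm

theorem one_le_x (h : DimData x n o d ν) : 1 ≤ x := by
  rw [h.x_eq]
  have h1 := Finset.single_le_sum (f := fun i => (d i).re ^ 2) (fun i _ => sq_nonneg _)
    (Finset.mem_univ o)
  simp only [h.d_unit, Complex.one_re] at h1
  linarith

theorem two_le_x (h : DimData x n o d ν) (i : Fin n) (hi : i ≠ o) (hd : d i ^ 2 = 1) : 2 ≤ x := by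
  rw [h.x_eq]
  have h2 : (d i : ℂ) = ((d i).re : ℂ) := by
    apply Complex.ext
    · simp
    · have := h.real (RingEquiv.refl ℂ) i
      simpa using this
  have h3 : (d i).re ^ 2 = 1 := by
    rw [h2] at hd
    exact_mod_cast hd
  have h1 := Finset.add_le_sum (f := fun i => (d i).re ^ 2) (s := Finset.univ)
    (fun i _ => sq_nonneg _) (Finset.mem_univ o) (Finset.mem_univ i) hi.symm
  simp only [h.d_unit, Complex.one_re] at h1
  rw [h3] at h1
  linarith

/-- the basic inequality for all embeddings -/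
theorem basic (h : DimData x n o d ν) (σ : h.F →ₐ[ℚ] ℂ) :
    ∑ i, (h.a σ i ^ 2 - ν i * h.a σ i) ≤ 4 * (1 - 2 / x ^ 2) * h.Y σ + 4 := by
  obtain ⟨φ, hφ, hφx⟩ := h.exists_ext σ
  have h1 := h.ineq φ
  have hx := h.one_le_x
  have hY := h.one_le_Y σ
  have h2 : (φ (x : ℂ)).re = h.Y σ := by rw [hφx, h.Y_eq, Complex.ofReal_re]
  have h3 : ∀ i, (φ (d i)).re = h.a σ i := fun i => by rw [hφ, a]
  simp only [h2, h3] at h1
  rw [Finset.sum_sub_distrib]
  have h4 : ∑ i, h.a σ i ^ 2 = h.Y σ := rfl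
  rw [h4]
  have h5 : h.Y σ * (8 * h.Y σ / x ^ 2) ≤
      h.Y σ * (3 * h.Y σ + 4 + ∑ i, (ν i : ℝ) * h.a σ i) := by
    calc h.Y σ * (8 * h.Y σ / x ^ 2) = 8 * h.Y σ ^ 2 / x ^ 2 := by ring
      _ ≤ _ := h1
      _ = _ := by ring
  have h6 := le_of_mul_le_mul_left h5 (by linarith)
  have h7 : 4 * (1 - 2 / x ^ 2) * h.Y σ + 4 = 4 * h.Y σ - 8 * h.Y σ / x ^ 2 + 4 := by
    field_simp
    ring
  rw [h7]
  linarith

theorem u_ge (h : DimData x n o d ν) (σ : h.F →ₐ[ℚ] ℂ) (i : Fin n) :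
    -(1 / 4) ≤ h.a σ i ^ 2 - ν i * h.a σ i := by
  rcases h.ν_val i with h1 | h1 | h1 <;> rw [h1]
  · push_cast
    nlinarith [sq_nonneg (h.a σ i)]
  · push_cast
    nlinarith [sq_nonneg (h.a σ i - 1 / 2)]
  · push_cast
    nlinarith [sq_nonneg (h.a σ i + 1 / 2)]

/-- the average of `d² - νd` is at least one. -/
theorem card_le (h : DimData x n o d ν) (hx : x < 2) (i : Fin n) (hi : i ≠ o)
    [FiniteDimensional ℚ h.F] :
    (Fintype.card (h.F →ₐ[ℚ] ℂ) : ℝ) ≤ ∑ σ, (h.a σ i ^ 2 - ν i * h.a σ i) := by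
  have hint : IsIntegral ℤ (h.D i) := by
    have h1 := h.isIntegral i
    have h2 : (algebraMap h.F ℂ) (h.D i) = d i := rfl
    rw [← h2] at h1
    exact (isIntegral_algebraMap_iff (algebraMap h.F ℂ).injective).1 h1
  apply card_le_sum (h.D i ^ 2 - (ν i : h.F) * h.D i)
  · exact (hint.pow 2).sub ((isIntegral_algebraMap (R := ℤ) (A := h.F) (x := ν i)).mul hint)
  · intro h0
    have h1 : h.D i * (h.D i - ν i) = 0 := by linear_combination h0
    rcases mul_eq_zero.1 h1 with h2 | h2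
    · have := congrArg (Subtype.val) h2
      exact h.ne_zero i this
    · have h3 : h.D i = (ν i : h.F) := sub_eq_zero.1 h2
      have h4 : d i = (ν i : ℂ) := by
        have := congrArg (fun z : h.F => (z : ℂ)) h3
        simpa [D] using this
      rcases h.ν_val i with h5 | h5 | h5
      · rw [h5] at h4
        exact h.ne_zero i (by simpa using h4)
      · have := h.two_le_x i hi (by rw [h4, h5]; norm_num)
        linarith
      · have := h.two_le_x i hi (by rw [h4, h5]; norm_num)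
        linarith
  · intro σ
    rw [map_sub, map_mul, map_pow, h.a_eq]
    simp
  · exact fun σ => h.u_ge σ i

theorem isIntegral_x (h : DimData x n o d ν) : IsIntegral ℤ (x : ℂ) := by
  obtain ⟨p, hp, -, h1⟩ := h.root
  exact ⟨p, hp, h1⟩

theorem minpoly_X (h : DimData x n o d ν) : minpoly ℚ h.X = minpoly ℚ (x : ℂ) := by
  rw [← h.coe_X]
  exact (minpoly.algebraMap_eq (algebraMap h.F ℂ).injective h.X).symm

theorem natDegree_le (h : DimData x n o d ν) : (minpoly ℚ (x : ℂ)).natDegree ≤ n := by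
  obtain ⟨p, hp, hn, h1⟩ := h.root
  have h2 : aeval (x : ℂ) (p.map (algebraMap ℤ ℚ)) = 0 := by
    rw [aeval_map_algebraMap]
    exact h1
  have h3 := minpoly.dvd ℚ (x : ℂ) h2
  have h4 := natDegree_le_of_dvd h3 (hp.map _).ne_zero
  rwa [hp.natDegree_map, hn] at h4

theorem three_quarters (h : DimData x n o d ν) (hx : x < 2) (i : Fin n) (hi : i ≠ o)
    [FiniteDimensional ℚ h.F] :
    3 / 4 * ∑ σ, h.a σ i ^ 2 ≤ 2 * ∑ σ, (h.a σ i ^ 2 - ν i * h.a σ i) := by
  have h1 := h.card_le hx i hi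
  have h2 : ∑ σ : h.F →ₐ[ℚ] ℂ, (3 / 4 * h.a σ i ^ 2 - 1) ≤
      ∑ σ, (h.a σ i ^ 2 - ν i * h.a σ i) := by
    apply Finset.sum_le_sum
    intro σ _
    rcases h.ν_val i with h1 | h1 | h1 <;> rw [h1]
    · push_cast
      nlinarith [sq_nonneg (h.a σ i)]
    · push_cast
      nlinarith [sq_nonneg (h.a σ i - 2)]
    · push_cast
      nlinarith [sq_nonneg (h.a σ i + 2)]
  rw [Finset.sum_sub_distrib, ← Finset.mul_sum] at h2
  simp only [Finset.sum_const, Finset.card_univ, nsmul_eq_mul, mul_one] at h2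
  linarith

theorem bounds (h : DimData x n o d ν) (hx : x ≤ 36 / 25) [FiniteDimensional ℚ h.F] :
    n ≤ 7 ∧ ∑ σ, h.Y σ ≤ 19 * (Fintype.card (h.F →ₐ[ℚ] ℂ) : ℝ) := by
  have hx2 : x < 2 := by linarith
  set m : ℝ := (Fintype.card (h.F →ₐ[ℚ] ℂ) : ℝ) with hm
  have hmpos : 0 < m := by
    have h1 : 0 < Fintype.card (h.F →ₐ[ℚ] ℂ) := by
      rw [AlgHom.card]
      exact Module.finrank_pos
    rw [hm]
    exact_mod_cast h1
  set A : Fin n → ℝ := fun i => ∑ σ, (h.a σ i ^ 2 - ν i * h.a σ i) with hA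
  set S : Fin n → ℝ := fun i => ∑ σ, h.a σ i ^ 2 with hS
  have hA0 : A o = 0 := by
    simp [hA, h.a_unit, h.ν_unit]
  have hS0 : S o = m := by
    simp [hS, h.a_unit, hm]
  have hYS : ∑ σ, h.Y σ = ∑ i, S i := by
    simp only [Y, hS]
    exact Finset.sum_comm
  have hx1 := h.one_le_x
  have hcoef : 4 * (1 - 2 / x ^ 2) ≤ 1 / 7 := by
    have h1 : x ^ 2 ≤ 1296 / 625 := by nlinarith
    have h2 : 0 < x ^ 2 := by positivity
    have h3 : 2 / (1296 / 625 : ℝ) ≤ 2 / x ^ 2 :=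
      div_le_div_of_nonneg_left (by norm_num) h2 h1
    norm_num at h3 ⊢
    linarith
  have hsum : ∑ i, A i ≤ 1 / 7 * ∑ i, S i + 4 * m := by
    rw [← hYS]
    simp only [hA]
    rw [Finset.sum_comm]
    calc ∑ σ, ∑ i, (h.a σ i ^ 2 - ν i * h.a σ i) ≤ ∑ σ, (1 / 7 * h.Y σ + 4) := by
          apply Finset.sum_le_sum
          intro σ _
          have h1 := h.basic σ
          have h2 := h.one_le_Y σ
          have h3 : 4 * (1 - 2 / x ^ 2) * h.Y σ ≤ 1 / 7 * h.Y σ :=
            mul_le_mul_of_nonneg_right hcoef (by linarith)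
          linarith
      _ = _ := by
          rw [Finset.sum_add_distrib, ← Finset.mul_sum]
          simp [hm]
          ring
  have hsplitA : ∑ i, A i = ∑ i ∈ Finset.univ.erase o, A i := by
    rw [← Finset.add_sum_erase Finset.univ A (Finset.mem_univ o), hA0, zero_add]
  have hsplitS : ∑ i, S i = m + ∑ i ∈ Finset.univ.erase o, S i := by
    rw [← Finset.add_sum_erase Finset.univ S (Finset.mem_univ o), hS0]
  have h3 : 3 / 4 * ∑ i ∈ Finset.univ.erase o, S i ≤ 2 * ∑ i ∈ Finset.univ.erase o, A i := by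
    rw [Finset.mul_sum, Finset.mul_sum]
    exact Finset.sum_le_sum fun i hi => h.three_quarters hx2 i (Finset.ne_of_mem_erase hi)
  have h4 : ((n : ℝ) - 1) * m ≤ ∑ i ∈ Finset.univ.erase o, A i := by
    have h5 : ∑ i ∈ Finset.univ.erase o, m ≤ ∑ i ∈ Finset.univ.erase o, A i :=
      Finset.sum_le_sum fun i hi => h.card_le hx2 i (Finset.ne_of_mem_erase hi)
    rw [Finset.sum_const, Finset.card_erase_of_mem (Finset.mem_univ o), Finset.card_univ,
      Fintype.card_fin, nsmul_eq_mul] at h5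
    have hn : 0 < n := o.pos
    rw [Nat.cast_sub (by omega)] at h5
    simpa using h5
  rw [hsplitA, hsplitS] at hsum
  have h6 : 13 * ∑ i ∈ Finset.univ.erase o, A i ≤ 87 * m := by linarith
  constructor
  · by_contra hn
    push Not at hn
    have h7 : (8 : ℝ) ≤ n := by exact_mod_cast hn
    nlinarith
  · rw [hYS, hsplitS]
    linarith

theorem conj_bound (h : DimData x n o d ν) (hx : x ≤ 36 / 25) (z : ℂ)
    (hz : z ∈ (minpoly ℚ (x : ℂ)).aroots ℂ) : ‖z‖ ≤ 133 := by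
  have := h.finDim
  obtain ⟨hn, hs⟩ := h.bounds hx
  have h6 := Algebra.IsAlgebraic.range_eval_eq_rootSet_minpoly (F := ℚ) ℂ h.X
  have h7 : z ∈ (minpoly ℚ h.X).rootSet ℂ := by
    rw [Polynomial.mem_rootSet]
    rw [Polynomial.mem_aroots] at hz
    rw [h.minpoly_X]
    exact hz
  rw [← h6] at h7
  obtain ⟨σ, hσ⟩ := h7
  have h8 : z = (h.Y σ : ℂ) := by rw [← hσ]; exact h.Y_eq σ
  have h9 := h.one_le_Y σ
  rw [h8, Complex.norm_real, Real.norm_eq_abs, abs_of_nonneg (by linarith)]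
  have h10 := conj_le h.X h.Y h.Y_eq (fun σ => by have := h.one_le_Y σ; linarith) 19 hs σ
  rw [h.minpoly_X] at h10
  have h11 := h.natDegree_le
  have h12 : ((minpoly ℚ (x : ℂ)).natDegree : ℝ) ≤ 7 := by exact_mod_cast h11.trans hn
  linarith

end DimData

/-- (A) -/
theorem finite_dimData :
    {x : ℝ | x ≤ 36 / 25 ∧ ∃ n o d ν, DimData x n o d ν}.Finite := by
  refine (finite_of_bdd 133 7).subset ?_
  rintro x ⟨hx, n, o, d, ν, h⟩
  have := h.finDim
  exact ⟨h.isIntegral_x, h.natDegree_le.trans (h.bounds hx).1, fun z hz => h.conj_bound hx z hz⟩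

end Run7.h364
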