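import Pool.Agent.Run7.h364.AMO_parseval

set_option autoImplicit false

namespace Run7.h364.AMO

open Finset Run7.h608

theorem one_sub_sum_le {ι : Type} (s : Finset ι) (f : ι → ℝ) (h0 : ∀ i ∈ s, 0 ≤ f i)
    (h1 : ∀ i ∈ s, f i ≤ 1) : 1 - ∑ i ∈ s, f i ≤ ∏ i ∈ s, (1 - f i) := by
  classical
  induction s using Finset.induction_on with
  | empty => simp
  | insert a s ha ih =>
    rw [sum_insert ha, prod_insert ha]
    have i1 := ih (fun i hi => h0 i (mem_insert_of_mem hi)) (fun i hi => h1 i (mem_insert_of_mem hi))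
    have a0 := h0 a (mem_insert_self _ _)
    have a1 := h1 a (mem_insert_self _ _)
    have s0 : 0 ≤ ∑ i ∈ s, f i := sum_nonneg fun i hi => h0 i (mem_insert_of_mem hi)
    have p0 : ∏ i ∈ s, (1 - f i) ≤ 1 := prod_le_one
      (fun i hi => by linarith [h1 i (mem_insert_of_mem hi)])
      (fun i hi => by linarith [h0 i (mem_insert_of_mem hi)])
    nlinarith

theorem norm_ee_sub_one (x : ℝ) : ‖1 - ee x‖ = 2 * |Real.sin (Real.pi * x)| := by
  have h2 : 1 - ee x = -(ee (x / 2) * (ee (x / 2) - ee (-(x / 2)))) := by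
    rw [mul_sub, ← ee_add, ← ee_add]
    have e1 : x / 2 + x / 2 = x := by ring
    have e2 : x / 2 + -(x / 2) = 0 := by ring
    rw [e1, e2, ee_zero]; ring
  have h3 : ee (x / 2) - ee (-(x / 2)) = ((2 * Real.sin (Real.pi * x) : ℝ) : ℂ) * Complex.I := by
    rw [ee_eq, ee_eq]
    have e1 : 2 * Real.pi * (x / 2) = Real.pi * x := by ring
    have e2 : 2 * Real.pi * -(x / 2) = -(Real.pi * x) := by ring
    rw [e1, e2, Real.cos_neg, Real.sin_neg]
    push_cast
    ring
  rw [h2, h3, norm_neg, norm_mul, norm_ee, norm_mul, Complex.norm_I, Complex.norm_real, one_mul,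
    mul_one, Real.norm_eq_abs, abs_mul, abs_of_pos (by norm_num : (0 : ℝ) < 2)]

/-- `|sin (π j p / q)|` -/
noncomputable def tt (p : ℤ) (q : ℕ) (j : ℕ) : ℝ := |Real.sin (Real.pi * (j * ((p : ℝ) / q)))|

theorem prim (p : ℤ) (q : ℕ) (hq : 1 ≤ q) (hcop : IsCoprime p (q : ℤ)) :
    IsPrimitiveRoot (ee ((p : ℝ) / q)) q := by
  have hq' : (q : ℝ) ≠ 0 := by positivity
  refine ⟨?_, ?_⟩
  · rw [ee_pow]
    have : (q : ℝ) * ((p : ℝ) / q) = (p : ℤ) := by field_simp
    rw [this, ee_int]
  · intro l hl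
    rw [ee_pow] at hl
    obtain ⟨k, hk⟩ := ee_eq_one hl
    have h1 : ((l * p : ℤ) : ℝ) = ((k * q : ℤ) : ℝ) := by
      push_cast; rw [← hk]; field_simp
    have h2 : (l : ℤ) * p = k * q := by exact_mod_cast h1
    have h3 : (q : ℤ) ∣ l * p := ⟨k, by rw [h2]; ring⟩
    exact_mod_cast hcop.symm.dvd_of_dvd_mul_right h3

theorem prod_tt (p : ℤ) (q : ℕ) (hq : 1 ≤ q) (hcop : IsCoprime p (q : ℤ)) :
    ∏ i ∈ range (q - 1), (2 * tt p q (i + 1)) = q := by
  obtain ⟨n, rfl⟩ : ∃ n, q = n + 1 := ⟨q - 1, by omega⟩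
  have h := (prim p (n + 1) hq hcop).prod_one_sub_pow_eq_order
  have h2 := congrArg (fun z : ℂ => ‖z‖) h
  simp only [norm_prod] at h2
  have h3 : ‖((n : ℂ) + 1)‖ = ((n + 1 : ℕ) : ℝ) := by
    have : ((n : ℂ) + 1) = ((n + 1 : ℕ) : ℂ) := by push_cast; rfl
    rw [this, Complex.norm_natCast]
  rw [h3] at h2
  rw [← h2, Nat.add_sub_cancel]
  refine prod_congr rfl fun i _ => ?_
  rw [ee_pow, norm_ee_sub_one]
  rfl

theorem inv_sin_le {q r : ℕ} (hr : 1 ≤ r) (hrq : r < q) :
    1 / |Real.sin (Real.pi * ((r : ℝ) / q))| ≤ q / 2 * (1 / r + 1 / (q - r)) := by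
  have hpi := Real.pi_pos
  have hr' : (0 : ℝ) < r := by exact_mod_cast hr
  have hrq' : (r : ℝ) < q := by exact_mod_cast hrq
  have hq' : (0 : ℝ) < q := by linarith
  have hqr : (0 : ℝ) < q - r := by linarith
  have hy0 : 0 < (r : ℝ) / q := by positivity
  have hy1 : (r : ℝ) / q < 1 := by rw [div_lt_one hq']; exact hrq'
  have hsin : 0 ≤ Real.sin (Real.pi * ((r : ℝ) / q)) :=
    Real.sin_nonneg_of_nonneg_of_le_pi (by positivity) (by nlinarith)
  rw [abs_of_nonneg hsin]
  rcases le_total ((r : ℝ) / q) (1 / 2) with h | h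
  · have h4 := Real.mul_le_sin (x := Real.pi * ((r : ℝ) / q)) (by positivity) (by nlinarith)
    have h5 : 2 / Real.pi * (Real.pi * ((r : ℝ) / q)) = 2 * r / q := by field_simp
    rw [h5] at h4
    calc 1 / Real.sin (Real.pi * ((r : ℝ) / q)) ≤ 1 / (2 * r / q) :=
          one_div_le_one_div_of_le (by positivity) h4
      _ = q / 2 * (1 / r) := by field_simp
      _ ≤ _ := by
          refine mul_le_mul_of_nonneg_left ?_ (by positivity)
          have : 0 < 1 / ((q : ℝ) - r) := by positivity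
          linarith
  · have h4 := Real.mul_le_sin (x := Real.pi * (1 - (r : ℝ) / q)) (by nlinarith) (by nlinarith)
    have h5 : 2 / Real.pi * (Real.pi * (1 - (r : ℝ) / q)) = 2 * (q - r) / q := by field_simp
    have h6 : Real.sin (Real.pi * (1 - (r : ℝ) / q)) = Real.sin (Real.pi * ((r : ℝ) / q)) := by
      have : Real.pi * (1 - (r : ℝ) / q) = Real.pi - Real.pi * ((r : ℝ) / q) := by ring
      rw [this, Real.sin_pi_sub]
    rw [h5, h6] at h4
    calc 1 / Real.sin (Real.pi * ((r : ℝ) / q)) ≤ 1 / (2 * (q - r) / q) :=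
          one_div_le_one_div_of_le (by positivity) h4
      _ = q / 2 * (1 / (q - r)) := by field_simp
      _ ≤ _ := by
          refine mul_le_mul_of_nonneg_left ?_ (by positivity)
          have : 0 < 1 / (r : ℝ) := by positivity
          linarith

theorem sum_inv_tt (p : ℤ) (q : ℕ) (hq : 2 ≤ q) (hcop : IsCoprime p (q : ℤ)) :
    (∑ i ∈ range (q - 1), 1 / tt p q (i + 1) ≤ q * (1 + Real.log q)) ∧
    ∀ i ∈ range (q - 1), 2 / q ≤ tt p q (i + 1) := by
  have hq0 : (0 : ℤ) < q := by exact_mod_cast (by omega : 0 < q)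
  have hqr : (0 : ℝ) < q := by exact_mod_cast (by omega : 0 < q)
  set f : ℕ → ℕ := fun i => (((i + 1 : ℕ) : ℤ) * p % q).toNat with hf
  have hfc : ∀ i, ((f i : ℕ) : ℤ) = ((i + 1 : ℕ) : ℤ) * p % q := fun i =>
    Int.toNat_of_nonneg (Int.emod_nonneg _ hq0.ne')
  have hflt : ∀ i, f i < q := by
    intro i
    have := Int.emod_lt_of_pos (((i + 1 : ℕ) : ℤ) * p) hq0
    rw [← hfc] at this
    exact_mod_cast this
  have hpos : ∀ i ∈ range (q - 1), 1 ≤ f i := by
    intro i hi
    rw [mem_range] at hi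
    by_contra hcon
    have h0 : f i = 0 := by omega
    have h1 := hfc i
    rw [h0] at h1
    have h2 : (q : ℤ) ∣ ((i + 1 : ℕ) : ℤ) * p := Int.dvd_of_emod_eq_zero h1.symm
    have h3 : (q : ℤ) ∣ ((i + 1 : ℕ) : ℤ) := hcop.symm.dvd_of_dvd_mul_right h2
    have h4 : q ∣ i + 1 := by exact_mod_cast h3
    have := Nat.le_of_dvd (by omega) h4
    omega
  have hinj : Set.InjOn f (range (q - 1) : Finset ℕ) := by
    intro i hi j hj h
    rw [coe_range, Set.mem_Iio] at hi hj
    have h1 : ((i + 1 : ℕ) : ℤ) * p % q = ((j + 1 : ℕ) : ℤ) * p % q := by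
      rw [← hfc, ← hfc, h]
    have h2 : (q : ℤ) ∣ (((i + 1 : ℕ) : ℤ) - ((j + 1 : ℕ) : ℤ)) * p := by
      have := (Int.emod_emod_of_dvd (((i + 1 : ℕ) : ℤ) * p) (dvd_refl (q : ℤ)))
      have h3 := Int.ModEq.dvd (show ((j + 1 : ℕ) : ℤ) * p ≡ ((i + 1 : ℕ) : ℤ) * p [ZMOD q] from h1.symm)
      rw [sub_mul]; exact h3
    have h4 : (q : ℤ) ∣ (((i + 1 : ℕ) : ℤ) - ((j + 1 : ℕ) : ℤ)) :=
      hcop.symm.dvd_of_dvd_mul_right h2
    obtain ⟨e, he⟩ := h4
    have b1 : (((i + 1 : ℕ) : ℤ) - ((j + 1 : ℕ) : ℤ)) < q := by push_cast; omega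
    have b2 : -(q : ℤ) < (((i + 1 : ℕ) : ℤ) - ((j + 1 : ℕ) : ℤ)) := by push_cast; omega
    rw [he] at b1 b2
    have e1 : e < 1 := by nlinarith
    have e2 : -1 < e := by nlinarith
    have e3 : e = 0 := by omega
    rw [e3, mul_zero] at he
    push_cast at he
    omega
  have htt : ∀ i, tt p q (i + 1) = |Real.sin (Real.pi * ((f i : ℝ) / q))| := by
    intro i
    unfold tt
    have h1 := Int.emod_add_mul_ediv (((i + 1 : ℕ) : ℤ) * p) q
    rw [← hfc] at h1
    have h2 : (((i + 1 : ℕ) : ℝ)) * p = f i + q * ((((i + 1 : ℕ) : ℤ) * p / q : ℤ) : ℝ) := by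
      exact_mod_cast h1.symm
    have h3 : Real.pi * (((i + 1 : ℕ) : ℝ) * ((p : ℝ) / q)) =
        Real.pi * ((f i : ℝ) / q) + ((((i + 1 : ℕ) : ℤ) * p / q : ℤ) : ℝ) * Real.pi := by
      have : ((i + 1 : ℕ) : ℝ) * ((p : ℝ) / q) = ((f i : ℝ) / q) + ((((i + 1 : ℕ) : ℤ) * p / q : ℤ) : ℝ) := by
        rw [← mul_div_assoc, h2]; field_simp
      rw [this]; ring
    rw [h3, Real.sin_add_int_mul_pi, abs_mul, abs_zpow, abs_neg, abs_one, one_zpow, one_mul]
  constructor
  · have hharm : ∀ m : ℕ, ∑ r ∈ Icc 1 m, (1 : ℝ) / r = ((harmonic m : ℚ) : ℝ) := by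
      intro m
      rw [harmonic_eq_sum_Icc]; push_cast; simp
    calc ∑ i ∈ range (q - 1), 1 / tt p q (i + 1)
        ≤ ∑ i ∈ range (q - 1), (q : ℝ) / 2 * (1 / (f i : ℝ) + 1 / (q - f i)) := by
          refine sum_le_sum fun i hi => ?_
          rw [htt]
          exact inv_sin_le (hpos i hi) (hflt i)
      _ = ∑ r ∈ (range (q - 1)).image f, (q : ℝ) / 2 * (1 / (r : ℝ) + 1 / (q - r)) := by
          rw [sum_image hinj]
      _ ≤ ∑ r ∈ Icc 1 (q - 1), (q : ℝ) / 2 * (1 / (r : ℝ) + 1 / (q - r)) := by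
          refine sum_le_sum_of_subset_of_nonneg ?_ ?_
          · intro r hr
            obtain ⟨i, hi, rfl⟩ := mem_image.1 hr
            exact mem_Icc.2 ⟨hpos i hi, by have := hflt i; omega⟩
          · intro r hr _
            rw [mem_Icc] at hr
            have h1 : (0 : ℝ) < r := by exact_mod_cast hr.1
            have h2 : (r : ℝ) < q := by exact_mod_cast (by omega : r < q)
            have h3 : (0 : ℝ) < q - r := by linarith
            positivity
      _ = (q : ℝ) / 2 * (∑ r ∈ Icc 1 (q - 1), 1 / (r : ℝ) + ∑ r ∈ Icc 1 (q - 1), 1 / ((q : ℝ) - r)) := by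
          rw [← mul_sum, sum_add_distrib]
      _ = (q : ℝ) * ((harmonic (q - 1) : ℚ) : ℝ) := by
          have hrefl : ∑ r ∈ Icc 1 (q - 1), 1 / ((q : ℝ) - r) = ∑ r ∈ Icc 1 (q - 1), 1 / (r : ℝ) := by
            refine sum_nbij' (fun r => q - r) (fun r => q - r) ?_ ?_ ?_ ?_ ?_
            · intro r hr; rw [mem_Icc] at hr ⊢; omega
            · intro r hr; rw [mem_Icc] at hr ⊢; omega
            · intro r hr; rw [mem_Icc] at hr; omega
            · intro r hr; rw [mem_Icc] at hr; omega
            · intro r hr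
              rw [mem_Icc] at hr
              rw [Nat.cast_sub (by omega)]
          rw [hrefl, hharm]; ring
      _ ≤ (q : ℝ) * (1 + Real.log q) := by
          refine mul_le_mul_of_nonneg_left ?_ hqr.le
          refine (harmonic_le_one_add_log (q - 1)).trans ?_
          have : Real.log ((q - 1 : ℕ) : ℝ) ≤ Real.log q := by
            apply Real.log_le_log
            · exact_mod_cast (by omega : 0 < q - 1)
            · exact_mod_cast (by omega : q - 1 ≤ q)
          linarith
  · intro i hi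
    rw [htt]
    have h1 := inv_sin_le (hpos i hi) (hflt i)
    have hr1 : (1 : ℝ) ≤ f i := by exact_mod_cast hpos i hi
    have hr2 : (f i : ℝ) + 1 ≤ q := by exact_mod_cast hflt i
    have hpi := Real.pi_pos
    have hy0 : 0 < (f i : ℝ) / q := by positivity
    have hy1 : (f i : ℝ) / q < 1 := by rw [div_lt_one hqr]; linarith
    have hsin : 0 ≤ Real.sin (Real.pi * ((f i : ℝ) / q)) :=
      Real.sin_nonneg_of_nonneg_of_le_pi (by positivity) (by nlinarith)
    rw [abs_of_nonneg hsin]
    rcases le_total ((f i : ℝ) / q) (1 / 2) with h | h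
    · have h4 := Real.mul_le_sin (x := Real.pi * ((f i : ℝ) / q)) (by positivity) (by nlinarith)
      have h5 : 2 / Real.pi * (Real.pi * ((f i : ℝ) / q)) = 2 * f i / q := by field_simp
      rw [h5] at h4
      refine le_trans ?_ h4
      apply div_le_div_of_nonneg_right _ hqr.le
      linarith
    · have h4 := Real.mul_le_sin (x := Real.pi * (1 - (f i : ℝ) / q)) (by nlinarith) (by nlinarith)
      have h5 : 2 / Real.pi * (Real.pi * (1 - (f i : ℝ) / q)) = 2 * (q - f i) / q := by field_simp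
      have h6 : Real.sin (Real.pi * (1 - (f i : ℝ) / q)) = Real.sin (Real.pi * ((f i : ℝ) / q)) := by
        have : Real.pi * (1 - (f i : ℝ) / q) = Real.pi - Real.pi * ((f i : ℝ) / q) := by ring
        rw [this, Real.sin_pi_sub]
      rw [h5, h6] at h4
      refine le_trans ?_ h4
      apply div_le_div_of_nonneg_right _ hqr.le
      linarith

theorem pieceA (β θ : ℝ) (p : ℤ) (q : ℕ) (hq : 2 ≤ q) (hcop : IsCoprime p (q : ℤ))
    (hβ : (q : ℝ) * β = p + θ) (hθ : 0 < θ)
    (hsmall : 100 * θ * q * (1 + Real.log q) ≤ 1) :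
    (∀ j : ℕ, 1 ≤ j → j ≤ q → sn β j ≠ 0) ∧
    Cb β q ≤ 2 + 100 * θ * q * (1 + Real.log q) ∧
    (q : ℝ) / 2 ≤ ∏ i ∈ range (q - 1), |2 * sn β (i + 1)| := by
  have hpi := Real.pi_pos
  have hpi4 := Real.pi_lt_d2
  have hq2 : (2 : ℝ) ≤ q := by exact_mod_cast hq
  have hqr : (0 : ℝ) < q := by linarith
  have hlog : 0 ≤ Real.log q := Real.log_nonneg (by linarith)
  obtain ⟨hT, htlow⟩ := sum_inv_tt p q hq hcop
  set A := θ * q * (1 + Real.log q) with hA
  have hA0 : 0 < A := by positivity
  have hA1 : 100 * A ≤ 1 := by rw [hA]; linarith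
  have hθq : 100 * (θ * q) ≤ 1 := by
    have : θ * q ≤ A := by
      rw [hA]; nlinarith [mul_pos hθ hqr]
    linarith
  have hθ1 : 100 * θ ≤ 1 := by nlinarith
  have htpos : ∀ i ∈ range (q - 1), 0 < tt p q (i + 1) := fun i hi =>
    lt_of_lt_of_le (by positivity) (htlow i hi)
  -- comparison of `sn` and `tt`
  have hcmp : ∀ i ∈ range (q - 1), tt p q (i + 1) - Real.pi * θ ≤ |sn β ((i : ℝ) + 1)| := by
    intro i hi
    rw [mem_range] at hi
    have h1 := Real.abs_sin_sub_sin_le (Real.pi * β * ((i : ℝ) + 1))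
      (Real.pi * (((i + 1 : ℕ) : ℝ) * ((p : ℝ) / q)))
    have h2 : Real.pi * β * ((i : ℝ) + 1) - Real.pi * (((i + 1 : ℕ) : ℝ) * ((p : ℝ) / q)) =
        Real.pi * θ * (((i : ℝ) + 1) / q) := by
      have : β = (p + θ) / q := by rw [← hβ]; field_simp
      rw [this]; push_cast; field_simp; ring
    rw [h2, abs_of_pos (show 0 < Real.pi * θ * (((i : ℝ) + 1) / q) by positivity)] at h1
    have h3 : ((i : ℝ) + 1) / q ≤ 1 := by
      rw [div_le_one hqr]; exact_mod_cast (by omega : i + 1 ≤ q)
    have h4 : Real.pi * θ * (((i : ℝ) + 1) / q) ≤ Real.pi * θ := by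
      have : 0 < Real.pi * θ := by positivity
      nlinarith
    have h5 := abs_sub_abs_le_abs_sub (Real.sin (Real.pi * (((i + 1 : ℕ) : ℝ) * ((p : ℝ) / q))))
      (Real.sin (Real.pi * β * ((i : ℝ) + 1)))
    rw [abs_sub_comm] at h5
    show |Real.sin (Real.pi * (((i + 1 : ℕ) : ℝ) * ((p : ℝ) / q)))| - Real.pi * θ ≤
      |Real.sin (Real.pi * β * ((i : ℝ) + 1))|
    linarith
  have hx : ∀ i ∈ range (q - 1), Real.pi * θ / tt p q (i + 1) ≤ 1 / 2 := by
    intro i hi
    rw [div_le_iff₀ (htpos i hi)]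
    have h1 := htlow i hi
    have h2 : 2 / (q : ℝ) * q = 2 := by field_simp
    have h3 : Real.pi * θ ≤ 1 / q := by
      rw [le_div_iff₀ hqr]
      nlinarith
    have h4 : 2 / (q : ℝ) = 2 * (1 / q) := by ring
    linarith
  have hhalf : ∀ i ∈ range (q - 1), tt p q (i + 1) / 2 ≤ |sn β ((i : ℝ) + 1)| := by
    intro i hi
    have h1 := hcmp i hi
    have h2 := hx i hi
    rw [div_le_iff₀ (htpos i hi)] at h2
    linarith
  have hsnpos : ∀ i ∈ range (q - 1), 0 < |sn β ((i : ℝ) + 1)| := fun i hi =>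
    lt_of_lt_of_le (by have := htpos i hi; positivity) (hhalf i hi)
  have hinv : ∀ i ∈ range (q - 1), 1 / |sn β ((i : ℝ) + 1)| ≤ 2 * (1 / tt p q (i + 1)) := by
    intro i hi
    have h1 := htpos i hi
    calc 1 / |sn β ((i : ℝ) + 1)| ≤ 1 / (tt p q (i + 1) / 2) :=
          one_div_le_one_div_of_le (by positivity) (hhalf i hi)
      _ = _ := by field_simp
  have hsnq : sn β (q : ℝ) = (-1) ^ p * Real.sin (Real.pi * θ) := by
    unfold sn
    have : Real.pi * β * q = Real.pi * θ + (p : ℝ) * Real.pi := by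
      have : Real.pi * β * q = Real.pi * (q * β) := by ring
      rw [this, hβ]; ring
    rw [this, Real.sin_add_int_mul_pi]
  have habs1 : ∀ n : ℤ, |((-1 : ℝ)) ^ n| = 1 := by
    intro n; rw [abs_zpow, abs_neg, abs_one, one_zpow]
  have hsnq_le : |sn β (q : ℝ)| ≤ Real.pi * θ := by
    rw [hsnq, abs_mul, habs1, one_mul, abs_of_nonneg
      (Real.sin_nonneg_of_nonneg_of_le_pi (by positivity) (by nlinarith))]
    exact Real.sin_le (by positivity)
  have hsnq_pos : 0 < |sn β (q : ℝ)| := by
    rw [hsnq, abs_mul, habs1, one_mul]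
    have : 0 < Real.sin (Real.pi * θ) := Real.sin_pos_of_pos_of_lt_pi (by positivity) (by nlinarith)
    exact abs_pos.2 this.ne'
  refine ⟨?_, ?_, ?_⟩
  · intro j hj1 hjq
    rcases Nat.lt_or_ge j q with h | h
    · have h1 := hsnpos (j - 1) (mem_range.2 (by omega))
      have h2 : (((j - 1 : ℕ) : ℝ) + 1) = j := by
        rw [Nat.cast_sub hj1]; push_cast; ring
      rw [h2] at h1
      exact abs_pos.1 h1
    · have : j = q := by omega
      rw [this]
      exact abs_pos.1 hsnq_pos
  · -- the sum of the binomials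
    have hrefl : ∀ i ∈ range (q - 1), |sn β ((q : ℝ) - ((i : ℝ) + 1))| ≤
        |sn β ((i : ℝ) + 1)| + Real.pi * θ := by
      intro i hi
      unfold sn
      have h1 : Real.pi * β * ((q : ℝ) - ((i : ℝ) + 1)) =
          (Real.pi * θ - Real.pi * β * ((i : ℝ) + 1)) + (p : ℝ) * Real.pi := by
        have : Real.pi * β * ((q : ℝ) - ((i : ℝ) + 1)) = Real.pi * (q * β) - Real.pi * β * ((i : ℝ) + 1) := by
          ring
        rw [this, hβ]; ring
      rw [h1, Real.sin_add_int_mul_pi, abs_mul, habs1, one_mul]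
      have h2 := Real.abs_sin_sub_sin_le (Real.pi * θ - Real.pi * β * ((i : ℝ) + 1))
        (-(Real.pi * β * ((i : ℝ) + 1)))
      rw [Real.sin_neg] at h2
      have h3 : Real.pi * θ - Real.pi * β * ((i : ℝ) + 1) - -(Real.pi * β * ((i : ℝ) + 1)) =
          Real.pi * θ := by ring
      rw [h3, abs_of_pos (show 0 < Real.pi * θ by positivity)] at h2
      have h4 := abs_sub_abs_le_abs_sub (Real.sin (Real.pi * θ - Real.pi * β * ((i : ℝ) + 1)))
        (-Real.sin (Real.pi * β * ((i : ℝ) + 1)))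
      rw [abs_neg] at h4
      linarith
    have hprodm : ∀ m ≤ q - 1, ∏ j ∈ range m, (|sn β ((q : ℝ) - ((j : ℝ) + 1))| /
        |sn β ((j : ℝ) + 1)|) ≤ Real.exp (2 * Real.pi * A) := by
      intro m hm
      have hsub : ∀ j ∈ range m, j ∈ range (q - 1) := fun j hj => by
        rw [mem_range] at hj ⊢; omega
      calc ∏ j ∈ range m, (|sn β ((q : ℝ) - ((j : ℝ) + 1))| / |sn β ((j : ℝ) + 1)|)
          ≤ ∏ j ∈ range m, Real.exp (Real.pi * θ * (2 * (1 / tt p q (j + 1)))) := by
            refine prod_le_prod (fun j _ => by positivity) fun j hj => ?_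
            have h1 := hsnpos j (hsub j hj)
            have h2 := hrefl j (hsub j hj)
            have h3 := hinv j (hsub j hj)
            have h4 : |sn β ((q : ℝ) - ((j : ℝ) + 1))| / |sn β ((j : ℝ) + 1)| ≤
                1 + Real.pi * θ * (1 / |sn β ((j : ℝ) + 1)|) := by
              rw [div_le_iff₀ h1]
              have : (1 + Real.pi * θ * (1 / |sn β ((j : ℝ) + 1)|)) * |sn β ((j : ℝ) + 1)| =
                |sn β ((j : ℝ) + 1)| + Real.pi * θ := by field_simp
              rw [this]; exact h2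
            have h5 : Real.pi * θ * (1 / |sn β ((j : ℝ) + 1)|) ≤
                Real.pi * θ * (2 * (1 / tt p q (j + 1))) :=
              mul_le_mul_of_nonneg_left h3 (by positivity)
            have h6 := Real.add_one_le_exp (Real.pi * θ * (2 * (1 / tt p q (j + 1))))
            linarith
        _ = Real.exp (∑ j ∈ range m, Real.pi * θ * (2 * (1 / tt p q (j + 1)))) := by
            rw [Real.exp_sum]
        _ ≤ Real.exp (2 * Real.pi * A) := by
            apply Real.exp_le_exp.2
            have h1 : ∑ j ∈ range m, Real.pi * θ * (2 * (1 / tt p q (j + 1))) ≤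
                ∑ j ∈ range (q - 1), Real.pi * θ * (2 * (1 / tt p q (j + 1))) := by
              refine sum_le_sum_of_subset_of_nonneg (fun j hj => hsub j hj) fun j hj _ => ?_
              have := htpos j hj
              positivity
            refine h1.trans ?_
            rw [← mul_sum, ← mul_sum]
            have : Real.pi * θ * (2 * ∑ i ∈ range (q - 1), 1 / tt p q (i + 1)) ≤
                Real.pi * θ * (2 * (q * (1 + Real.log q))) :=
              mul_le_mul_of_nonneg_left (mul_le_mul_of_nonneg_left hT (by norm_num)) (by positivity)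
            refine this.trans (le_of_eq ?_)
            rw [hA]; ring
    have hE : Real.exp (2 * Real.pi * A) ≤ 1 + 2 * (2 * Real.pi * A) := by
      have h1 : 2 * Real.pi * A ≤ 1 := by nlinarith
      have h2 : 0 ≤ 2 * Real.pi * A := by positivity
      have := Real.exp_bound' h2 h1 (n := 2) (by norm_num)
      norm_num [Finset.sum_range_succ, Nat.factorial] at this
      nlinarith
    set E := Real.exp (2 * Real.pi * A) with hEdef
    have hE0 : 0 < E := Real.exp_pos _
    have hbb : ∀ m, |bb β q (m + 1)| = |sn β (q : ℝ)| / |sn β ((m : ℝ) + 1)| *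
        ∏ j ∈ range m, (|sn β ((q : ℝ) - ((j : ℝ) + 1))| / |sn β ((j : ℝ) + 1)|) := by
      intro m
      unfold bb
      rw [abs_prod]
      simp only [abs_div]
      rw [prod_div_distrib, prod_div_distrib, prod_range_succ', prod_range_succ]
      push_cast
      rw [sub_zero]
      ring
    have hCb : Cb β q = |bb β q 0| + (∑ m ∈ range (q - 1), |bb β q (m + 1)| + |bb β q q|) := by
      unfold Cb
      rw [sum_range_succ']
      have : q = (q - 1) + 1 := by omega
      conv_lhs => rw [this]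
      rw [sum_range_succ, ← this]
      ring
    have hmid : ∑ m ∈ range (q - 1), |bb β q (m + 1)| ≤ 2 * Real.pi * E * A := by
      calc ∑ m ∈ range (q - 1), |bb β q (m + 1)|
          ≤ ∑ m ∈ range (q - 1), (Real.pi * θ * (2 * (1 / tt p q (m + 1)))) * E := by
            refine sum_le_sum fun m hm => ?_
            rw [hbb]
            have h1 := hprodm m (by rw [mem_range] at hm; omega)
            have h2 := hinv m hm
            have h3 : |sn β (q : ℝ)| / |sn β ((m : ℝ) + 1)| ≤ Real.pi * θ * (2 * (1 / tt p q (m + 1))) := by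
              rw [div_eq_mul_one_div]
              exact mul_le_mul hsnq_le h2 (by positivity) (by positivity)
            have h4 := htpos m hm
            exact mul_le_mul h3 h1 (prod_nonneg fun _ _ => by positivity) (by positivity)
        _ = (2 * Real.pi * θ * E) * ∑ m ∈ range (q - 1), 1 / tt p q (m + 1) := by
            rw [mul_sum]; refine sum_congr rfl fun m _ => ?_; ring
        _ ≤ (2 * Real.pi * θ * E) * (q * (1 + Real.log q)) :=
            mul_le_mul_of_nonneg_left hT (by positivity)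
        _ = _ := by rw [hA]; ring
    have hlast : |bb β q q| ≤ E := by
      have h1 := hbb (q - 1)
      have h2 : q - 1 + 1 = q := by omega
      have h3 : (((q - 1 : ℕ) : ℝ) + 1) = q := by
        rw [Nat.cast_sub (by omega)]; push_cast; ring
      rw [h2, h3, div_self hsnq_pos.ne', one_mul] at h1
      rw [h1]
      exact hprodm (q - 1) le_rfl
    rw [hCb, bb_zero, abs_one]
    have hfin : 100 * θ * q * (1 + Real.log q) = 100 * A := by rw [hA]; ring
    rw [hfin]
    have hE2 : E ≤ 2 := by nlinarith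
    nlinarith [mul_pos hpi hA0]
  · -- the product
    calc (q : ℝ) / 2 ≤ q * (1 - Real.pi * A) := by
          have : Real.pi * A ≤ 1 / 2 := by nlinarith
          nlinarith
      _ ≤ q * (1 - ∑ i ∈ range (q - 1), Real.pi * θ / tt p q (i + 1)) := by
          refine mul_le_mul_of_nonneg_left ?_ hqr.le
          have : ∑ i ∈ range (q - 1), Real.pi * θ / tt p q (i + 1) ≤ Real.pi * A := by
            calc ∑ i ∈ range (q - 1), Real.pi * θ / tt p q (i + 1)
                = Real.pi * θ * ∑ i ∈ range (q - 1), 1 / tt p q (i + 1) := by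
                  rw [mul_sum]; refine sum_congr rfl fun m _ => ?_; ring
              _ ≤ Real.pi * θ * (q * (1 + Real.log q)) :=
                  mul_le_mul_of_nonneg_left hT (by positivity)
              _ = _ := by rw [hA]; ring
          linarith
      _ ≤ q * ∏ i ∈ range (q - 1), (1 - Real.pi * θ / tt p q (i + 1)) := by
          refine mul_le_mul_of_nonneg_left ?_ hqr.le
          refine one_sub_sum_le _ _ (fun i hi => ?_) fun i hi => ?_
          · have := htpos i hi; positivity
          · have := hx i hi; linarith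
      _ = ∏ i ∈ range (q - 1), (2 * tt p q (i + 1)) * (1 - Real.pi * θ / tt p q (i + 1)) := by
          rw [prod_mul_distrib, prod_tt p q (by omega) hcop]
      _ ≤ ∏ i ∈ range (q - 1), |2 * sn β (i + 1)| := by
          refine prod_le_prod (fun i hi => ?_) fun i hi => ?_
          · have h1 := htpos i hi
            have h2 := hx i hi
            have : 0 ≤ 1 - Real.pi * θ / tt p q (i + 1) := by linarith
            positivity
          · have h1 := htpos i hi
            have h2 := hcmp i hi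
            rw [abs_mul, abs_of_pos (by norm_num : (0 : ℝ) < 2)]
            have h3 : (2 * tt p q (i + 1)) * (1 - Real.pi * θ / tt p q (i + 1)) =
                2 * (tt p q (i + 1) - Real.pi * θ) := by field_simp
            rw [h3]
            linarith

end Run7.h364.AMO
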