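import Pool.Agent.Run7.h608.Basic

set_option autoImplicit false

namespace Run7.h364.AMO

open Finset Filter Topology

/-- Sylvester's sequence `2, 3, 7, 43, …` -/
def syl : ℕ → ℕ
  | 0 => 2
  | (n + 1) => 1 + ∏ i ∈ (range (n + 1)).attach, syl i.1
decreasing_by exact Nat.lt_succ_of_le (Nat.le_of_lt_succ (mem_range.mp i.2))

noncomputable def cahen : ℝ := ∑' j : ℕ, (-1 : ℝ) ^ j / ((syl j : ℝ) - 1)

/-- denominators of the convergents -/
def Qc : ℕ → ℕ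
  | 0 => 1
  | 1 => 2
  | (n + 2) => Qc n ^ 2 * Qc (n + 1) + Qc n

/-- numerators of the convergents -/
def Pc : ℕ → ℤ
  | 0 => 1
  | 1 => 1
  | (n + 2) => (Qc n : ℤ) ^ 2 * Pc (n + 1) + Pc n

theorem syl_succ (n : ℕ) : syl (n + 1) = 1 + ∏ i ∈ range (n + 1), syl i := by
  rw [syl, Finset.prod_attach (range (n + 1)) syl]

theorem Qc_pos (n : ℕ) : 0 < Qc n ∧ 0 < Qc (n + 1) := by
  induction n with
  | zero => simp [Qc]
  | succ n ih =>
    refine ⟨ih.2, ?_⟩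
    rw [Qc]
    have := ih.1
    positivity

theorem Qc_succ2 (n : ℕ) : Qc (n + 2) = Qc n ^ 2 * Qc (n + 1) + Qc n := by rw [Qc]

theorem Pc_succ2 (n : ℕ) : Pc (n + 2) = (Qc n : ℤ) ^ 2 * Pc (n + 1) + Pc n := by rw [Pc]

theorem prod_syl (n : ℕ) : ∏ i ∈ range (n + 1), syl i = Qc n * Qc (n + 1) := by
  induction n with
  | zero => simp [syl, Qc]
  | succ n ih =>
    rw [prod_range_succ, ih, syl_succ, ih, Qc_succ2]
    ring

theorem syl_sub (n : ℕ) : (syl (n + 1) : ℝ) - 1 = Qc n * Qc (n + 1) := by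
  rw [syl_succ, prod_syl]; push_cast; ring

theorem det_PQ (n : ℕ) : Pc (n + 1) * Qc n - Pc n * Qc (n + 1) = (-1) ^ (n + 1) := by
  induction n with
  | zero => simp [Pc, Qc]
  | succ n ih =>
    rw [Pc_succ2, Qc_succ2]
    push_cast
    have : ((-1 : ℤ)) ^ (n + 1 + 1) = -((-1) ^ (n + 1)) := by ring
    rw [this, ← ih]
    ring

theorem Qc_le (n : ℕ) : Qc n ≤ Qc (n + 2) := by
  rw [Qc_succ2]; exact Nat.le_add_left _ _

theorem ratio_up : ∀ n : ℕ, Qc (n + 1) ≤ 2 * Qc n ^ 2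
  | 0 => by simp [Qc]
  | 1 => by simp [Qc]
  | (n + 2) => by
    have ih := ratio_up n
    have h1 := Qc_succ2 n
    have h2 := Qc_succ2 (n + 1)
    have h3 := Qc_le n
    have e1 : Qc (n + 2 + 1) = Qc (n + 1) * (Qc (n + 1) * Qc (n + 2) + 1) := by
      rw [show n + 2 + 1 = (n + 1) + 2 from rfl, h2]; ring
    have e2 : 2 * Qc (n + 2) ^ 2 = 2 * Qc n ^ 2 * (Qc (n + 1) * Qc (n + 2)) + 2 * Qc n * Qc (n + 2) := by
      have : 2 * Qc (n + 2) ^ 2 = 2 * Qc (n + 2) * Qc (n + 2) := by ring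
      rw [this]
      nth_rewrite 2 [h1]
      ring
    rw [e1, e2]
    calc Qc (n + 1) * (Qc (n + 1) * Qc (n + 2) + 1)
        ≤ 2 * Qc n ^ 2 * (Qc (n + 1) * Qc (n + 2) + 1) := Nat.mul_le_mul_right _ ih
      _ = 2 * Qc n ^ 2 * (Qc (n + 1) * Qc (n + 2)) + 2 * Qc n * Qc n := by ring
      _ ≤ _ := Nat.add_le_add_left (Nat.mul_le_mul_left _ h3) _

theorem ratio_low (n : ℕ) : Qc n ^ 2 ≤ 2 * Qc (n + 1) := by
  cases n with
  | zero => simp [Qc]
  | succ n =>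
    have h := ratio_up n
    rw [Qc_succ2]
    calc Qc (n + 1) ^ 2 = Qc (n + 1) * Qc (n + 1) := by ring
      _ ≤ 2 * Qc n ^ 2 * Qc (n + 1) := Nat.mul_le_mul_right _ h
      _ ≤ 2 * (Qc n ^ 2 * Qc (n + 1) + Qc n) := by nlinarith

/-- the terms of the series -/
noncomputable def at' (j : ℕ) : ℝ := 1 / ((syl j : ℝ) - 1)

theorem at_zero : at' 0 = 1 := by simp [at', syl]; norm_num

theorem at_succ (j : ℕ) : at' (j + 1) = 1 / (Qc j * Qc (j + 1)) := by rw [at', syl_sub]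

theorem at_pos (j : ℕ) : 0 < at' j := by
  cases j with
  | zero => rw [at_zero]; exact one_pos
  | succ j =>
    rw [at_succ]
    have h := Qc_pos j
    have h1 : (0 : ℝ) < Qc j := by exact_mod_cast h.1
    have h2 : (0 : ℝ) < Qc (j + 1) := by exact_mod_cast h.2
    positivity

theorem at_half (j : ℕ) : at' (j + 1) ≤ at' j / 2 := by
  cases j with
  | zero => rw [at_succ, at_zero]; simp [Qc]
  | succ j =>
    rw [at_succ, at_succ]
    have h := Qc_pos j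
    have h1 : (1 : ℝ) ≤ Qc j := by exact_mod_cast h.1
    have h2 : (1 : ℝ) ≤ Qc (j + 1) := by exact_mod_cast h.2
    rw [div_div]
    apply one_div_le_one_div_of_le (by positivity)
    rw [Qc_succ2]
    push_cast
    have h3 : (1 : ℝ) ≤ Qc j * Qc (j + 1) := by nlinarith
    nlinarith [mul_le_mul_of_nonneg_left h3 (by positivity : (0 : ℝ) ≤ Qc j * Qc (j + 1))]

theorem at_anti : Antitone at' := by
  apply antitone_nat_of_succ_le
  intro n
  have h1 := at_half n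
  have h2 := at_pos n
  linarith

theorem at_le (j : ℕ) : at' j ≤ (1 / 2) ^ j := by
  induction j with
  | zero => rw [at_zero]; simp
  | succ j ih =>
    have := at_half j
    rw [pow_succ]
    linarith

theorem has_sum : HasSum (fun j : ℕ => (-1 : ℝ) ^ j * at' j) cahen := by
  have h1 : Summable (fun j : ℕ => (-1 : ℝ) ^ j * at' j) := by
    refine Summable.of_norm_bounded (summable_geometric_of_lt_one (by norm_num) (by norm_num : (1 / 2 : ℝ) < 1)) ?_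
    intro j
    rw [norm_mul, norm_pow, norm_neg, norm_one, one_pow, one_mul, Real.norm_of_nonneg (at_pos j).le]
    exact at_le j
  have h2 : cahen = ∑' j : ℕ, (-1 : ℝ) ^ j * at' j := by
    unfold cahen at'
    refine tsum_congr fun j => ?_
    rw [mul_one_div]
  rw [h2]
  exact h1.hasSum

/-- partial sums -/
noncomputable def Sm (n : ℕ) : ℝ := ∑ j ∈ range n, (-1 : ℝ) ^ j * at' j

theorem Sm_succ (n : ℕ) : Sm (n + 1) = Sm n + (-1 : ℝ) ^ n * at' n := by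
  unfold Sm; rw [sum_range_succ]

theorem Sm_eq (n : ℕ) : (Qc n : ℝ) * Sm (n + 1) = Pc n := by
  induction n with
  | zero => simp [Sm, at_zero, Qc, Pc]
  | succ n ih =>
    rw [Sm_succ, at_succ]
    have h := Qc_pos n
    have h1 : (0 : ℝ) < Qc n := by exact_mod_cast h.1
    have h2 : (0 : ℝ) < Qc (n + 1) := by exact_mod_cast h.2
    have h3 : ((Pc (n + 1) : ℤ) : ℝ) * Qc n - Pc n * Qc (n + 1) = (-1) ^ (n + 1) := by
      exact_mod_cast det_PQ n
    have h4 : (Qc n : ℝ) * ((Qc (n + 1) : ℝ) * (Sm (n + 1) + (-1) ^ (n + 1) * (1 / (Qc n * Qc (n + 1))))) =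
        Qc n * Pc (n + 1) := by
      have : (Qc n : ℝ) * ((Qc (n + 1) : ℝ) * (Sm (n + 1) + (-1) ^ (n + 1) * (1 / (Qc n * Qc (n + 1)))))
          = Qc (n + 1) * (Qc n * Sm (n + 1)) + (-1) ^ (n + 1) := by
        field_simp
      rw [this, ih, ← h3]; ring
    exact mul_left_cancel₀ h1.ne' h4

theorem bounds (N : ℕ) : at' N - at' (N + 1) ≤ (-1 : ℝ) ^ N * (cahen - Sm N) ∧
    (-1 : ℝ) ^ N * (cahen - Sm N) ≤ at' N := by
  have ht : Tendsto (fun n => ∑ i ∈ range n, (-1 : ℝ) ^ i * at' i) atTop (𝓝 cahen) :=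
    has_sum.tendsto_sum_nat
  have hlow : ∀ k, Sm (2 * k) ≤ cahen := fun k =>
    at_anti.alternating_series_le_tendsto ht k
  have hup : ∀ k, cahen ≤ Sm (2 * k + 1) := fun k =>
    at_anti.tendsto_le_alternating_series ht k
  rcases Nat.even_or_odd' N with ⟨k, rfl | rfl⟩
  · have e1 : (-1 : ℝ) ^ (2 * k) = 1 := by rw [pow_mul]; simp
    have e2 : (-1 : ℝ) ^ (2 * k + 1) = -1 := by rw [pow_succ, e1]; ring
    rw [e1, one_mul]
    have a1 := Sm_succ (2 * k)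
    have a2 := Sm_succ (2 * k + 1)
    rw [e1] at a1
    rw [e2] at a2
    have b1 := hlow (k + 1)
    have b2 := hup k
    rw [show 2 * (k + 1) = 2 * k + 1 + 1 by ring] at b1
    constructor <;> linarith
  · have e1 : (-1 : ℝ) ^ (2 * k) = 1 := by rw [pow_mul]; simp
    have e2 : (-1 : ℝ) ^ (2 * k + 1) = -1 := by rw [pow_succ, e1]; ring
    have e3 : (-1 : ℝ) ^ (2 * k + 1 + 1) = 1 := by rw [pow_succ, e2]; ring
    rw [e2]
    have a1 := Sm_succ (2 * k + 1)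
    have a2 := Sm_succ (2 * k + 1 + 1)
    rw [e2] at a1
    rw [e3] at a2
    have b1 := hlow (k + 1)
    have b2 := hup (k + 1)
    rw [show 2 * (k + 1) = 2 * k + 1 + 1 by ring] at b1
    rw [show 2 * (k + 1) + 1 = 2 * k + 1 + 1 + 1 by ring] at b2
    constructor <;> linarith

theorem pieceF : ∃ Pc : ℕ → ℤ, (∀ n, IsCoprime (Pc n) (Qc n : ℤ)) ∧
    (∀ n, (0 : ℝ) < (-1) ^ (n + 1) * (Qc n * cahen - Pc n)) ∧
    (∀ n, |(Qc n : ℝ) * cahen - Pc n| ≤ 1 / Qc (n + 1)) ∧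
    (∀ n, 1 / (2 * (Qc (n + 1) : ℝ)) ≤ |(Qc n : ℝ) * cahen - Pc n|) ∧
    (∀ n, (Qc (n + 1) : ℝ) ≤ 2 * Qc n ^ 2) ∧ (∀ n, (Qc n : ℝ) ^ 2 ≤ 2 * Qc (n + 1)) := by
  have key : ∀ n, 1 / (2 * (Qc (n + 1) : ℝ)) ≤ (-1) ^ (n + 1) * ((Qc n : ℝ) * cahen - Pc n) ∧
      (-1) ^ (n + 1) * ((Qc n : ℝ) * cahen - Pc n) ≤ 1 / Qc (n + 1) := by
    intro n
    have h := Qc_pos n
    have h' := Qc_pos (n + 1)
    have h1 : (1 : ℝ) ≤ Qc n := by exact_mod_cast h.1
    have h2 : (1 : ℝ) ≤ Qc (n + 1) := by exact_mod_cast h.2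
    have h3 : (0 : ℝ) < Qc (n + 2) := by exact_mod_cast h'.2
    have hb := bounds (n + 1)
    have e : (-1 : ℝ) ^ (n + 1) * ((Qc n : ℝ) * cahen - Pc n) =
        Qc n * ((-1) ^ (n + 1) * (cahen - Sm (n + 1))) := by
      rw [← Sm_eq]; ring
    rw [e]
    have a1 : (Qc n : ℝ) * at' (n + 1) = 1 / Qc (n + 1) := by rw [at_succ]; field_simp
    have a2 : (Qc n : ℝ) * at' (n + 2) ≤ 1 / (2 * Qc (n + 1)) := by
      rw [at_succ, mul_one_div, div_le_div_iff₀ (by positivity) (by positivity)]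
      have : (Qc (n + 2) : ℝ) = Qc n ^ 2 * Qc (n + 1) + Qc n := by
        rw [Qc_succ2]; push_cast; ring
      rw [show n + 1 + 1 = n + 2 from rfl, this]
      have h4 : (1 : ℝ) ≤ Qc n * Qc (n + 1) := by nlinarith
      have h5 : 2 * (Qc n : ℝ) ≤ Qc n ^ 2 * Qc (n + 1) + Qc n := by nlinarith
      nlinarith
    constructor
    · have := mul_le_mul_of_nonneg_left hb.1 (by positivity : (0 : ℝ) ≤ Qc n)
      have e2 : (1 : ℝ) / Qc (n + 1) - 1 / (2 * Qc (n + 1)) = 1 / (2 * Qc (n + 1)) := by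
        field_simp; norm_num
      rw [mul_sub, a1] at this
      linarith
    · have := mul_le_mul_of_nonneg_left hb.2 (by positivity : (0 : ℝ) ≤ Qc n)
      rwa [a1] at this
  have hpos : ∀ n, 0 < (-1 : ℝ) ^ (n + 1) * ((Qc n : ℝ) * cahen - Pc n) := by
    intro n
    have h2 : (0 : ℝ) < Qc (n + 1) := by exact_mod_cast (Qc_pos n).2
    exact lt_of_lt_of_le (by positivity) (key n).1
  have habs : ∀ n, |(Qc n : ℝ) * cahen - Pc n| = (-1 : ℝ) ^ (n + 1) * ((Qc n : ℝ) * cahen - Pc n) := by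
    intro n
    rw [← abs_of_pos (hpos n), abs_mul, abs_pow, abs_neg, abs_one, one_pow, one_mul]
  refine ⟨Pc, ?_, hpos, ?_, ?_, ?_, ?_⟩
  · intro n
    have h := det_PQ n
    have hs : ((-1 : ℤ)) ^ (n + 1) * (-1) ^ (n + 1) = 1 := by
      rw [← mul_pow]; simp
    refine ⟨-((-1) ^ (n + 1) * (Qc (n + 1) : ℤ)), (-1) ^ (n + 1) * Pc (n + 1), ?_⟩
    calc -((-1) ^ (n + 1) * (Qc (n + 1) : ℤ)) * Pc n + (-1) ^ (n + 1) * Pc (n + 1) * (Qc n : ℤ)
        = (-1) ^ (n + 1) * (Pc (n + 1) * Qc n - Pc n * Qc (n + 1)) := by ring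
      _ = 1 := by rw [h, hs]
  · intro n; rw [habs]; exact (key n).2
  · intro n; rw [habs]; exact (key n).1
  · intro n; exact_mod_cast ratio_up n
  · intro n; exact_mod_cast ratio_low n

end Run7.h364.AMO
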