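import Pool.Agent.Run7.h608.Basic

set_option autoImplicit false

namespace Run7.h364.AMO

open Finset Run7.h608

theorem conj_ee (x : ℝ) : (starRingEnd ℂ) (ee x) = ee (-x) := by
  unfold ee
  rw [← Complex.exp_conj]
  congr 1
  rw [map_mul, Complex.conj_ofReal, Complex.conj_I]
  push_cast
  ring

theorem ee_pow (x : ℝ) (n : ℕ) : ee x ^ n = ee (n * x) := by
  unfold ee
  rw [← Complex.exp_nat_mul]
  congr 1
  push_cast
  ring

theorem ee_eq_one {x : ℝ} (h : ee x = 1) : ∃ k : ℤ, x = k := by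
  unfold ee at h
  rw [Complex.exp_eq_one_iff] at h
  obtain ⟨k, hk⟩ := h
  refine ⟨k, ?_⟩
  have h2 : ((2 * Real.pi * x : ℝ) : ℂ) = ((k * (2 * Real.pi) : ℝ) : ℂ) := by
    have h3 : ((2 * Real.pi * x : ℝ) : ℂ) * Complex.I = ((k * (2 * Real.pi) : ℝ) : ℂ) * Complex.I := by
      rw [hk]; push_cast; ring
    exact mul_right_cancel₀ Complex.I_ne_zero h3
  have h4 := Complex.ofReal_injective h2
  have hpi := Real.pi_pos
  have : (2 * Real.pi) * (x - k) = 0 := by linarith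
  rcases mul_eq_zero.1 this with h5 | h5
  · linarith
  · linarith

/-- Expansion of the square. -/
theorem expand {ι : Type} (T : Finset ι) (x : ι → ℝ) (S : Finset ℤ) (φ : ℤ → ℂ) :
    ((∑ n ∈ T, ‖∑ m ∈ S, φ m * ee ((m : ℝ) * x n)‖ ^ 2 : ℝ) : ℂ) =
      ∑ m ∈ S, ∑ m' ∈ S, φ m * (starRingEnd ℂ) (φ m') * ∑ n ∈ T, ee (((m - m' : ℤ) : ℝ) * x n) := by
  have h1 : ∀ n, ((‖∑ m ∈ S, φ m * ee ((m : ℝ) * x n)‖ ^ 2 : ℝ) : ℂ) =
      ∑ m ∈ S, ∑ m' ∈ S, φ m * (starRingEnd ℂ) (φ m') * ee (((m - m' : ℤ) : ℝ) * x n) := by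
    intro n
    rw [Complex.ofReal_pow, ← Complex.mul_conj', map_sum, sum_mul_sum]
    refine sum_congr rfl fun m _ => sum_congr rfl fun m' _ => ?_
    rw [map_mul, conj_ee]
    have : ee (((m - m' : ℤ) : ℝ) * x n) = ee ((m : ℝ) * x n) * ee (-((m' : ℝ) * x n)) := by
      rw [← ee_add]; congr 1; push_cast; ring
    rw [this]; ring
  rw [Complex.ofReal_sum, sum_congr rfl fun n _ => h1 n, sum_comm]
  refine sum_congr rfl fun m _ => ?_
  rw [sum_comm]
  refine sum_congr rfl fun m' _ => ?_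
  rw [mul_sum]

theorem geom_N (N : ℕ) (P : ℤ) (hN : 0 < N) (hcop : IsCoprime P (N : ℤ)) (d : ℤ) :
    ∑ n ∈ range N, ee ((d : ℝ) * (n * ((P : ℝ) / N))) = if (N : ℤ) ∣ d then (N : ℂ) else 0 := by
  have hN' : (N : ℝ) ≠ 0 := by positivity
  have h1 : ∀ n : ℕ, ee ((d : ℝ) * (n * ((P : ℝ) / N))) = ee ((d : ℝ) * ((P : ℝ) / N)) ^ n := by
    intro n; rw [ee_pow]; congr 1; ring
  rw [sum_congr rfl fun n _ => h1 n]
  split_ifs with hd
  · obtain ⟨e, rfl⟩ := hd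
    have : ee ((((N : ℤ) * e : ℤ) : ℝ) * ((P : ℝ) / N)) = 1 := by
      have h2 : (((N : ℤ) * e : ℤ) : ℝ) * ((P : ℝ) / N) = ((e * P : ℤ) : ℝ) := by
        push_cast; field_simp
      rw [h2, ee_int]
    rw [this]; simp
  · set z := ee ((d : ℝ) * ((P : ℝ) / N)) with hz
    have hz1 : z ≠ 1 := by
      intro h
      obtain ⟨k, hk⟩ := ee_eq_one h
      apply hd
      have h3 : ((d * P : ℤ) : ℝ) = ((k * N : ℤ) : ℝ) := by
        push_cast
        rw [← hk]; field_simp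
      have h4 : d * P = k * N := by exact_mod_cast h3
      have h5 : (N : ℤ) ∣ d * P := ⟨k, by rw [h4]; ring⟩
      exact hcop.symm.dvd_of_dvd_mul_right h5
    have hzN : z ^ N = 1 := by
      rw [hz, ee_pow]
      have : (N : ℝ) * ((d : ℝ) * ((P : ℝ) / N)) = ((d * P : ℤ) : ℝ) := by
        push_cast; field_simp
      rw [this, ee_int]
    rw [geom_sum_eq hz1, hzN, sub_self, zero_div]

theorem parseval (N : ℕ) (P : ℤ) (hN : 0 < N) (hcop : IsCoprime P (N : ℤ)) (a b : ℤ)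
    (hab : b - a ≤ N) (φ : ℤ → ℂ) :
    ∑ n ∈ range N, ‖∑ m ∈ Ico a b, φ m * ee ((m : ℝ) * n * ((P : ℝ) / N))‖ ^ 2
      = N * ∑ m ∈ Ico a b, ‖φ m‖ ^ 2 := by
  have h := expand (range N) (fun n : ℕ => (n : ℝ) * ((P : ℝ) / N)) (Ico a b) φ
  simp only [geom_N N P hN hcop] at h
  have h2 : ∀ m ∈ Ico a b, ∑ m' ∈ Ico a b, φ m * (starRingEnd ℂ) (φ m') *
      (if (N : ℤ) ∣ m - m' then (N : ℂ) else 0) = N * ((‖φ m‖ ^ 2 : ℝ) : ℂ) := by
    intro m hm
    rw [sum_eq_single m]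
    · rw [sub_self, if_pos (dvd_zero _), Complex.mul_conj']
      push_cast; ring
    · intro m' hm' hne
      rw [if_neg, mul_zero]
      intro hd
      rw [mem_Ico] at hm hm'
      obtain ⟨e, he⟩ := hd
      have hN' : (0 : ℤ) < N := by exact_mod_cast hN
      have h1 : -(N : ℤ) < N * e := by linarith [hm.1, hm'.2]
      have h2 : (N : ℤ) * e < N := by linarith [hm.2, hm'.1]
      have h3 : e < 1 := by nlinarith
      have h4 : -1 < e := by nlinarith
      have : e = 0 := by omega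
      rw [this, mul_zero] at he
      exact hne (by linarith)
    · intro h; exact absurd hm h
  rw [sum_congr rfl h2, ← mul_sum] at h
  have h3 : ∀ n : ℕ, ∀ m : ℤ, (m : ℝ) * n * ((P : ℝ) / N) = (m : ℝ) * (n * ((P : ℝ) / N)) :=
    fun n m => by ring
  simp only [h3]
  apply Complex.ofReal_injective
  rw [h]
  push_cast
  rfl

end Run7.h364.AMO
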