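import Pool.Agent.Run7.h364.AMO_parseval

set_option autoImplicit false

namespace Run7.h364.AMO

open Finset Run7.h608

/-- Schur test. -/
theorem schur {ι : Type} (T : Finset ι) (x : ι → ℝ) (S : Finset ℤ) (φ : ℤ → ℂ) (K : ℝ)
    (hK : ∀ m ∈ S, ∑ m' ∈ S, ‖∑ n ∈ T, ee (((m - m' : ℤ) : ℝ) * x n)‖ ≤ K) :
    ∑ n ∈ T, ‖∑ m ∈ S, φ m * ee ((m : ℝ) * x n)‖ ^ 2 ≤ K * ∑ m ∈ S, ‖φ m‖ ^ 2 := by
  set D : ℤ → ℂ := fun j => ∑ n ∈ T, ee ((j : ℝ) * x n) with hD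
  have hsym : ∀ m m' : ℤ, ‖D (m - m')‖ = ‖D (m' - m)‖ := by
    intro m m'
    have : (starRingEnd ℂ) (D (m - m')) = D (m' - m) := by
      simp only [hD, map_sum, conj_ee]
      refine sum_congr rfl fun n _ => ?_
      congr 1
      push_cast
      ring
    rw [← this, RCLike.norm_conj]
  have h1 := expand T x S φ
  have h2 : (0 : ℝ) ≤ ∑ n ∈ T, ‖∑ m ∈ S, φ m * ee ((m : ℝ) * x n)‖ ^ 2 :=
    sum_nonneg fun _ _ => by positivity
  have h3 : ∑ n ∈ T, ‖∑ m ∈ S, φ m * ee ((m : ℝ) * x n)‖ ^ 2 =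
      ‖((∑ n ∈ T, ‖∑ m ∈ S, φ m * ee ((m : ℝ) * x n)‖ ^ 2 : ℝ) : ℂ)‖ := by
    rw [Complex.norm_real, Real.norm_of_nonneg h2]
  rw [h3, h1]
  calc ‖∑ m ∈ S, ∑ m' ∈ S, φ m * (starRingEnd ℂ) (φ m') * D (m - m')‖
      ≤ ∑ m ∈ S, ∑ m' ∈ S, ‖φ m‖ * ‖φ m'‖ * ‖D (m - m')‖ := by
        refine (norm_sum_le _ _).trans (sum_le_sum fun m _ => ?_)
        refine (norm_sum_le _ _).trans (sum_le_sum fun m' _ => ?_)
        rw [norm_mul, norm_mul, RCLike.norm_conj]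
    _ ≤ ∑ m ∈ S, ∑ m' ∈ S, (‖φ m‖ ^ 2 * ‖D (m - m')‖ / 2 + ‖φ m'‖ ^ 2 * ‖D (m' - m)‖ / 2) := by
        refine sum_le_sum fun m _ => sum_le_sum fun m' _ => ?_
        rw [hsym m' m]
        have h5 := norm_nonneg (D (m - m'))
        have h6 : ‖φ m‖ * ‖φ m'‖ ≤ (‖φ m‖ ^ 2 + ‖φ m'‖ ^ 2) / 2 := by
          nlinarith [sq_nonneg (‖φ m‖ - ‖φ m'‖)]
        calc ‖φ m‖ * ‖φ m'‖ * ‖D (m - m')‖ ≤ (‖φ m‖ ^ 2 + ‖φ m'‖ ^ 2) / 2 * ‖D (m - m')‖ :=
              mul_le_mul_of_nonneg_right h6 h5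
          _ = _ := by ring
    _ = ∑ m ∈ S, ‖φ m‖ ^ 2 * ∑ m' ∈ S, ‖D (m - m')‖ := by
        have h7 : ∀ m ∈ S, ∑ m' ∈ S, (‖φ m‖ ^ 2 * ‖D (m - m')‖ / 2 + ‖φ m'‖ ^ 2 * ‖D (m' - m)‖ / 2)
            = (∑ m' ∈ S, ‖φ m‖ ^ 2 * ‖D (m - m')‖ / 2) + ∑ m' ∈ S, ‖φ m'‖ ^ 2 * ‖D (m' - m)‖ / 2 :=
          fun m _ => sum_add_distrib
        rw [sum_congr rfl h7, sum_add_distrib]
        rw [sum_comm (f := fun m m' => ‖φ m'‖ ^ 2 * ‖D (m' - m)‖ / 2), ← sum_add_distrib]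
        refine sum_congr rfl fun m _ => ?_
        rw [← sum_add_distrib, mul_sum]
        refine sum_congr rfl fun m' _ => ?_
        ring
    _ ≤ ∑ m ∈ S, ‖φ m‖ ^ 2 * K :=
        sum_le_sum fun m hm => mul_le_mul_of_nonneg_left (hK m hm) (by positivity)
    _ = K * ∑ m ∈ S, ‖φ m‖ ^ 2 := by rw [← sum_mul]; ring

/-- A small difference is impossible. -/
theorem sep (β θ : ℝ) (p : ℤ) (q : ℕ) (hq : 1 ≤ q) (hcop : IsCoprime p (q : ℤ))
    (hβ : (q : ℝ) * β = p + θ) (hθ : 0 < θ) (hsmall : 8 * θ * q ≤ 1) (j N : ℤ) (hj : j ≠ 0)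
    (hj2 : |(j : ℝ)| ≤ 1 / (2 * θ)) : θ ≤ |j * β - N| := by
  have hq' : (0 : ℝ) < q := by exact_mod_cast hq
  have h1 : (q : ℝ) * (j * β - N) = ((j * p - N * q : ℤ) : ℝ) + j * θ := by
    push_cast
    have : (q : ℝ) * (j * β - N) = j * (q * β) - N * q := by ring
    rw [this, hβ]; ring
  have h2 : (q : ℝ) * |j * β - N| = |((j * p - N * q : ℤ) : ℝ) + j * θ| := by
    rw [← h1, abs_mul, abs_of_pos hq']
  have hjθ : |(j : ℝ) * θ| ≤ 1 / 2 := by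
    rw [abs_mul, abs_of_pos hθ]
    calc |(j : ℝ)| * θ ≤ 1 / (2 * θ) * θ := mul_le_mul_of_nonneg_right hj2 hθ.le
      _ = 1 / 2 := by field_simp
  rcases eq_or_ne (j * p - N * q) 0 with h3 | h3
  · have hd : (q : ℤ) ∣ j := by
      have : (q : ℤ) ∣ j * p := ⟨N, by linarith⟩
      exact hcop.symm.dvd_of_dvd_mul_right this
    have h4 : (q : ℤ) ≤ |j| := by
      have := Int.le_of_dvd (abs_pos.2 hj) ((dvd_abs _ _).2 hd)
      exact this
    rw [h3, Int.cast_zero, zero_add, abs_mul, abs_of_pos hθ] at h2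
    have h5 : (q : ℝ) ≤ |(j : ℝ)| := by
      have : ((q : ℤ) : ℝ) ≤ ((|j| : ℤ) : ℝ) := by exact_mod_cast h4
      rw [Int.cast_abs] at this
      exact_mod_cast this
    have h6 : (q : ℝ) * θ ≤ q * |j * β - N| := by
      rw [h2]; exact mul_le_mul_of_nonneg_right h5 hθ.le
    exact le_of_mul_le_mul_left h6 hq'
  · have h4 : (1 : ℝ) ≤ |((j * p - N * q : ℤ) : ℝ)| := by
      rw [← Int.cast_abs]
      exact_mod_cast Int.one_le_abs h3
    have h5 : (1 : ℝ) / 2 ≤ q * |j * β - N| := by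
      rw [h2]
      have := abs_sub_abs_le_abs_sub (((j * p - N * q : ℤ) : ℝ)) (-(j * θ))
      rw [abs_neg, sub_neg_eq_add] at this
      linarith
    have h6 : (q : ℝ) * θ ≤ q * |j * β - N| := by linarith
    exact le_of_mul_le_mul_left h6 hq'

/-- Sum of the reciprocals of separated numbers. -/
theorem sum_recip (θ : ℝ) (hθ : 0 < θ) (hθ1 : θ ≤ 1) (S : Finset ℤ) (g : ℤ → ℝ)
    (hg : ∀ m ∈ S, θ ≤ g m) (hg1 : ∀ m ∈ S, g m < 1)
    (hs : ∀ m ∈ S, ∀ m' ∈ S, m ≠ m' → θ ≤ |g m - g m'|) :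
    ∑ m ∈ S, 1 / g m ≤ 1 / θ * (1 + Real.log (1 / θ)) := by
  set k : ℤ → ℕ := fun m => ⌊g m / θ⌋₊ with hk
  have hk1 : ∀ m ∈ S, 1 ≤ k m := by
    intro m hm
    rw [hk]
    apply Nat.le_floor
    rw [Nat.cast_one, le_div_iff₀ hθ, one_mul]
    exact hg m hm
  have hk2 : ∀ m ∈ S, k m ≤ ⌊1 / θ⌋₊ := by
    intro m hm
    apply Nat.floor_le_floor
    exact div_le_div_of_nonneg_right (hg1 m hm).le hθ.le
  have hinj : Set.InjOn k S := by
    intro m hm m' hm' h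
    by_contra hne
    have h1 := hs m hm m' hm' hne
    have p1 : (0 : ℝ) ≤ g m / θ := div_nonneg (hθ.le.trans (hg m hm)) hθ.le
    have p2 : (0 : ℝ) ≤ g m' / θ := div_nonneg (hθ.le.trans (hg m' hm')) hθ.le
    have a1 := Nat.floor_le p1
    have a2 := Nat.lt_floor_add_one (g m / θ)
    have b1 := Nat.floor_le p2
    have b2 := Nat.lt_floor_add_one (g m' / θ)
    have h' : ((⌊g m / θ⌋₊ : ℕ) : ℝ) = ⌊g m' / θ⌋₊ := by
      have : ⌊g m / θ⌋₊ = ⌊g m' / θ⌋₊ := h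
      rw [this]
    rw [h'] at a1 a2
    have h2 : |g m / θ - g m' / θ| < 1 := by
      rw [abs_lt]; constructor <;> linarith
    rw [← sub_div, abs_div, abs_of_pos hθ, div_lt_one hθ] at h2
    linarith
  calc ∑ m ∈ S, 1 / g m ≤ ∑ m ∈ S, 1 / θ * (1 / (k m : ℝ)) := by
        refine sum_le_sum fun m hm => ?_
        have h1 : (1 : ℝ) ≤ k m := by exact_mod_cast hk1 m hm
        have h2 : (k m : ℝ) ≤ g m / θ := Nat.floor_le (div_nonneg (hθ.le.trans (hg m hm)) hθ.le)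
        have h3 : (k m : ℝ) * θ ≤ g m := by rwa [le_div_iff₀ hθ] at h2
        have h4 : (0 : ℝ) < k m * θ := by positivity
        calc 1 / g m ≤ 1 / (k m * θ) := one_div_le_one_div_of_le h4 h3
          _ = _ := by field_simp
    _ = 1 / θ * ∑ m ∈ S, 1 / (k m : ℝ) := by rw [mul_sum]
    _ = 1 / θ * ∑ i ∈ S.image k, 1 / (i : ℝ) := by rw [sum_image hinj]
    _ ≤ 1 / θ * ∑ i ∈ Icc 1 ⌊1 / θ⌋₊, 1 / (i : ℝ) := by
        refine mul_le_mul_of_nonneg_left ?_ (by positivity)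
        refine sum_le_sum_of_subset_of_nonneg ?_ fun _ _ _ => by positivity
        intro i hi
        obtain ⟨m, hm, rfl⟩ := mem_image.1 hi
        exact mem_Icc.2 ⟨hk1 m hm, hk2 m hm⟩
    _ = 1 / θ * ((harmonic ⌊1 / θ⌋₊ : ℚ) : ℝ) := by
        rw [harmonic_eq_sum_Icc]
        push_cast
        simp
    _ ≤ _ := by
        refine mul_le_mul_of_nonneg_left ?_ (by positivity)
        exact harmonic_floor_le_one_add_log _ (by rw [le_div_iff₀ hθ]; linarith)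

/-- The Dirichlet kernel. -/
theorem dirichlet (x : ℝ) (c d : ℤ) (hx : 0 < Int.fract x) :
    ‖∑ n ∈ Ico c d, ee ((n : ℝ) * x)‖ ≤ 1 / 2 * (1 / Int.fract x + 1 / (1 - Int.fract x)) := by
  have hlt := Int.fract_lt_one x
  set y := Int.fract x with hy
  set z := ee x with hz
  have hzy : z = ee y := by
    rw [hz, hy]
    have : x = Int.fract x + (⌊x⌋ : ℤ) := by rw [Int.fract]; ring
    conv_lhs => rw [this]
    rw [ee_add_int]
  have h1 : ∑ n ∈ Ico c d, ee ((n : ℝ) * x) = ee ((c : ℝ) * x) * ∑ k ∈ range (d - c).toNat, z ^ k := by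
    rw [Int.Ico_eq_finset_map, sum_map, mul_sum]
    refine sum_congr rfl fun k _ => ?_
    rw [hz, ee_pow, ← ee_add]
    congr 1
    simp
    ring
  have hz1 : z ≠ 1 := by
    intro h
    obtain ⟨k, hk⟩ := ee_eq_one h
    rw [hy, hk, Int.fract_intCast] at hx
    exact lt_irrefl _ hx
  have hnz : ‖z‖ = 1 := norm_ee x
  have hsin : ‖z - 1‖ = 2 * Real.sin (Real.pi * y) := by
    have h2 : z - 1 = ee (y / 2) * (ee (y / 2) - ee (-(y / 2))) := by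
      rw [mul_sub, ← ee_add, ← ee_add, hzy]
      congr 1
      · congr 1; ring
      · rw [add_neg_cancel, ee_zero]
    have h3 : ee (y / 2) - ee (-(y / 2)) = ((2 * Real.sin (Real.pi * y) : ℝ) : ℂ) * Complex.I := by
      rw [ee_eq, ee_eq]
      have e1 : 2 * Real.pi * (y / 2) = Real.pi * y := by ring
      have e2 : 2 * Real.pi * -(y / 2) = -(Real.pi * y) := by ring
      rw [e1, e2, Real.cos_neg, Real.sin_neg]
      push_cast
      ring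
    rw [h2, h3, norm_mul, norm_ee, norm_mul, Complex.norm_I, Complex.norm_real, one_mul, mul_one]
    apply Real.norm_of_nonneg
    have : 0 ≤ Real.sin (Real.pi * y) :=
      Real.sin_nonneg_of_nonneg_of_le_pi (by positivity) (by nlinarith [Real.pi_pos])
    positivity
  have hlow : 1 / ‖z - 1‖ ≤ 1 / 4 * (1 / y + 1 / (1 - y)) := by
    rw [hsin]
    have hpi := Real.pi_pos
    have hy1 : 0 < 1 - y := by linarith
    rcases le_total y (1 / 2) with h | h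
    · have h4 := Real.mul_le_sin (x := Real.pi * y) (by positivity) (by nlinarith)
      have h5 : 2 / Real.pi * (Real.pi * y) = 2 * y := by field_simp
      rw [h5] at h4
      calc 1 / (2 * Real.sin (Real.pi * y)) ≤ 1 / (2 * (2 * y)) :=
            one_div_le_one_div_of_le (by positivity) (by linarith)
        _ = 1 / 4 * (1 / y) := by field_simp; norm_num
        _ ≤ _ := by
            refine mul_le_mul_of_nonneg_left ?_ (by norm_num)
            have : 0 < 1 / (1 - y) := by positivity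
            linarith
    · have h4 := Real.mul_le_sin (x := Real.pi * (1 - y)) (by positivity) (by nlinarith)
      have h5 : 2 / Real.pi * (Real.pi * (1 - y)) = 2 * (1 - y) := by field_simp
      have h6 : Real.sin (Real.pi * (1 - y)) = Real.sin (Real.pi * y) := by
        have : Real.pi * (1 - y) = Real.pi - Real.pi * y := by ring
        rw [this, Real.sin_pi_sub]
      rw [h5, h6] at h4
      calc 1 / (2 * Real.sin (Real.pi * y)) ≤ 1 / (2 * (2 * (1 - y))) :=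
            one_div_le_one_div_of_le (by positivity) (by linarith)
        _ = 1 / 4 * (1 / (1 - y)) := by field_simp; norm_num
        _ ≤ _ := by
            refine mul_le_mul_of_nonneg_left ?_ (by norm_num)
            have : 0 < 1 / y := by positivity
            linarith
  rw [h1, norm_mul, norm_ee, one_mul, geom_sum_eq hz1, norm_div]
  have h7 : ‖z ^ (d - c).toNat - 1‖ ≤ 2 := by
    refine (norm_sub_le _ _).trans ?_
    rw [norm_pow, hnz, one_pow, norm_one]; norm_num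
  have h8 : 0 < ‖z - 1‖ := norm_pos_iff.2 (sub_ne_zero.2 hz1)
  calc ‖z ^ (d - c).toNat - 1‖ / ‖z - 1‖ ≤ 2 / ‖z - 1‖ := div_le_div_of_nonneg_right h7 h8.le
    _ = 2 * (1 / ‖z - 1‖) := by ring
    _ ≤ 2 * (1 / 4 * (1 / y + 1 / (1 - y))) := mul_le_mul_of_nonneg_left hlow (by norm_num)
    _ = _ := by ring

/-- The sieve for short intervals. -/
theorem sieve_short (β θ : ℝ) (p : ℤ) (q : ℕ) (hq : 1 ≤ q) (hcop : IsCoprime p (q : ℤ))
    (hβ : (q : ℝ) * β = p + θ) (hθ : 0 < θ) (hsmall : 8 * θ * q ≤ 1)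
    (S : Finset ℤ) (hS : ∀ m ∈ S, ∀ m' ∈ S, |(m : ℝ) - m'| ≤ 1 / (2 * θ))
    (c d : ℤ) (hcd : (d : ℝ) - c ≤ 1 / θ + 1) (φ : ℤ → ℂ) :
    ∑ n ∈ Ico c d, ‖∑ m ∈ S, φ m * ee ((m : ℝ) * (n * β))‖ ^ 2
      ≤ (3 * (1 / θ) * (1 + Real.log (1 / θ))) * ∑ m ∈ S, ‖φ m‖ ^ 2 := by
  have hq' : (1 : ℝ) ≤ q := by exact_mod_cast hq
  have hθ8 : 8 * θ ≤ 1 := by nlinarith
  have h18 : 8 ≤ 1 / θ := by rw [le_div_iff₀ hθ]; linarith
  have hlog : 0 ≤ Real.log (1 / θ) := Real.log_nonneg (by linarith)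
  refine schur (Ico c d) (fun n : ℤ => (n : ℝ) * β) S φ _ fun m hm => ?_
  have key : ∀ m' ∈ S, m' ≠ m → ∀ N : ℤ, θ ≤ |((m - m' : ℤ) : ℝ) * β - N| := by
    intro m' hm' hne N
    refine sep β θ p q hq hcop hβ hθ hsmall _ N (sub_ne_zero.2 hne.symm) ?_
    push_cast
    exact hS m hm m' hm'
  have key2 : ∀ m1 ∈ S, ∀ m2 ∈ S, m1 ≠ m2 → ∀ N : ℤ, θ ≤ |((m1 - m2 : ℤ) : ℝ) * β - N| := by
    intro m1 h1 m2 h2 hne N
    refine sep β θ p q hq hcop hβ hθ hsmall _ N (sub_ne_zero.2 hne) ?_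
    push_cast
    exact hS m1 h1 m2 h2
  set g : ℤ → ℝ := fun m' => Int.fract (((m - m' : ℤ) : ℝ) * β) with hg
  have hgθ : ∀ m' ∈ S.erase m, θ ≤ g m' := by
    intro m' hm'
    rw [mem_erase] at hm'
    have := key m' hm'.2 hm'.1 ⌊((m - m' : ℤ) : ℝ) * β⌋
    rw [Int.self_sub_floor, abs_of_nonneg (Int.fract_nonneg _)] at this
    exact this
  have hgθ' : ∀ m' ∈ S.erase m, θ ≤ 1 - g m' := by
    intro m' hm'
    rw [mem_erase] at hm'
    have := key m' hm'.2 hm'.1 (⌊((m - m' : ℤ) : ℝ) * β⌋ + 1)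
    push_cast at this
    have h2 : ((m : ℝ) - m') * β - (⌊((m : ℝ) - m') * β⌋ + 1) = -(1 - g m') := by
      simp only [hg]
      push_cast
      rw [Int.fract]; ring
    rw [h2, abs_neg, abs_of_nonneg] at this
    · exact this
    · have := Int.fract_lt_one (((m - m' : ℤ) : ℝ) * β)
      simp only [hg]
      linarith
  have hsepg : ∀ m1 ∈ S.erase m, ∀ m2 ∈ S.erase m, m1 ≠ m2 → θ ≤ |g m1 - g m2| := by
    intro m1 h1 m2 h2 hne
    rw [mem_erase] at h1 h2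
    have := key2 m2 h2.2 m1 h1.2 hne.symm
      (⌊((m - m1 : ℤ) : ℝ) * β⌋ - ⌊((m - m2 : ℤ) : ℝ) * β⌋)
    have h3 : ((m2 - m1 : ℤ) : ℝ) * β - ((⌊((m - m1 : ℤ) : ℝ) * β⌋ - ⌊((m - m2 : ℤ) : ℝ) * β⌋ : ℤ) : ℝ)
        = g m1 - g m2 := by
      simp only [hg, Int.fract]
      push_cast
      ring
    rwa [h3] at this
  have s1 : ∑ m' ∈ S.erase m, 1 / g m' ≤ 1 / θ * (1 + Real.log (1 / θ)) :=
    sum_recip θ hθ (by linarith) _ g hgθ (fun m' _ => Int.fract_lt_one _) hsepg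
  have s2 : ∑ m' ∈ S.erase m, 1 / (1 - g m') ≤ 1 / θ * (1 + Real.log (1 / θ)) := by
    refine sum_recip θ hθ (by linarith) _ (fun m' => 1 - g m') hgθ' ?_ ?_
    · intro m' hm'
      have := hgθ m' hm'
      linarith
    · intro m1 h1 m2 h2 hne
      have := hsepg m1 h1 m2 h2 hne
      have h3 : (1 - g m1) - (1 - g m2) = -(g m1 - g m2) := by ring
      rw [h3, abs_neg]
      exact this
  have hD : ∀ m' ∈ S.erase m, ‖∑ n ∈ Ico c d, ee (((m - m' : ℤ) : ℝ) * ((n : ℝ) * β))‖ ≤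
      1 / 2 * (1 / g m' + 1 / (1 - g m')) := by
    intro m' hm'
    have h1 : ∀ n : ℤ, ((m - m' : ℤ) : ℝ) * ((n : ℝ) * β) = (n : ℝ) * (((m - m' : ℤ) : ℝ) * β) :=
      fun n => by ring
    simp only [h1]
    exact dirichlet _ c d (lt_of_lt_of_le hθ (hgθ m' hm'))
  have hD0 : ‖∑ n ∈ Ico c d, ee (((m - m : ℤ) : ℝ) * ((n : ℝ) * β))‖ ≤ 1 / θ + 1 := by
    refine (norm_sum_le _ _).trans ?_
    simp only [norm_ee, sum_const, Int.card_Ico, nsmul_eq_mul, mul_one]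
    rcases le_total c d with h | h
    · have : (((d - c).toNat : ℕ) : ℝ) = d - c := by
        have : (((d - c).toNat : ℤ) : ℝ) = ((d - c : ℤ) : ℝ) := by
          rw [Int.toNat_of_nonneg (by linarith)]
        push_cast at this
        exact_mod_cast this
      rw [this]; exact hcd
    · rw [Int.toNat_of_nonpos (by linarith)]
      simp
      positivity
  rw [← add_sum_erase S _ hm]
  calc _ ≤ (1 / θ + 1) + ∑ m' ∈ S.erase m, 1 / 2 * (1 / g m' + 1 / (1 - g m')) :=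
        add_le_add hD0 (sum_le_sum hD)
    _ = (1 / θ + 1) + 1 / 2 * (∑ m' ∈ S.erase m, 1 / g m' + ∑ m' ∈ S.erase m, 1 / (1 - g m')) := by
        rw [← mul_sum, sum_add_distrib]
    _ ≤ 3 * (1 / θ) * (1 + Real.log (1 / θ)) := by
        nlinarith

theorem sieve (β θ : ℝ) (p : ℤ) (q : ℕ) (hq : 1 ≤ q) (hcop : IsCoprime p (q : ℤ))
    (hβ : (q : ℝ) * β = p + θ) (hθ : 0 < θ) (hsmall : 8 * θ * q ≤ 1)
    (a b c d : ℤ) (hab : (b : ℝ) - a ≤ 1 / θ + 1) (hcd : (d : ℝ) - c ≤ 1 / θ + 1)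
    (φ : ℤ → ℂ) :
    ∑ n ∈ Ico c d, ‖∑ m ∈ Ico a b, φ m * ee ((m : ℝ) * n * β)‖ ^ 2
      ≤ 100 * (1 / θ) * (1 + Real.log (1 / θ)) * ∑ m ∈ Ico a b, ‖φ m‖ ^ 2 := by
  have hq' : (1 : ℝ) ≤ q := by exact_mod_cast hq
  have hθ8 : 8 * θ ≤ 1 := by nlinarith
  have h18 : 8 ≤ 1 / θ := by rw [le_div_iff₀ hθ]; linarith
  have hlog : 0 ≤ Real.log (1 / θ) := Real.log_nonneg (by linarith)
  set h : ℤ := ⌊1 / (2 * θ)⌋ + 1 with hh
  have hh0 : 0 < h := by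
    have : 0 ≤ ⌊1 / (2 * θ)⌋ := Int.floor_nonneg.2 (by positivity)
    omega
  have hh1 : 1 / (2 * θ) < (h : ℝ) := by
    rw [hh]; push_cast; exact Int.lt_floor_add_one _
  have hh2 : (h : ℝ) - 1 ≤ 1 / (2 * θ) := by
    rw [hh]; push_cast
    have := Int.floor_le (1 / (2 * θ))
    linarith
  have e2 : 1 / (2 * θ) = 1 / 2 * (1 / θ) := by field_simp
  set κ : ℤ → ℤ := fun m => (m - a) / h with hκ
  have hmaps : ∀ m ∈ Ico a b, κ m ∈ Ico (0 : ℤ) 3 := by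
    intro m hm
    rw [mem_Ico] at hm ⊢
    refine ⟨Int.ediv_nonneg (by linarith [hm.1]) hh0.le, ?_⟩
    apply Int.ediv_lt_of_lt_mul hh0
    have h1 : ((m - a : ℤ) : ℝ) < ((3 * h : ℤ) : ℝ) := by
      push_cast
      have h2 : (m : ℝ) + 1 ≤ b := by exact_mod_cast hm.2
      have h3 : (1 : ℝ) ≤ h := by exact_mod_cast hh0
      linarith
    exact_mod_cast h1
  set Sk : ℤ → Finset ℤ := fun k => (Ico a b).filter (fun m => κ m = k) with hSk
  have hsplit : ∀ (f : ℤ → ℂ), ∑ m ∈ Ico a b, f m = ∑ k ∈ Ico (0 : ℤ) 3, ∑ m ∈ Sk k, f m :=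
    fun f => (sum_fiberwise_of_maps_to hmaps f).symm
  have hsplit' : ∀ (f : ℤ → ℝ), ∑ m ∈ Ico a b, f m = ∑ k ∈ Ico (0 : ℤ) 3, ∑ m ∈ Sk k, f m :=
    fun f => (sum_fiberwise_of_maps_to hmaps f).symm
  have hshort : ∀ k, ∀ m ∈ Sk k, ∀ m' ∈ Sk k, |(m : ℝ) - m'| ≤ 1 / (2 * θ) := by
    intro k m hm m' hm'
    have k1 : (m - a) / h = k := (mem_filter.1 hm).2
    have k2 : (m' - a) / h = k := (mem_filter.1 hm').2
    have a1 := Int.emod_add_mul_ediv (m - a) h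
    have a2 := Int.emod_add_mul_ediv (m' - a) h
    rw [k1] at a1
    rw [k2] at a2
    have b1 := Int.emod_nonneg (m - a) hh0.ne'
    have b2 := Int.emod_lt_of_pos (m - a) hh0
    have c1 := Int.emod_nonneg (m' - a) hh0.ne'
    have c2 := Int.emod_lt_of_pos (m' - a) hh0
    have h1 : |m - m'| ≤ h - 1 := by
      rw [abs_le]; constructor <;> linarith
    have h2 : ((|m - m'| : ℤ) : ℝ) ≤ ((h - 1 : ℤ) : ℝ) := by exact_mod_cast h1
    push_cast at h2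
    linarith
  have hassoc : ∀ n m : ℤ, ee ((m : ℝ) * n * β) = ee ((m : ℝ) * (n * β)) := fun n m => by
    rw [mul_assoc]
  simp only [hassoc]
  calc ∑ n ∈ Ico c d, ‖∑ m ∈ Ico a b, φ m * ee ((m : ℝ) * (n * β))‖ ^ 2
      ≤ ∑ n ∈ Ico c d, 3 * ∑ k ∈ Ico (0 : ℤ) 3,
          ‖∑ m ∈ Sk k, φ m * ee ((m : ℝ) * (n * β))‖ ^ 2 := by
        refine sum_le_sum fun n _ => ?_
        rw [hsplit]
        have h1 : ‖∑ k ∈ Ico (0 : ℤ) 3, ∑ m ∈ Sk k, φ m * ee ((m : ℝ) * (n * β))‖ ≤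
            ∑ k ∈ Ico (0 : ℤ) 3, ‖∑ m ∈ Sk k, φ m * ee ((m : ℝ) * (n * β))‖ := norm_sum_le _ _
        refine (pow_le_pow_left₀ (norm_nonneg _) h1 2).trans ?_
        have h2 := sq_sum_le_card_mul_sum_sq (s := Ico (0 : ℤ) 3)
          (f := fun k => ‖∑ m ∈ Sk k, φ m * ee ((m : ℝ) * (n * β))‖)
        have h3 : ((#(Ico (0 : ℤ) 3) : ℕ) : ℝ) = 3 := by
          have : #(Ico (0 : ℤ) 3) = 3 := by decide
          rw [this]; norm_num
        rw [h3] at h2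
        exact h2
    _ = 3 * ∑ k ∈ Ico (0 : ℤ) 3, ∑ n ∈ Ico c d,
          ‖∑ m ∈ Sk k, φ m * ee ((m : ℝ) * (n * β))‖ ^ 2 := by
        rw [← mul_sum, sum_comm]
    _ ≤ 3 * ∑ k ∈ Ico (0 : ℤ) 3, (3 * (1 / θ) * (1 + Real.log (1 / θ))) *
          ∑ m ∈ Sk k, ‖φ m‖ ^ 2 := by
        refine mul_le_mul_of_nonneg_left ?_ (by norm_num)
        exact sum_le_sum fun k _ =>
          sieve_short β θ p q hq hcop hβ hθ hsmall (Sk k) (hshort k) c d hcd φ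
    _ = 9 * ((1 / θ) * (1 + Real.log (1 / θ))) * ∑ m ∈ Ico a b, ‖φ m‖ ^ 2 := by
        rw [← mul_sum, ← hsplit']; ring
    _ ≤ 100 * (1 / θ) * (1 + Real.log (1 / θ)) * ∑ m ∈ Ico a b, ‖φ m‖ ^ 2 := by
        refine mul_le_mul_of_nonneg_right ?_ (sum_nonneg fun _ _ => by positivity)
        have : 0 ≤ (1 / θ) * (1 + Real.log (1 / θ)) := by positivity
        nlinarith

end Run7.h364.AMO
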