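import Pool.Agent.Run7.h364.Span

/-!
Spherical fusion categories of global dimension less than `√2`: enumeration.
-/

set_option autoImplicit false

namespace Run7.h364

open Polynomial Module IntermediateField

theorem prod_of_card_one {α : Type*} [Fintype α] (f : α → ℝ) (h : Fintype.card α = 1) (e : α) :
    ∏ σ, f σ = f e := by
  have : Subsingleton α := Fintype.card_le_one_iff_subsingleton.1 h.le
  exact Fintype.prod_subsingleton _ e

theorem exists_two {α : Type*} [Fintype α] (h : Fintype.card α = 2) (e : α) :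
    ∃ τ : α, ∀ f : α → ℝ, ∑ σ, f σ = f e + f τ ∧ ∏ σ, f σ = f e * f τ := by
  classical
  obtain ⟨τ, hτ⟩ := Finset.card_eq_one.1
    (show (Finset.univ.erase e).card = 1 by
      rw [Finset.card_erase_of_mem (Finset.mem_univ e), Finset.card_univ, h])
  refine ⟨τ, fun f => ⟨?_, ?_⟩⟩
  · rw [← Finset.add_sum_erase Finset.univ f (Finset.mem_univ e), hτ, Finset.sum_singleton]
  · rw [← Finset.mul_prod_erase Finset.univ f (Finset.mem_univ e), hτ, Finset.prod_singleton]

namespace DimData2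

variable {x : ℝ} {n : ℕ} {o : Fin n} {d : Fin n → ℂ} {ν : Fin n → ℤ}
  {N : Fin n → Fin n → Fin n → ℕ} {star : Fin n → Fin n}

theorem d_real (h : DimData2 x n o d ν N star) (i : Fin n) : d i = ((d i).re : ℂ) := by
  apply Complex.ext
  · simp
  · have := h.real (RingEquiv.refl ℂ) i
    simpa using this

theorem ne_unit (h : DimData2 x n o d ν N star) (hx : x < 2) (i : Fin n) (hi : i ≠ o) :
    d i ^ 2 ≠ 1 := by
  intro h1
  have := h.two_le_x i hi h1
  linarith

theorem star_ne (h : DimData2 x n o d ν N star) (hx : x < 2) (i : Fin n) (hi : i ≠ o) :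
    star i ≠ o := by
  intro h1
  have h2 := h.d_star i
  rw [h1, h.d_unit] at h2
  exact h.ne_unit hx i hi (by rw [← h2]; norm_num)

/-- squares of the dimensions are less than `0.4143` -/
theorem re_sq_add_le (h : DimData2 x n o d ν N star) (i j : Fin n) (hi : i ≠ o) (hj : j ≠ o)
    (hij : i ≠ j) : 1 + (d i).re ^ 2 + (d j).re ^ 2 ≤ x := by
  rw [h.x_eq]
  have h1 : ∑ k ∈ ({o, i, j} : Finset (Fin n)), (d k).re ^ 2 ≤ ∑ k, (d k).re ^ 2 :=
    Finset.sum_le_sum_of_subset_of_nonneg (Finset.subset_univ _) fun _ _ _ => sq_nonneg _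
  rw [Finset.sum_insert, Finset.sum_insert, Finset.sum_singleton, h.d_unit, Complex.one_re] at h1
  · linarith
  · simpa using hij
  · simp [hi.symm, hj.symm]

theorem re_sq_le (h : DimData2 x n o d ν N star) (i : Fin n) (hi : i ≠ o) :
    1 + (d i).re ^ 2 ≤ x := by
  rw [h.x_eq]
  have h1 : ∑ k ∈ ({o, i} : Finset (Fin n)), (d k).re ^ 2 ≤ ∑ k, (d k).re ^ 2 :=
    Finset.sum_le_sum_of_subset_of_nonneg (Finset.subset_univ _) fun _ _ _ => sq_nonneg _
  rw [Finset.sum_insert, Finset.sum_singleton, h.d_unit, Complex.one_re] at h1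
  · linarith
  · simp [hi.symm]

theorem exists_U (h : DimData2 x n o d ν N star) [FiniteDimensional ℚ h.F] :
    ∃ U : Fin n → ℤ, (∀ i, ∑ σ, (h.a σ i ^ 2 - ν i * h.a σ i) = U i) ∧
      ∀ i, ν i ≠ 0 → Even (U i) := by
  choose t q h1 h2 h3 using h.exists_int
  refine ⟨fun i => q i - ν i * t i, fun i => ?_, fun i hi => ?_⟩
  · rw [Finset.sum_sub_distrib, ← Finset.mul_sum, h1, h2]
    push_cast
    ring
  · have h4 := h3 i
    rcases h.ν_val i with h5 | h5 | h5
    · exact absurd h5 hi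
    · simp only [h5, one_mul]
      exact h4
    · simp only [h5]
      have h6 : q i - -1 * t i = (q i - t i) + 2 * t i := by ring
      rw [h6]
      exact h4.add (even_two_mul _)

/-- golden ratio -/
theorem golden_sq {a : ℝ} {ν : ℤ} (hν : ν = 0 ∨ ν = 1 ∨ ν = -1) (ha : a ^ 2 < 1)
    (h : a ^ 2 - ν * a = 1) : 19 / 50 < a ^ 2 := by
  have h1 : (a ^ 2 - 1) ^ 2 = a ^ 2 ∨ a ^ 2 = 1 := by
    rcases hν with h5 | h5 | h5
    · right
      rw [h5] at h
      push_cast at h
      linarith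
    · left
      rw [h5] at h
      push_cast at h
      have : a ^ 2 - 1 = a := by linarith
      rw [this]
    · left
      rw [h5] at h
      push_cast at h
      have : a ^ 2 - 1 = -a := by linarith
      rw [this]
      ring
  rcases h1 with h1 | h1
  · by_contra hcon
    push Not at hcon
    nlinarith
  · linarith

theorem x_lt (_h : DimData2 x n o d ν N star) (hx : x ^ 2 < 2) : x < 1415 / 1000 := by
  by_contra hcon
  push Not at hcon
  nlinarith

theorem facts (h : DimData2 x n o d ν N star) (hx : x ^ 2 < 2) [FiniteDimensional ℚ h.F] :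
    ∃ U : Fin n → ℤ, (∀ i, ∑ σ, (h.a σ i ^ 2 - ν i * h.a σ i) = U i) ∧
      (∀ i, ν i ≠ 0 → Even (U i)) ∧
      (∀ i, i ≠ o → (Fintype.card (h.F →ₐ[ℚ] ℂ) : ℤ) ≤ U i) ∧
      (∀ i, i ≠ o → ν i = 0 → (Fintype.card (h.F →ₐ[ℚ] ℂ) : ℤ) < U i) ∧
      (∀ i j, i ≠ o → j ≠ o → i ≠ j → U i ≤ (Fintype.card (h.F →ₐ[ℚ] ℂ) : ℤ) →
        U j ≤ (Fintype.card (h.F →ₐ[ℚ] ℂ) : ℤ) → False) ∧
      U o = 0 ∧ ∑ i, U i < 4 * (Fintype.card (h.F →ₐ[ℚ] ℂ) : ℤ) ∧
      (∀ i, i ≠ o → U i ≤ (Fintype.card (h.F →ₐ[ℚ] ℂ) : ℤ) → 19 / 50 < (d i).re ^ 2) := by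
  have hx0 := h.x_lt hx
  have hx2 : x < 2 := by linarith
  obtain ⟨U, hU, hE⟩ := h.exists_U
  have hgold : ∀ i, i ≠ o → U i ≤ (Fintype.card (h.F →ₐ[ℚ] ℂ) : ℤ) →
      (d i).re ^ 2 - ν i * (d i).re = 1 := by
    intro i hi hUi
    have h1 : ∑ σ, (h.a σ i ^ 2 - ν i * h.a σ i) ≤ (Fintype.card (h.F →ₐ[ℚ] ℂ) : ℝ) := by
      rw [hU]
      exact_mod_cast hUi
    have h2 := h.golden hx2 i hi h1 h.F.val
    rwa [h.a_val] at h2
  have hsq : ∀ i, i ≠ o → (d i).re ^ 2 < 1 := by
    intro i hi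
    have := h.re_sq_le i hi
    linarith
  have hg2 : ∀ i, i ≠ o → U i ≤ (Fintype.card (h.F →ₐ[ℚ] ℂ) : ℤ) → 19 / 50 < (d i).re ^ 2 :=
    fun i hi hUi => golden_sq (h.ν_val i) (hsq i hi) (hgold i hi hUi)
  refine ⟨U, hU, hE, ?_, ?_, ?_, ?_, ?_, hg2⟩
  · intro i hi
    have h1 := h.card_le hx2 i hi
    rw [hU] at h1
    exact_mod_cast h1
  · intro i hi hν
    by_contra hcon
    push Not at hcon
    have h1 := hgold i hi hcon
    rw [hν] at h1
    have h2 := hsq i hi
    push_cast at h1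
    linarith
  · intro i j hi hj hij hUi hUj
    have h1 := hg2 i hi hUi
    have h2 := hg2 j hj hUj
    have h3 := h.re_sq_add_le i j hi hj hij
    linarith
  · have h1 := hU o
    simp only [h.a_unit, h.ν_unit] at h1
    norm_num at h1
    exact_mod_cast h1.symm
  · have h1 := h.sum_lt hx
    simp only [hU] at h1
    exact_mod_cast h1

theorem card_ne_one (h : DimData2 x n o d ν N star) (hx : x ^ 2 < 2) [FiniteDimensional ℚ h.F]
    (i : Fin n) (hi : i ≠ o) : Fintype.card (h.F →ₐ[ℚ] ℂ) ≠ 1 := by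
  intro h1
  have h2 : 1 ≤ |(d i).re| := (h.prod_ge i).trans_eq (prod_of_card_one _ h1 h.F.val)
  have h3 := h.re_sq_le i hi
  have h4 := h.x_lt hx
  have h5 : 1 ≤ (d i).re ^ 2 := by
    rw [← sq_abs]
    nlinarith
  linarith

theorem card_pos (h : DimData2 x n o d ν N star) [FiniteDimensional ℚ h.F] :
    0 < Fintype.card (h.F →ₐ[ℚ] ℂ) := Fintype.card_pos_iff.2 ⟨h.F.val⟩

theorem ν_ne_zero (h : DimData2 x n o d ν N star) [FiniteDimensional ℚ h.F]
    (hm : Fintype.card (h.F →ₐ[ℚ] ℂ) = n) (i : Fin n) : star i = i ∧ ν i ≠ 0 := by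
  have h1 : star i = i := (h.linInd hm).injective (h.d_star i)
  exact ⟨h1, fun h2 => h.ν_star i h2 h1⟩

theorem n_le (h : DimData2 x n o d ν N star) (hx : x ^ 2 < 2) : n ≤ 4 := by
  have := h.finDim
  obtain ⟨U, hU, hE, hU1, hU2, hU3, hUo, hUs, hUg⟩ := h.facts hx
  have hm := h.card_pos
  have h1 : ((n : ℤ) - 1) * (Fintype.card (h.F →ₐ[ℚ] ℂ) : ℤ) ≤ ∑ i, U i := by
    rw [← Finset.add_sum_erase Finset.univ U (Finset.mem_univ o), hUo, zero_add]
    have h2 : ∑ _i ∈ Finset.univ.erase o, (Fintype.card (h.F →ₐ[ℚ] ℂ) : ℤ) ≤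
        ∑ i ∈ Finset.univ.erase o, U i :=
      Finset.sum_le_sum fun i hi => hU1 i (Finset.ne_of_mem_erase hi)
    rw [Finset.sum_const, Finset.card_erase_of_mem (Finset.mem_univ o), Finset.card_univ,
      Fintype.card_fin, nsmul_eq_mul] at h2
    have hn : 0 < n := o.pos
    rw [Nat.cast_sub (by omega)] at h2
    simpa using h2
  by_contra hcon
  push Not at hcon
  have h2 : (4 : ℤ) ≤ (n : ℤ) - 1 := by omega
  nlinarith

theorem ne_four (h : DimData2 x n o d ν N star) (hx : x ^ 2 < 2) : n ≠ 4 := by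
  rintro rfl
  have := h.finDim
  obtain ⟨U, hU, hE, hU1, hU2, hU3, hUo, hUs, hUg⟩ := h.facts hx
  have hm := h.card_pos
  have hm4 := h.card_F
  obtain ⟨i, j, k, hij, hik, hjk, hs⟩ := Finset.card_eq_three.1
    (show (Finset.univ.erase o).card = 3 by
      rw [Finset.card_erase_of_mem (Finset.mem_univ o)]; simp)
  have hi : i ≠ o := Finset.ne_of_mem_erase (s := Finset.univ) (by rw [hs]; simp)
  have hj : j ≠ o := Finset.ne_of_mem_erase (s := Finset.univ) (by rw [hs]; simp)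
  have hk : k ≠ o := Finset.ne_of_mem_erase (s := Finset.univ) (by rw [hs]; simp)
  rw [← Finset.add_sum_erase Finset.univ U (Finset.mem_univ o), hUo, zero_add, hs,
    Finset.sum_insert (by simp [hij, hik]), Finset.sum_insert (by simp [hjk]),
    Finset.sum_singleton] at hUs
  have hm1 := h.card_ne_one hx i hi
  have a1 := hU1 i hi
  have a2 := hU1 j hj
  have a3 := hU1 k hk
  have b1 := hU3 i j hi hj hij
  have b2 := hU3 i k hi hk hik
  have b3 := hU3 j k hj hk hjk
  have c1 := hU2 i hi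
  have c2 := hU2 j hj
  have c3 := hU2 k hk
  have e1 := hE i
  have e2 := hE j
  have e3 := hE k
  have hlin : ∀ l, Fintype.card (h.F →ₐ[ℚ] ℂ) = 4 → ν l ≠ 0 := fun l hm => (h.ν_ne_zero hm l).2
  have f1 := hlin i
  have f2 := hlin j
  have f3 := hlin k
  generalize Fintype.card (h.F →ₐ[ℚ] ℂ) = m at *
  have hmm : m = 2 ∨ m = 3 ∨ m = 4 := by omega
  rcases hmm with rfl | rfl | rfl
  · -- m = 2
    push_cast at *
    by_cases g1 : U i ≤ 2
    · have g3 : ¬ U j ≤ 2 := fun g => b1 g1 g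
      have g4 : ¬ U k ≤ 2 := fun g => b2 g1 g
      omega
    · by_cases g2 : U j ≤ 2
      · have g4 : ¬ U k ≤ 2 := fun g => b3 g2 g
        omega
      · omega
  · have k1 : 4 ≤ U i := by
      rcases em (ν i = 0) with h1 | h1
      · have := c1 h1
        push_cast at this
        omega
      · obtain ⟨r, hr⟩ := e1 h1
        push_cast at a1
        omega
    have k2 : 4 ≤ U j := by
      rcases em (ν j = 0) with h1 | h1
      · have := c2 h1
        push_cast at this
        omega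
      · obtain ⟨r, hr⟩ := e2 h1
        push_cast at a2
        omega
    have k3 : 4 ≤ U k := by
      rcases em (ν k = 0) with h1 | h1
      · have := c3 h1
        push_cast at this
        omega
      · obtain ⟨r, hr⟩ := e3 h1
        push_cast at a3
        omega
    push_cast at hUs
    omega
  · obtain ⟨r1, hr1⟩ := e1 (f1 rfl)
    obtain ⟨r2, hr2⟩ := e2 (f2 rfl)
    obtain ⟨r3, hr3⟩ := e3 (f3 rfl)
    push_cast at *
    by_cases g1 : U i ≤ 4
    · have g3 : ¬ U j ≤ 4 := fun g => b1 g1 g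
      have g4 : ¬ U k ≤ 4 := fun g => b2 g1 g
      omega
    · by_cases g2 : U j ≤ 4
      · have g4 : ¬ U k ≤ 4 := fun g => b3 g2 g
        omega
      · omega

end DimData2

end Run7.h364
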