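import Pool.Agent.Run7.h364.Enum

/-!
Spherical fusion categories of global dimension less than `√2`: rank three.
-/

set_option autoImplicit false

namespace Run7.h364

open Polynomial Module IntermediateField

theorem sum3 {M : Type*} [AddCommMonoid M] {o i j : Fin 3}
    (hs : (Finset.univ : Finset (Fin 3)).erase o = {i, j}) (hij : i ≠ j) (f : Fin 3 → M) :
    ∑ k, f k = f o + f i + f j := by
  rw [← Finset.add_sum_erase Finset.univ f (Finset.mem_univ o), hs,
    Finset.sum_insert (by simp [hij]), Finset.sum_singleton, add_assoc]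

theorem abs_ge {a a' : ℝ} (h1 : 1 ≤ |a| * |a'|) (c : ℝ) (ha : a ^ 2 * c ^ 2 < 1) :
    c < |a'| := by
  by_contra hcon
  push Not at hcon
  have h2 : |a| * |a'| ≤ |a| * c := mul_le_mul_of_nonneg_left hcon (abs_nonneg a)
  have h3 : 1 ≤ |a| * c := h1.trans h2
  have h4 : 1 ≤ (|a| * c) ^ 2 := by nlinarith
  rw [mul_pow, sq_abs] at h4
  linarith

theorem u_ge_abs {a : ℝ} {ν : ℤ} (hν : ν = 0 ∨ ν = 1 ∨ ν = -1) :
    |a| ^ 2 - |a| ≤ a ^ 2 - ν * a := by
  have h1 := le_abs_self a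
  have h2 := neg_abs_le a
  have h3 := abs_nonneg a
  rw [sq_abs]
  rcases hν with h5 | h5 | h5 <;> rw [h5] <;> push_cast <;> linarith

theorem u_ge' {a : ℝ} {ν : ℤ} (hν : ν = 0 ∨ ν = 1 ∨ ν = -1) :
    -(1 / 4) ≤ a ^ 2 - ν * a := by
  have := u_ge_abs (a := a) hν
  nlinarith [sq_nonneg (|a| - 1 / 2)]

theorem lem_small {a a' : ℝ} {ν : ℤ} (hν : ν = 0 ∨ ν = 1 ∨ ν = -1) (h1 : 1 ≤ |a| * |a'|)
    (ha : a ^ 2 < 2072 / 10000) (U : ℤ) (hU : (a ^ 2 - ν * a) + (a' ^ 2 - ν * a') = U)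
    (hE : ν ≠ 0 → Even U) : 4 ≤ U := by
  have h2 := abs_ge h1 (2196 / 1000) (by nlinarith)
  rcases em (ν = 0) with h0 | h0
  · rw [h0] at hU
    push_cast at hU
    have h3 : (4 : ℝ) < U := by
      rw [← hU]
      rw [← sq_abs a']
      nlinarith [sq_nonneg a]
    have : (4 : ℤ) < U := by exact_mod_cast h3
    omega
  · have h4 := u_ge_abs (a := a') hν
    have h5 := u_ge' (a := a) hν
    have h3 : (2 : ℝ) < U := by
      rw [← hU]
      nlinarith
    have h6 : (2 : ℤ) < U := by exact_mod_cast h3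
    obtain ⟨r, hr⟩ := hE h0
    omega

theorem lem_tiny {a a' : ℝ} {ν : ℤ} (hν : ν = 0 ∨ ν = 1 ∨ ν = -1) (h1 : 1 ≤ |a| * |a'|)
    (ha : a ^ 2 < 343 / 10000) (U : ℤ) (hU : (a ^ 2 - ν * a) + (a' ^ 2 - ν * a') = U) :
    20 < U := by
  have h2 := abs_ge h1 (539 / 100) (by nlinarith)
  have h4 := u_ge_abs (a := a') hν
  have h5 := u_ge' (a := a) hν
  have h3 : (20 : ℝ) < U := by
    rw [← hU]
    nlinarith
  exact_mod_cast h3

theorem nat_cases {p q r s : ℕ} (hPle : p + r ≤ 2) (hQle : q + s ≤ 2)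
    (A3 : 1 + p * r + q * s = q * q + r * r) :
    (q = 1 ∧ s = 0 ∧ r = 0) ∨ (r = 1 ∧ p = 0 ∧ q = 0) ∨
      (r = 1 ∧ p = 0 ∧ q = 1 ∧ s = 1) ∨ (r = 1 ∧ p = 1 ∧ q = 1 ∧ s = 0) := by
  have hp : p ≤ 2 := by omega
  have hr : r ≤ 2 := by omega
  have hq : q ≤ 2 := by omega
  have hs' : s ≤ 2 := by omega
  interval_cases p <;> interval_cases r <;> interval_cases q <;> interval_cases s <;> omega

theorem final_cases {p q r s : ℕ} {a b x : ℝ} (hPle : p + r ≤ 2) (hQle : q + s ≤ 2)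
    (A3 : 1 + p * r + q * s = q * q + r * r) (hni : a ≠ 0)
    (g1 : a ^ 2 = 1 + p * a + q * b) (g2 : a * b = q * a + r * b) (g3 : b ^ 2 = 1 + r * a + s * b)
    (hsq : 1 + a ^ 2 + b ^ 2 ≤ x) (hx : x < 141422 / 100000) : False := by
  rcases nat_cases hPle hQle A3 with
    ⟨rfl, rfl, rfl⟩ | ⟨rfl, rfl, rfl⟩ | ⟨rfl, rfl, rfl, rfl⟩ | ⟨rfl, rfl, rfl, rfl⟩
  · push_cast at g2
    have h1 : a * (b - 1) = 0 := by linarith
    rcases mul_eq_zero.1 h1 with h2 | h2
    · exact hni h2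
    · have h3 : b = 1 := by linarith
      rw [h3] at hsq
      have := sq_nonneg a
      linarith
  · push_cast at g1
    have := sq_nonneg b
    linarith
  · push_cast at g1
    have h1 : b = a ^ 2 - 1 := by linarith
    rw [h1] at hsq
    have := sq_nonneg (a ^ 2 - 1 / 2)
    linarith
  · push_cast at g3
    have h1 : a = b ^ 2 - 1 := by linarith
    rw [h1] at hsq
    have := sq_nonneg (b ^ 2 - 1 / 2)
    linarith

namespace DimData2

variable {x : ℝ} {n : ℕ} {o : Fin n} {d : Fin n → ℂ} {ν : Fin n → ℤ}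
  {N : Fin n → Fin n → Fin n → ℕ} {star : Fin n → Fin n}

theorem x_lt' (hx : x ^ 2 < 2) : x < 141422 / 100000 := by
  by_contra hcon
  push Not at hcon
  nlinarith

theorem three_two_aux {o : Fin 3} {d : Fin 3 → ℂ} {ν : Fin 3 → ℤ}
    {N : Fin 3 → Fin 3 → Fin 3 → ℕ} {star : Fin 3 → Fin 3}
    (h : DimData2 x 3 o d ν N star) (hx : x ^ 2 < 2) [FiniteDimensional ℚ h.F]
    (hm : Fintype.card (h.F →ₐ[ℚ] ℂ) = 2) (i j : Fin 3) (hij : i ≠ j)
    (hs : (Finset.univ : Finset (Fin 3)).erase o = {i, j})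
    (hle : (d j).re ^ 2 ≤ (d i).re ^ 2) : False := by
  obtain ⟨U, hU, hE, hU1, hU2, hU3, hUo, hUs, hUg⟩ := h.facts hx
  have hi : i ≠ o := Finset.ne_of_mem_erase (s := Finset.univ) (by rw [hs]; simp)
  have hj : j ≠ o := Finset.ne_of_mem_erase (s := Finset.univ) (by rw [hs]; simp)
  rw [sum3 hs hij, hUo, zero_add, hm] at hUs
  have hx' := x_lt' hx
  have hsq := h.re_sq_add_le i j hi hj hij
  obtain ⟨τ, hτ⟩ := exists_two hm h.F.val
  have hUi : ((d i).re ^ 2 - ν i * (d i).re) + (h.a τ i ^ 2 - ν i * h.a τ i) = U i := by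
    rw [← hU i]
    exact ((hτ (fun σ => h.a σ i ^ 2 - ν i * h.a σ i)).1).symm
  have hUj : ((d j).re ^ 2 - ν j * (d j).re) + (h.a τ j ^ 2 - ν j * h.a τ j) = U j := by
    rw [← hU j]
    exact ((hτ (fun σ => h.a σ j ^ 2 - ν j * h.a σ j)).1).symm
  have hPi : 1 ≤ |(d i).re| * |h.a τ i| := (h.prod_ge i).trans_eq ((hτ _).2)
  have hPj : 1 ≤ |(d j).re| * |h.a τ j| := (h.prod_ge j).trans_eq ((hτ _).2)
  have hj4 := lem_small (h.ν_val j) hPj (by linarith) (U j) hUj (hE j)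
  have hi4 : U i < 4 := by
    push_cast at hUs
    omega
  have hi2 := hU1 i hi
  rw [hm] at hi2
  push_cast at hi2
  have hbig : 2072 / 10000 ≤ (d i).re ^ 2 := by
    by_contra hcon
    push Not at hcon
    have := lem_small (h.ν_val i) hPi hcon (U i) hUi (hE i)
    omega
  have hν : ν i ≠ 0 := by
    intro h0
    have h1 := h.ν_star i h0
    have h2 := h.star_ne (by linarith) i hi
    have h3 : star i ∈ (Finset.univ : Finset (Fin 3)).erase o :=
      Finset.mem_erase.2 ⟨h2, Finset.mem_univ _⟩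
    rw [hs] at h3
    simp only [Finset.mem_insert, Finset.mem_singleton] at h3
    rcases h3 with h3 | h3
    · exact h1 h3
    · have h4 := h.d_star i
      rw [h3] at h4
      rw [h4] at hsq
      linarith
  obtain ⟨r, hr⟩ := hE i hν
  have hi2' : U i ≤ 2 := by omega
  have hg := hUg i hi (by rw [hm]; exact_mod_cast hi2')
  have := lem_tiny (h.ν_val j) hPj (by linarith) (U j) hUj
  push_cast at hUs
  omega

theorem three_two {o : Fin 3} {d : Fin 3 → ℂ} {ν : Fin 3 → ℤ}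
    {N : Fin 3 → Fin 3 → Fin 3 → ℕ} {star : Fin 3 → Fin 3}
    (h : DimData2 x 3 o d ν N star) (hx : x ^ 2 < 2) [FiniteDimensional ℚ h.F]
    (hm : Fintype.card (h.F →ₐ[ℚ] ℂ) = 2) : False := by
  obtain ⟨i, j, hij, hs⟩ := Finset.card_eq_two.1
    (show (Finset.univ.erase o).card = 2 by
      rw [Finset.card_erase_of_mem (Finset.mem_univ o)]; simp)
  rcases le_total ((d j).re ^ 2) ((d i).re ^ 2) with hle | hle
  · exact h.three_two_aux hx hm i j hij hs hle
  · exact h.three_two_aux hx hm j i hij.symm (by rw [hs, Finset.pair_comm]) hle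

theorem trace_D (h : DimData2 x n o d ν N star) [FiniteDimensional ℚ h.F]
    (hm : Fintype.card (h.F →ₐ[ℚ] ℂ) = n) (i : Fin n) :
    ∑ σ, h.a σ i = ∑ k, (N i k k : ℝ) := by
  have hD := h.linInd_D hm
  have hne : Nonempty (Fin n) := ⟨o⟩
  have hcard : Fintype.card (Fin n) = finrank ℚ h.F := by
    rw [← AlgHom.card ℚ h.F ℂ, hm]; simp
  let b := basisOfLinearIndependentOfCardEqFinrank hD hcard
  have hb : ∀ k, b k = h.D k := fun k =>
    congrFun (coe_basisOfLinearIndependentOfCardEqFinrank hD hcard) k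
  have hmul : ∀ k, h.D i * b k = ∑ l, (N i k l : ℚ) • b l := by
    intro k
    apply Subtype.ext
    have h1 := h.fusion' i k
    rw [hb]
    have h2 : ((∑ l, (N i k l : ℚ) • b l : h.F) : ℂ) = ∑ l, (N i k l : ℂ) * d l := by
      rw [AddSubmonoidClass.coe_finsetSum]
      refine Finset.sum_congr rfl fun l _ => ?_
      rw [hb]
      have h3 : (((N i k l : ℚ) • h.D l : h.F) : ℂ) = (N i k l : ℚ) • d l := rfl
      rw [h3, Algebra.smul_def]
      simp
    rw [h2, ← h1]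
    rfl
  have h1 : Algebra.trace ℚ h.F (h.D i) = ∑ k, (N i k k : ℚ) := by
    rw [Algebra.trace_eq_matrix_trace b, Matrix.trace]
    refine Finset.sum_congr rfl fun k _ => ?_
    rw [Matrix.diag_apply, Algebra.leftMulMatrix_eq_repr_mul, hmul, Basis.repr_sum_self]
  have h2 := trace_eq_sum_embeddings (K := ℚ) ℂ (x := h.D i)
  rw [h1] at h2
  have h3 : ((∑ σ, h.a σ i : ℝ) : ℂ) = ((∑ k, (N i k k : ℝ) : ℝ) : ℂ) := by
    push_cast
    simp only [h.a_eq] at h2
    rw [← h2]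
    simp
  exact_mod_cast h3

theorem N_comm (h : DimData2 x n o d ν N star) [FiniteDimensional ℚ h.F]
    (hm : Fintype.card (h.F →ₐ[ℚ] ℂ) = n) (i j : Fin n) : N i j = N j i :=
  h.eq_of_sum hm _ _ (by rw [← h.fusion', ← h.fusion', mul_comm])

theorem N_one (h : DimData2 x n o d ν N star) [FiniteDimensional ℚ h.F]
    (hm : Fintype.card (h.F →ₐ[ℚ] ℂ) = n) (j : Fin n) : N o j = fun k => if k = j then 1 else 0 :=
  h.eq_of_sum hm _ _ (by
    rw [← h.fusion', h.d_unit, one_mul]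
    simp)

theorem N_assoc (h : DimData2 x n o d ν N star) [FiniteDimensional ℚ h.F]
    (hm : Fintype.card (h.F →ₐ[ℚ] ℂ) = n) (a b c : Fin n) :
    (fun l => ∑ k, N a b k * N k c l) = fun l => ∑ k, N b c k * N a k l := by
  apply h.eq_of_sum hm
  have h1 : ∑ l, ((∑ k, N a b k * N k c l : ℕ) : ℂ) * d l = (d a * d b) * d c := by
    rw [h.fusion' a b, Finset.sum_mul]
    have h2 : ∀ k, (N a b k : ℂ) * d k * d c = ∑ l, (N a b k : ℂ) * (N k c l : ℂ) * d l := by
      intro k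
      rw [mul_assoc, h.fusion' k c, Finset.mul_sum]
      exact Finset.sum_congr rfl fun l _ => by ring
    simp only [h2]
    rw [Finset.sum_comm]
    refine Finset.sum_congr rfl fun l _ => ?_
    push_cast
    rw [Finset.sum_mul]
  have h1' : ∑ l, ((∑ k, N b c k * N a k l : ℕ) : ℂ) * d l = d a * (d b * d c) := by
    rw [h.fusion' b c, Finset.mul_sum]
    have h2 : ∀ k, d a * ((N b c k : ℂ) * d k) = ∑ l, (N b c k : ℂ) * (N a k l : ℂ) * d l := by
      intro k
      have h3 : d a * ((N b c k : ℂ) * d k) = (N b c k : ℂ) * (d a * d k) := by ring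
      rw [h3, h.fusion' a k, Finset.mul_sum]
      exact Finset.sum_congr rfl fun l _ => by ring
    simp only [h2]
    rw [Finset.sum_comm]
    refine Finset.sum_congr rfl fun l _ => ?_
    push_cast
    rw [Finset.sum_mul]
  rw [h1, h1', mul_assoc]

theorem three_three {o : Fin 3} {d : Fin 3 → ℂ} {ν : Fin 3 → ℤ}
    {N : Fin 3 → Fin 3 → Fin 3 → ℕ} {star : Fin 3 → Fin 3}
    (h : DimData2 x 3 o d ν N star) (hx : x ^ 2 < 2) [FiniteDimensional ℚ h.F]
    (hm : Fintype.card (h.F →ₐ[ℚ] ℂ) = 3) : False := by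
  obtain ⟨i, j, hij, hs⟩ := Finset.card_eq_two.1
    (show (Finset.univ.erase o).card = 2 by
      rw [Finset.card_erase_of_mem (Finset.mem_univ o)]; simp)
  have hi : i ≠ o := Finset.ne_of_mem_erase (s := Finset.univ) (by rw [hs]; simp)
  have hj : j ≠ o := Finset.ne_of_mem_erase (s := Finset.univ) (by rw [hs]; simp)
  have hx' := x_lt' hx
  have hsq := h.re_sq_add_le i j hi hj hij
  obtain ⟨hsi, hνi⟩ := h.ν_ne_zero hm i
  obtain ⟨hsj, hνj⟩ := h.ν_ne_zero hm j
  have hso : ∀ k, k ≠ o → N k o o = 0 := by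
    intro k hk
    rw [h.N_unit, (h.ν_ne_zero hm k).1, if_neg hk.symm]
  -- structure constants
  have e1 : N i i o = 1 := by rw [h.N_unit, hsi, if_pos rfl]
  have e2 : N j j o = 1 := by rw [h.N_unit, hsj, if_pos rfl]
  have e3 : N i j o = 0 := by rw [h.N_unit, hsi, if_neg hij.symm]
  have e4 : N j i = N i j := h.N_comm hm j i
  have e5 : ∀ a b, N o a b = if b = a then 1 else 0 := fun a b => congrFun (h.N_one hm a) b
  have e6 : N j i o = 0 := by rw [e4, e3]
  have e7 : ∀ a : Fin 3, ∀ b, N a o b = if b = a then 1 else 0 := fun a b => by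
    rw [h.N_comm hm a o, e5]
  have A1 := congrFun (h.N_assoc hm i i j) o
  have A2 := congrFun (h.N_assoc hm j j i) o
  have A3 := congrFun (h.N_assoc hm i i j) j
  simp only [sum3 hs hij, e1, e2, e3, e4, e5, e7, if_neg hi.symm,
    if_neg hj.symm, if_neg hij.symm, if_true, mul_zero, mul_one,
    zero_add, add_zero] at A1 A2 A3
  -- A1 : N i i j = N i j i ; A2 : N j j i = N i j j
  -- traces
  have T1 := h.trace_D hm i
  have T2 := h.trace_D hm j
  rw [sum3 hs hij, e7, if_neg hi.symm] at T1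
  rw [sum3 hs hij, e7, if_neg hj.symm, e4] at T2
  rw [← A1] at A3 T2
  rw [← A2] at A3 T1
  -- equations
  have F1 := h.fusion' i i
  have F2 := h.fusion' i j
  have F3 := h.fusion' j j
  rw [sum3 hs hij, h.d_unit] at F1 F2 F3
  rw [e1] at F1
  rw [e3, ← A1, ← A2] at F2
  rw [e2] at F3
  generalize N i i i = p at *
  generalize N i i j = q at *
  generalize N j j i = r at *
  generalize N j j j = s at *
  have G1 : ∀ σ : h.F →ₐ[ℚ] ℂ, h.a σ i ^ 2 = 1 + p * h.a σ i + q * h.a σ j := by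
    intro σ
    have h1 : h.D i ^ 2 = 1 + (p : h.F) * h.D i + (q : h.F) * h.D j := by
      apply Subtype.ext
      have h2 : (d i) ^ 2 = 1 + (p : ℂ) * d i + (q : ℂ) * d j := by
        rw [sq, F1]; push_cast; ring
      exact h2
    have h3 := congrArg σ h1
    simp only [map_add, map_mul, map_pow, map_natCast, map_one, h.a_eq] at h3
    exact_mod_cast h3
  have G3 : ∀ σ : h.F →ₐ[ℚ] ℂ, h.a σ j ^ 2 = 1 + r * h.a σ i + s * h.a σ j := by
    intro σ
    have h1 : h.D j ^ 2 = 1 + (r : h.F) * h.D i + (s : h.F) * h.D j := by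
      apply Subtype.ext
      have h2 : (d j) ^ 2 = 1 + (r : ℂ) * d i + (s : ℂ) * d j := by
        rw [sq, F3]; push_cast; ring
      exact h2
    have h3 := congrArg σ h1
    simp only [map_add, map_mul, map_pow, map_natCast, map_one, h.a_eq] at h3
    exact_mod_cast h3
  have G2 : ∀ σ : h.F →ₐ[ℚ] ℂ, h.a σ i * h.a σ j = q * h.a σ i + r * h.a σ j := by
    intro σ
    have h1 : h.D i * h.D j = (q : h.F) * h.D i + (r : h.F) * h.D j := by
      apply Subtype.ext
      have h2 : (d i) * d j = (q : ℂ) * d i + (r : ℂ) * d j := by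
        rw [F2]; push_cast; ring
      exact h2
    have h3 := congrArg σ h1
    simp only [map_add, map_mul, map_natCast, h.a_eq] at h3
    exact_mod_cast h3
  have hcard : ((Fintype.card (h.F →ₐ[ℚ] ℂ) : ℕ) : ℝ) = 3 := by rw [hm]; norm_num
  have S1 : ∑ σ, h.a σ i ^ 2 = 3 + p * (p + r) + q * (q + s) := by
    simp only [G1]
    rw [Finset.sum_add_distrib, Finset.sum_add_distrib, ← Finset.mul_sum, ← Finset.mul_sum,
      T1, T2]
    simp only [Finset.sum_const, Finset.card_univ, nsmul_eq_mul, mul_one, hcard]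
    push_cast
    ring
  have S3 : ∑ σ, h.a σ j ^ 2 = 3 + r * (p + r) + s * (q + s) := by
    simp only [G3]
    rw [Finset.sum_add_distrib, Finset.sum_add_distrib, ← Finset.mul_sum, ← Finset.mul_sum,
      T1, T2]
    simp only [Finset.sum_const, Finset.card_univ, nsmul_eq_mul, mul_one, hcard]
    push_cast
    ring
  have hsum := h.sum_lt hx
  rw [sum3 hs hij, hcard] at hsum
  have hso0 : ∑ σ, (h.a σ o ^ 2 - ν o * h.a σ o) = 0 := by
    simp [h.a_unit, h.ν_unit]
  rw [hso0, Finset.sum_sub_distrib, Finset.sum_sub_distrib, ← Finset.mul_sum, ← Finset.mul_sum,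
    S1, S3, T1, T2] at hsum
  push_cast at hsum
  have hP : ((p + r : ℕ) : ℤ) ^ 2 - ν i * ((p + r : ℕ) : ℤ) +
      (((q + s : ℕ) : ℤ) ^ 2 - ν j * ((q + s : ℕ) : ℤ)) < 6 := by
    have h1 : (((((p + r : ℕ) : ℤ) ^ 2 - ν i * ((p + r : ℕ) : ℤ) +
      (((q + s : ℕ) : ℤ) ^ 2 - ν j * ((q + s : ℕ) : ℤ)) : ℤ)) : ℝ) < ((6 : ℤ) : ℝ) := by
      push_cast
      linarith
    exact_mod_cast h1
  have key : ∀ (m : ℕ) (ν : ℤ), (ν = 0 ∨ ν = 1 ∨ ν = -1) → (m : ℤ) ^ 2 - m ≤ (m : ℤ) ^ 2 - ν * m := by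
    intro m ν hν
    have : (0 : ℤ) ≤ m := Int.natCast_nonneg m
    rcases hν with h5 | h5 | h5 <;> rw [h5] <;> linarith
  have k1 := key (p + r) (ν i) (h.ν_val i)
  have k2 := key (q + s) (ν j) (h.ν_val j)
  have k3 : ∀ m : ℕ, 0 ≤ (m : ℤ) ^ 2 - m := by
    intro m
    have : (m : ℤ) ≤ (m : ℤ) ^ 2 := by exact_mod_cast Nat.le_self_pow (by norm_num) m
    linarith
  have hPle : p + r ≤ 2 := by
    by_contra hcon
    push Not at hcon
    have h1 : (3 : ℤ) ≤ ((p + r : ℕ) : ℤ) := by exact_mod_cast hcon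
    have h2 := k3 (q + s)
    nlinarith
  have hQle : q + s ≤ 2 := by
    by_contra hcon
    push Not at hcon
    have h1 : (3 : ℤ) ≤ ((q + s : ℕ) : ℤ) := by exact_mod_cast hcon
    have h2 := k3 (p + r)
    nlinarith
  have g1 := G1 h.F.val
  have g2 := G2 h.F.val
  have g3 := G3 h.F.val
  simp only [h.a_val] at g1 g2 g3
  have hni : (d i).re ≠ 0 := by
    intro h0
    apply h.ne_zero i
    rw [h.d_real i, h0, Complex.ofReal_zero]
  exact final_cases hPle hQle A3 hni g1 g2 g3 hsq hx'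

theorem ne_three (h : DimData2 x n o d ν N star) (hx : x ^ 2 < 2) : n ≠ 3 := by
  rintro rfl
  have := h.finDim
  have hm := h.card_pos
  have hm4 := h.card_F
  obtain ⟨i, hi⟩ : ∃ i : Fin 3, i ≠ o := exists_ne o
  have hm1 := h.card_ne_one hx i hi
  have hmm : Fintype.card (h.F →ₐ[ℚ] ℂ) = 2 ∨ Fintype.card (h.F →ₐ[ℚ] ℂ) = 3 := by omega
  rcases hmm with h1 | h1
  · exact h.three_two hx h1
  · exact h.three_three hx h1

end DimData2

end Run7.h364
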