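import Mathlib

/-!
Extension of embeddings of number fields in `ℂ` to automorphisms of `ℂ`.
-/

set_option autoImplicit false

namespace Run7.h364

open Cardinal

theorem exists_equiv_of_basis {R K L : Type*} [CommRing R] [Field K] [Algebra R K] [Field L]
    [Algebra R L] [IsAlgClosed K] [IsAlgClosed L] {ι κ : Type*} (v : ι → K) (w : κ → L)
    (e : ι ≃ κ) (hv : IsTranscendenceBasis R v) (hw : IsTranscendenceBasis R w) :
    ∃ f : K ≃+* L, ∀ r : R, f (algebraMap R K r) = algebraMap R L r := by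
  let := IsAlgClosed.isAlgClosure_of_transcendence_basis v hv
  let := IsAlgClosed.isAlgClosure_of_transcendence_basis w hw
  let e₁ : Algebra.adjoin R (Set.range v) ≃ₐ[R] Algebra.adjoin R (Set.range w) :=
    hv.1.aevalEquiv.symm.trans
      ((AlgEquiv.ofAlgHom (MvPolynomial.rename e) (MvPolynomial.rename e.symm)
        (by ext; simp) (by ext; simp)).trans hw.1.aevalEquiv)
  refine ⟨IsAlgClosure.equivOfEquiv K L e₁.toRingEquiv, fun r => ?_⟩
  have h := IsAlgClosure.equivOfEquiv_algebraMap K L e₁.toRingEquiv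
    (algebraMap R (Algebra.adjoin R (Set.range v)) r)
  rw [← IsScalarTower.algebraMap_apply] at h
  rw [h]
  have h2 : e₁.toRingEquiv (algebraMap R (Algebra.adjoin R (Set.range v)) r) =
      algebraMap R (Algebra.adjoin R (Set.range w)) r := e₁.commutes r
  rw [h2, ← IsScalarTower.algebraMap_apply]

theorem exists_equiv_of_card {R : Type} {K L : Type} [Field R] [Field K] [Algebra R K] [Field L]
    [Algebra R L] [IsAlgClosed K] [IsAlgClosed L] (hR : #R ≤ ℵ₀) (hK : ℵ₀ < #K)
    (hKL : #K = #L) :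
    ∃ f : K ≃+* L, ∀ r : R, f (algebraMap R K r) = algebraMap R L r := by
  obtain ⟨s, hs⟩ := exists_isTranscendenceBasis R K
  obtain ⟨t, ht⟩ := exists_isTranscendenceBasis R L
  have h1 := IsAlgClosed.cardinal_eq_cardinal_transcendence_basis_of_aleph0_lt' _ hs hR hK
  have h2 := IsAlgClosed.cardinal_eq_cardinal_transcendence_basis_of_aleph0_lt' _ ht hR
    (hKL ▸ hK)
  have h3 : #s = #t := by rw [← h1, ← h2, hKL]
  obtain ⟨e⟩ := Cardinal.eq.1 h3
  exact exists_equiv_of_basis _ _ e hs ht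

/-- (C) -/
theorem exists_ringEquiv_extend (L : IntermediateField ℚ ℂ) [FiniteDimensional ℚ L]
    (σ : L →+* ℂ) : ∃ φ : ℂ ≃+* ℂ, ∀ x : L, φ (x : ℂ) = σ x := by
  have hL : #L ≤ ℵ₀ := by
    have h := Algebra.IsAlgebraic.cardinalMk_le_max ℚ L
    simpa using h
  have hC : ℵ₀ < #ℂ := by
    rw [Cardinal.mk_complex]
    exact Cardinal.aleph0_lt_continuum
  exact @exists_equiv_of_card L ℂ ℂ _ _ _ _ σ.toAlgebra _ _ hL hC rfl

end Run7.h364
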