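import Pool.Agent.Run7.h364.Ext

/-!
Number theory for the global dimensions of spherical fusion categories.
-/

set_option autoImplicit false

namespace Run7.h364

open Polynomial Module IntermediateField

theorem one_add_log_le {u : ℝ} (h0 : u ≠ 0) (h : -(1 / 4) ≤ u) : 1 + Real.log |u| ≤ u := by
  rcases lt_or_gt_of_ne h0 with hu | hu
  · have h1 : 0 < 4 * |u| := by positivity
    have h2 := Real.log_le_sub_one_of_pos h1
    rw [Real.log_mul (by norm_num) (by positivity)] at h2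
    have h3 : Real.log 4 = 2 * Real.log 2 := by
      rw [show (4 : ℝ) = 2 ^ 2 by norm_num, Real.log_pow]; norm_num
    have h4 := Real.log_two_gt_d9
    have h5 : |u| = -u := abs_of_neg hu
    rw [h3] at h2
    rw [h5] at h2 ⊢
    linarith
  · have h2 := Real.log_le_sub_one_of_pos hu
    rw [abs_of_pos hu]
    linarith

section nf

variable {K : Type*} [Field K] [Algebra ℚ K] [FiniteDimensional ℚ K]

/-- The sum of the conjugates of a nonzero algebraic integer with real conjugates `≥ -1/4`. -/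
theorem card_le_sum (y : K) (hy : IsIntegral ℤ y) (hy0 : y ≠ 0) (a : (K →ₐ[ℚ] ℂ) → ℝ)
    (ha : ∀ σ, σ y = (a σ : ℂ)) (hb : ∀ σ, -(1 / 4) ≤ a σ) :
    (Fintype.card (K →ₐ[ℚ] ℂ) : ℝ) ≤ ∑ σ, a σ := by
  have ha0 : ∀ σ, a σ ≠ 0 := by
    intro σ h
    apply hy0
    have h1 := ha σ
    rw [h] at h1
    simpa using h1
  have h1 := Algebra.isIntegral_norm ℚ hy
  obtain ⟨z, hz⟩ := IsIntegrallyClosed.isIntegral_iff.1 h1
  have h2 := Algebra.norm_eq_prod_embeddings ℚ ℂ y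
  have h3 : ((∏ σ, a σ : ℝ) : ℂ) = (z : ℂ) := by
    rw [← hz] at h2
    simp only [algebraMap_int_eq, eq_intCast, eq_ratCast, Rat.cast_intCast] at h2
    rw [h2]
    push_cast
    exact Finset.prod_congr rfl fun σ _ => (ha σ).symm
  have h4 : (∏ σ, a σ) = (z : ℝ) := by exact_mod_cast h3
  have h5 : (∏ σ, a σ) ≠ 0 := Finset.prod_ne_zero_iff.2 fun σ _ => ha0 σ
  have h6 : z ≠ 0 := by
    rintro rfl
    apply h5
    rw [h4]; simp
  have h7 : (1 : ℝ) ≤ |∏ σ, a σ| := by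
    rw [h4]
    exact_mod_cast Int.one_le_abs h6
  have h8 : 0 ≤ ∑ σ, Real.log |a σ| := by
    rw [← Real.log_prod (fun σ _ => abs_ne_zero.2 (ha0 σ)), ← Finset.abs_prod]
    exact Real.log_nonneg h7
  calc (Fintype.card (K →ₐ[ℚ] ℂ) : ℝ) = ∑ _σ : K →ₐ[ℚ] ℂ, (1 : ℝ) := by simp
    _ ≤ ∑ _σ : K →ₐ[ℚ] ℂ, (1 : ℝ) + ∑ σ, Real.log |a σ| := by linarith
    _ = ∑ σ, (1 + Real.log |a σ|) := by rw [Finset.sum_add_distrib]
    _ ≤ ∑ σ, a σ := Finset.sum_le_sum fun σ _ => one_add_log_le (ha0 σ) (hb σ)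

/-- Bound for the conjugates by the average and the degree. -/
theorem conj_le (y : K) (a : (K →ₐ[ℚ] ℂ) → ℝ) (ha : ∀ σ, σ y = (a σ : ℂ))
    (hb : ∀ σ, 0 ≤ a σ) (c : ℝ)
    (hsum : ∑ σ, a σ ≤ c * (Fintype.card (K →ₐ[ℚ] ℂ) : ℝ)) (σ : K →ₐ[ℚ] ℂ) :
    a σ ≤ c * (minpoly ℚ y).natDegree := by
  have h1 := Algebra.IsIntegral.isIntegral (R := ℚ) y
  have h2 := trace_eq_sum_roots (F := ℂ) (K := ℚ) (x := y) (IsAlgClosed.splits _)
  rw [trace_eq_sum_embeddings ℂ] at h2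
  have h3 : (Fintype.card (K →ₐ[ℚ] ℂ)) = (minpoly ℚ y).natDegree * finrank ℚ⟮y⟯ K := by
    rw [AlgHom.card, ← IntermediateField.adjoin.finrank h1, Module.finrank_mul_finrank]
  have h4 : 0 < finrank ℚ⟮y⟯ K := Module.finrank_pos
  have h4' : (0 : ℝ) < finrank ℚ⟮y⟯ K := by exact_mod_cast h4
  -- every root is of the form `a σ`
  have h5 : ∀ z ∈ (minpoly ℚ y).aroots ℂ, ∃ τ : K →ₐ[ℚ] ℂ, z = (a τ : ℂ) := by
    intro z hz
    have h6 := Algebra.IsAlgebraic.range_eval_eq_rootSet_minpoly (F := ℚ) ℂ y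
    have h7 : z ∈ (minpoly ℚ y).rootSet ℂ := by
      rw [Polynomial.mem_rootSet]
      rw [Polynomial.mem_aroots] at hz
      exact hz
    rw [← h6] at h7
    obtain ⟨τ, hτ⟩ := h7
    exact ⟨τ, by rw [← hτ]; exact ha τ⟩
  have h6 : σ y ∈ (minpoly ℚ y).aroots ℂ := by
    rw [Polynomial.mem_aroots]
    refine ⟨minpoly.ne_zero h1, ?_⟩
    rw [Polynomial.aeval_algHom_apply, minpoly.aeval, map_zero]
  obtain ⟨s, hs⟩ := Multiset.exists_cons_of_mem h6
  have h7 : a σ ≤ (((minpoly ℚ y).aroots ℂ).sum).re := by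
    rw [hs, Multiset.sum_cons, Complex.add_re, ha σ, Complex.ofReal_re]
    have h8 : 0 ≤ s.sum.re := by
      have h9 : ∀ z ∈ s, 0 ≤ z.re := by
        intro z hz
        obtain ⟨τ, hτ⟩ := h5 z (by rw [hs]; exact Multiset.mem_cons_of_mem hz)
        rw [hτ, Complex.ofReal_re]
        exact hb τ
      clear hs
      induction s using Multiset.induction_on with
      | empty => simp
      | cons b t ih =>
        rw [Multiset.sum_cons, Complex.add_re]
        exact add_nonneg (h9 b (Multiset.mem_cons_self _ _))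
          (ih fun z hz => h9 z (Multiset.mem_cons_of_mem hz))
    linarith
  have h8 : (∑ σ, a σ) = finrank ℚ⟮y⟯ K * (((minpoly ℚ y).aroots ℂ).sum).re := by
    have h9 := congrArg Complex.re h2
    rw [Complex.re_sum] at h9
    rw [nsmul_eq_mul] at h9
    simp only [ha, Complex.ofReal_re] at h9
    rw [h9]
    simp
  rw [h8, h3] at hsum
  push_cast at hsum
  have h10 : (((minpoly ℚ y).aroots ℂ).sum).re ≤ c * (minpoly ℚ y).natDegree := by
    by_contra hcon
    push Not at hcon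
    have := mul_lt_mul_of_pos_left hcon h4'
    linarith
  exact h7.trans h10

end nf

/-- Finiteness of the set of real algebraic integers of bounded degree and conjugates. -/
theorem finite_of_bdd (B : ℝ) (k : ℕ) :
    {x : ℝ | IsIntegral ℤ (x : ℂ) ∧ (minpoly ℚ (x : ℂ)).natDegree ≤ k ∧
      ∀ z ∈ (minpoly ℚ (x : ℂ)).aroots ℂ, ‖z‖ ≤ B}.Finite := by
  classical
  let C := Nat.ceil (max B 1 ^ k * (k.choose (k / 2)))
  have := bUnion_roots_finite (algebraMap ℤ ℂ) k (Set.finite_Icc (-C : ℤ) C)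
  have h2 := this.preimage (f := fun x : ℝ => (x : ℂ))
    (Complex.ofReal_injective.injOn)
  refine h2.subset fun x hx => ?_
  obtain ⟨hx1, hx2, hx3⟩ := hx
  have h_map := minpoly.isIntegrallyClosed_eq_field_fractions' ℚ hx1
  simp only [Set.mem_preimage, Set.mem_iUnion]
  refine ⟨minpoly ℤ (x : ℂ), ⟨?_, fun i => ?_⟩, mem_rootSet.2 ⟨minpoly.ne_zero hx1, minpoly.aeval ℤ _⟩⟩
  · rw [← (minpoly.monic hx1).natDegree_map (algebraMap ℤ ℚ), ← h_map]
    exact hx2
  · rw [Set.mem_Icc, ← abs_le, ← @Int.cast_le ℝ]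
    have h3 := coeff_bdd_of_roots_le (algebraMap ℚ ℂ) (B := B) (d := k)
      (p := minpoly ℚ (x : ℂ)) (minpoly.monic hx1.tower_top) (IsAlgClosed.splits _) hx2 hx3 i
    refine (Eq.trans_le ?_ h3).trans (Nat.le_ceil _)
    rw [h_map, coeff_map, coeff_map]
    simp

end Run7.h364
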