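import Pool.Agent.Run7.h364.DimFin

/-!
Spherical fusion categories of global dimension less than `√2`: number theoretic lemmas.
-/

set_option autoImplicit false

namespace Run7.h364

open Polynomial Module IntermediateField

theorem one_add_log_lt {u : ℝ} (h0 : u ≠ 0) (h : -(1 / 4) ≤ u) (hu1 : u ≠ 1) :
    1 + Real.log |u| < u := by
  rcases lt_or_gt_of_ne h0 with hu | hu
  · have h1 : 0 < 4 * |u| := by positivity
    have h2 := Real.log_le_sub_one_of_pos h1
    rw [Real.log_mul (by norm_num) (by positivity)] at h2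
    have h3 : Real.log 4 = 2 * Real.log 2 := by
      rw [show (4 : ℝ) = 2 ^ 2 by norm_num, Real.log_pow]; norm_num
    have h4 := Real.log_two_gt_d9
    have h5 : |u| = -u := abs_of_neg hu
    rw [h3] at h2
    rw [h5] at h2 ⊢
    linarith
  · have h2 := Real.log_lt_sub_one_of_pos hu hu1
    rw [abs_of_pos hu]
    linarith

section nf

variable {K : Type*} [Field K] [Algebra ℚ K] [FiniteDimensional ℚ K]

theorem one_le_prod (y : K) (hy : IsIntegral ℤ y) (hy0 : y ≠ 0) (a : (K →ₐ[ℚ] ℂ) → ℝ)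
    (ha : ∀ σ, σ y = (a σ : ℂ)) : 1 ≤ ∏ σ, |a σ| := by
  have ha0 : ∀ σ, a σ ≠ 0 := by
    intro σ h
    apply hy0
    have h1 := ha σ
    rw [h] at h1
    simpa using h1
  have h1 := Algebra.isIntegral_norm ℚ hy
  obtain ⟨z, hz⟩ := IsIntegrallyClosed.isIntegral_iff.1 h1
  have h2 := Algebra.norm_eq_prod_embeddings ℚ ℂ y
  have h3 : ((∏ σ, a σ : ℝ) : ℂ) = (z : ℂ) := by
    rw [← hz] at h2
    simp only [algebraMap_int_eq, eq_intCast, eq_ratCast, Rat.cast_intCast] at h2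
    rw [h2]
    push_cast
    exact Finset.prod_congr rfl fun σ _ => (ha σ).symm
  have h4 : (∏ σ, a σ) = (z : ℝ) := by exact_mod_cast h3
  have h5 : (∏ σ, a σ) ≠ 0 := Finset.prod_ne_zero_iff.2 fun σ _ => ha0 σ
  have h6 : z ≠ 0 := by
    rintro rfl
    apply h5
    rw [h4]; simp
  rw [← Finset.abs_prod, h4]
  exact_mod_cast Int.one_le_abs h6

/-- Equality case of `card_le_sum`. -/
theorem eq_one_of_sum_le (y : K) (hy : IsIntegral ℤ y) (hy0 : y ≠ 0) (a : (K →ₐ[ℚ] ℂ) → ℝ)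
    (ha : ∀ σ, σ y = (a σ : ℂ)) (hb : ∀ σ, -(1 / 4) ≤ a σ)
    (hs : ∑ σ, a σ ≤ (Fintype.card (K →ₐ[ℚ] ℂ) : ℝ)) (τ : K →ₐ[ℚ] ℂ) : a τ = 1 := by
  have ha0 : ∀ σ, a σ ≠ 0 := by
    intro σ h
    apply hy0
    have h1 := ha σ
    rw [h] at h1
    simpa using h1
  by_contra hτ
  have h7 := one_le_prod y hy hy0 a ha
  have h8 : 0 ≤ ∑ σ, Real.log |a σ| := by
    rw [← Real.log_prod (fun σ _ => abs_ne_zero.2 (ha0 σ))]
    exact Real.log_nonneg h7
  have h9 : ∑ σ, (1 + Real.log |a σ|) < ∑ σ, a σ :=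
    Finset.sum_lt_sum (fun σ _ => one_add_log_le (ha0 σ) (hb σ))
      ⟨τ, Finset.mem_univ _, one_add_log_lt (ha0 τ) (hb τ) hτ⟩
  rw [Finset.sum_add_distrib] at h9
  simp only [Finset.sum_const, Finset.card_univ, nsmul_eq_mul, mul_one] at h9
  linarith

end nf

theorem trace_sq_parity {ι : Type*} [Fintype ι] [DecidableEq ι] (M : Matrix ι ι ℤ) :
    Even ((M ^ 2).trace - M.trace) := by
  have h1 := ZMod.trace_pow_card (p := 2) (M.map (Int.castRingHom (ZMod 2)))
  have h2 : (M.map (Int.castRingHom (ZMod 2))) ^ 2 =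
      (M ^ 2).map (Int.castRingHom (ZMod 2)) := by
    have := map_pow (Int.castRingHom (ZMod 2)).mapMatrix M 2
    simpa using this.symm
  rw [h2] at h1
  have h3 : ∀ A : Matrix ι ι ℤ, (A.map (Int.castRingHom (ZMod 2))).trace = ((A.trace : ℤ) : ZMod 2) := by
    intro A
    simp [Matrix.trace]
  rw [h3, h3] at h1
  have h4 : ∀ z : ZMod 2, z ^ 2 = z := by decide
  rw [h4] at h1
  have h5 : (((M ^ 2).trace - M.trace : ℤ) : ZMod 2) = 0 := by
    push_cast
    rw [h1, sub_self]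
  rw [ZMod.intCast_zmod_eq_zero_iff_dvd] at h5
  exact even_iff_two_dvd.2 (by exact_mod_cast h5)

theorem trace_parity {K : Type*} [Field K] [NumberField K] (y : K) (hy : IsIntegral ℤ y)
    (a : (K →ₐ[ℚ] ℂ) → ℝ) (ha : ∀ σ, σ y = (a σ : ℂ)) :
    ∃ t q : ℤ, ∑ σ, a σ = t ∧ ∑ σ, a σ ^ 2 = q ∧ Even (q - t) := by
  classical
  let y' : NumberField.RingOfIntegers K := ⟨y, hy⟩
  have hy' : (y' : K) = y := rfl
  let b := Module.Free.chooseBasis ℤ (NumberField.RingOfIntegers K)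
  refine ⟨Algebra.trace ℤ _ y', Algebra.trace ℤ _ (y' ^ 2), ?_, ?_, ?_⟩
  · have h1 := trace_eq_sum_embeddings (K := ℚ) ℂ (x := y)
    have h2 := Algebra.coe_trace_int y'
    rw [hy'] at h2
    rw [← h2] at h1
    have h3 : ((∑ σ, a σ : ℝ) : ℂ) = ((Algebra.trace ℤ _ y' : ℤ) : ℂ) := by
      push_cast
      simp only [eq_ratCast, Rat.cast_intCast] at h1
      rw [h1]
      exact Finset.sum_congr rfl fun σ _ => (ha σ).symm
    exact_mod_cast h3
  · have h1 := trace_eq_sum_embeddings (K := ℚ) ℂ (x := y ^ 2)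
    have h2 := Algebra.coe_trace_int (y' ^ 2)
    have h4 : ((y' ^ 2 : NumberField.RingOfIntegers K) : K) = y ^ 2 := by
      rw [← hy']; push_cast; rfl
    rw [h4] at h2
    rw [← h2] at h1
    have h3 : ((∑ σ, a σ ^ 2 : ℝ) : ℂ) = ((Algebra.trace ℤ _ (y' ^ 2) : ℤ) : ℂ) := by
      push_cast
      simp only [eq_ratCast, Rat.cast_intCast] at h1
      rw [h1]
      refine Finset.sum_congr rfl fun σ _ => ?_
      rw [map_pow, ha σ]
    exact_mod_cast h3
  · rw [Algebra.trace_eq_matrix_trace b, Algebra.trace_eq_matrix_trace b, map_pow]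
    exact trace_sq_parity _

end Run7.h364
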