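import Pool.Agent.Run7.h446.Smyth.Iface
import Pool.Agent.Run7.h364.Smyth_SEL

/-!
# Smyth: piece GAL
-/

set_option autoImplicit false

namespace Run7.h364.Smyth_GAL

open Pool.Agent.Run7.h446.Smyth

/-- the action of the automorphisms on the embeddings of `K` -/
noncomputable def rho (K Ω : Type) [Field K] [Field Ω] [Algebra ℚ K] [Algebra ℚ Ω] :
    (Ω ≃ₐ[ℚ] Ω) →* Equiv.Perm (K →ₐ[ℚ] Ω) where
  toFun g :=
    { toFun := fun f => (g : Ω →ₐ[ℚ] Ω).comp f
      invFun := fun f => ((g⁻¹ : Ω ≃ₐ[ℚ] Ω) : Ω →ₐ[ℚ] Ω).comp f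
      left_inv := fun f => by
        ext x
        show g⁻¹ (g (f x)) = f x
        rw [← AlgEquiv.mul_apply, inv_mul_cancel, AlgEquiv.one_apply]
      right_inv := fun f => by
        ext x
        show g (g⁻¹ (f x)) = f x
        rw [← AlgEquiv.mul_apply, mul_inv_cancel, AlgEquiv.one_apply] }
  map_one' := by
    ext f x
    rfl
  map_mul' g h := by
    ext f x
    rfl

theorem rho_ker {K Ω : Type} [Field K] [Field Ω] [Algebra ℚ K] [Algebra ℚ Ω] [Algebra K Ω]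
    [IsScalarTower ℚ K Ω] {g : Ω ≃ₐ[ℚ] Ω} (hg : g ∈ (rho K Ω).ker) (x : K) :
    g (algebraMap K Ω x) = algebraMap K Ω x := by
  rw [MonoidHom.mem_ker] at hg
  have h1 := congrArg (fun σ : Equiv.Perm (K →ₐ[ℚ] Ω) => σ (IsScalarTower.toAlgHom ℚ K Ω) x) hg
  exact h1

/-- for a number field `K` and large primes `M` there are `M` elements on which the automorphisms over `K`
act by all even permutations -/
theorem evenPerms (K : Type) [Field K] [NumberField K] : ∃ D : ℕ, ∀ M : ℕ, M.Prime → D < M →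
    ∃ θ : Fin M → AlgebraicClosure K, Function.Injective θ ∧
      ∀ π ∈ alternatingGroup (Fin M), ∃ g : AlgebraicClosure K ≃ₐ[K] AlgebraicClosure K,
        ∀ k, g (θ k) = θ (π k) := by
  classical
  set Ω := AlgebraicClosure K with hΩ
  have halg : Algebra.IsAlgebraic ℚ Ω := Algebra.IsAlgebraic.trans ℚ K Ω
  have hfin : Finite (K →ₐ[ℚ] Ω) := inferInstance
  refine ⟨max 4 (Nat.card (Equiv.Perm (K →ₐ[ℚ] Ω))), fun M hM hDM => ?_⟩
  have hM5 : 5 ≤ M := by
    have := le_max_left 4 (Nat.card (Equiv.Perm (K →ₐ[ℚ] Ω)))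
    omega
  have hMD : Nat.card (Equiv.Perm (K →ₐ[ℚ] Ω)) < M :=
    lt_of_le_of_lt (le_max_right _ _) hDM
  obtain ⟨θ, hinj, _, hθ⟩ := Smyth_SEL.selmer Ω M hM
  refine ⟨θ, hinj, ?_⟩
  let Q : Subgroup (Equiv.Perm (Fin M)) :=
    { carrier := {π | ∃ g ∈ (rho K Ω).ker, ∀ k, g (θ k) = θ (π k)}
      one_mem' := ⟨1, Subgroup.one_mem _, fun k => rfl⟩
      mul_mem' := by
        rintro π₁ π₂ ⟨g₁, hg₁, h₁⟩ ⟨g₂, hg₂, h₂⟩
        refine ⟨g₁ * g₂, Subgroup.mul_mem _ hg₁ hg₂, fun k => ?_⟩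
        rw [AlgEquiv.mul_apply, h₂, h₁]
        rfl
      inv_mem' := by
        rintro π ⟨g, hg, h⟩
        refine ⟨g⁻¹, Subgroup.inv_mem _ hg, fun k => ?_⟩
        have h1 := h (π⁻¹ k)
        rw [show π (π⁻¹ k) = k from Equiv.apply_symm_apply π k] at h1
        rw [← h1, ← AlgEquiv.mul_apply, inv_mul_cancel, AlgEquiv.one_apply] }
  have memQ : ∀ π, π ∈ Q ↔ ∃ g ∈ (rho K Ω).ker, ∀ k, g (θ k) = θ (π k) := fun π => Iff.rfl
  have hQn : Q.Normal := by
    refine ⟨fun π hπ τ => ?_⟩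
    obtain ⟨g, hg, h⟩ := hπ
    obtain ⟨t, ht⟩ := hθ τ
    refine ⟨t * g * t⁻¹, (MonoidHom.normal_ker _).conj_mem g hg t, fun k => ?_⟩
    have h1 : t⁻¹ (θ k) = θ (τ⁻¹ k) := by
      have h2 := ht (τ⁻¹ k)
      rw [show τ (τ⁻¹ k) = k from Equiv.apply_symm_apply τ k] at h2
      rw [← h2, ← AlgEquiv.mul_apply, inv_mul_cancel, AlgEquiv.one_apply]
    rw [AlgEquiv.mul_apply, AlgEquiv.mul_apply, h1, h, ht]
    rfl
  have hQnt : Nontrivial Q := by
    choose G hG using hθ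
    have hnot : ¬ Function.Injective (fun π => rho K Ω (G π)) := by
      intro hinj'
      have h1 := Nat.card_le_card_of_injective _ hinj'
      rw [Nat.card_perm, Nat.card_eq_fintype_card, Fintype.card_fin] at h1
      have h2 := Nat.self_le_factorial M
      omega
    rw [Function.Injective] at hnot
    push Not at hnot
    obtain ⟨π₁, π₂, h1, h2⟩ := hnot
    rw [Subgroup.nontrivial_iff_exists_ne_one]
    refine ⟨π₁⁻¹ * π₂, ?_, ?_⟩
    · rw [memQ]
      refine ⟨(G π₁)⁻¹ * G π₂, ?_, fun k => ?_⟩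
      · rw [MonoidHom.mem_ker, map_mul, map_inv]
        have h3 : rho K Ω (G π₁) = rho K Ω (G π₂) := h1
        rw [h3, inv_mul_cancel]
      · rw [AlgEquiv.mul_apply, hG]
        have h2 := hG π₁ (π₁⁻¹ (π₂ k))
        rw [show π₁ (π₁⁻¹ (π₂ k)) = π₂ k from Equiv.apply_symm_apply π₁ _] at h2
        rw [← h2, ← AlgEquiv.mul_apply, inv_mul_cancel, AlgEquiv.one_apply]
        rfl
    · intro h3
      exact h2 (inv_mul_eq_one.1 h3)
  have hle := Equiv.Perm.alternatingGroup_le_of_normal (α := Fin M) (N := Q) (by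
    rw [Nat.card_eq_fintype_card, Fintype.card_fin]; exact hM5) hQnt
  intro π hπ
  obtain ⟨g, hg, h⟩ := hle hπ
  exact ⟨AlgEquiv.ofRingEquiv (f := g.toRingEquiv) (fun x => rho_ker hg x), h⟩

theorem main : St_gal := by
  classical
  intro K _ _ ι _ a m w σ hw hrel
  obtain ⟨k₀, hk₀⟩ := hw
  obtain ⟨D, hD⟩ := evenPerms K
  obtain ⟨M, hMge, hM⟩ := Nat.exists_infinite_primes (D + 2 * m + 1)
  obtain ⟨θ, hinj, hθ⟩ := hD M hM (by omega)
  -- the index set
  obtain ⟨d, hd⟩ : ∃ d, M = m + m + (d + 1) := ⟨M - 2 * m - 1, by omega⟩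
  let e₀ : ((Fin m ⊕ Fin m) ⊕ Fin (d + 1)) ≃ Fin M :=
    Fintype.equivFinOfCardEq (by simp [hd])
  let w' : ((Fin m ⊕ Fin m) ⊕ Fin (d + 1)) → K := Sum.elim (Sum.elim w w) (fun _ => 0)
  let σ' : ι → Equiv.Perm ((Fin m ⊕ Fin m) ⊕ Fin (d + 1)) := fun i =>
    Equiv.sumCongr (Equiv.sumCongr (σ i) (σ i)) 1
  have hrel' : ∀ x, ∑ i, a i * w' (σ' i x) = 0 := by
    rintro ((k | k) | k)
    · exact hrel k
    · exact hrel k
    · exact Finset.sum_eq_zero fun i _ => mul_zero _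
  have hsign : ∀ i, Equiv.Perm.sign (σ' i) = 1 := by
    intro i
    have h1 : σ' i = Equiv.sumCongr (Equiv.sumCongr (σ i) (σ i)) 1 := rfl
    rw [h1, Equiv.Perm.sign_sumCongr, Equiv.Perm.sign_sumCongr, map_one, mul_one]
    exact Int.units_mul_self _
  -- a labelling with nonzero sum
  obtain ⟨E, hE⟩ : ∃ E : ((Fin m ⊕ Fin m) ⊕ Fin (d + 1)) ≃ Fin M,
      ∑ x, algebraMap K (AlgebraicClosure K) (w' x) * θ (E x) ≠ 0 := by
    by_contra hcon
    push Not at hcon
    have h1 := hcon e₀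
    set x₁ : (Fin m ⊕ Fin m) ⊕ Fin (d + 1) := Sum.inl (Sum.inl k₀) with hx₁
    set x₀ : (Fin m ⊕ Fin m) ⊕ Fin (d + 1) := Sum.inr 0 with hx₀
    have h2 := hcon ((Equiv.swap x₁ x₀).trans e₀)
    have hne : x₁ ≠ x₀ := by simp [hx₁, hx₀]
    have h3 : ∑ x, (algebraMap K (AlgebraicClosure K) (w' x) * θ (e₀ x) -
        algebraMap K (AlgebraicClosure K) (w' x) * θ (((Equiv.swap x₁ x₀).trans e₀) x)) = 0 := by
      rw [Finset.sum_sub_distrib, h1, h2, sub_zero]
    rw [Finset.sum_eq_single x₁] at h3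
    · rw [Equiv.trans_apply, Equiv.swap_apply_left, ← mul_sub] at h3
      rcases mul_eq_zero.1 h3 with h4 | h4
      · exact hk₀ ((algebraMap K (AlgebraicClosure K)).injective (by rw [map_zero]; exact h4))
      · exact hne (e₀.injective (hinj (sub_eq_zero.1 h4)))
    · intro x _ hx
      by_cases hx' : x = x₀
      · have : w' x = 0 := by rw [hx']; rfl
        rw [this, map_zero, zero_mul, zero_mul, sub_zero]
      · rw [Equiv.trans_apply, Equiv.swap_apply_of_ne_of_ne hx hx', sub_self]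
    · intro h; exact absurd (Finset.mem_univ _) h
  -- the automorphisms
  have hg : ∀ i, ∃ g : AlgebraicClosure K ≃ₐ[K] AlgebraicClosure K,
      ∀ x, g (θ (E x)) = θ (E ((σ' i)⁻¹ x)) := by
    intro i
    have hs2 : Equiv.Perm.sign (σ' i)⁻¹ = 1 := by rw [Equiv.Perm.sign_inv, hsign]
    obtain ⟨g, hg⟩ := hθ (E.permCongr (σ' i)⁻¹) (by
      rw [Equiv.Perm.mem_alternatingGroup, Equiv.Perm.sign_permCongr, hs2])
    refine ⟨g, fun x => ?_⟩
    rw [hg, Equiv.permCongr_apply, Equiv.symm_apply_apply]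
  choose g hg using hg
  have hα : ∀ i, g i (∑ x, algebraMap K (AlgebraicClosure K) (w' x) * θ (E x)) =
      ∑ x, algebraMap K (AlgebraicClosure K) (w' (σ' i x)) * θ (E x) := by
    intro i
    rw [map_sum, ← Equiv.sum_comp (σ' i)]
    refine Finset.sum_congr rfl fun x _ => ?_
    rw [map_mul, AlgEquiv.commutes, hg, show (σ' i)⁻¹ ((σ' i) x) = x from Equiv.symm_apply_apply _ _]
  refine ⟨fun i => g i (∑ x, algebraMap K (AlgebraicClosure K) (w' x) * θ (E x)), ?_, ?_, ?_⟩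
  · intro i
    rw [Ne, EmbeddingLike.map_eq_zero_iff]
    exact hE
  · intro i j
    rw [minpoly.algEquiv_eq, minpoly.algEquiv_eq]
  · simp only [hα]
    simp only [Finset.mul_sum]
    rw [Finset.sum_comm]
    refine Finset.sum_eq_zero fun x _ => ?_
    have h1 := congrArg (algebraMap K (AlgebraicClosure K)) (hrel' x)
    rw [map_sum, map_zero] at h1
    have h2 : ∑ i, algebraMap K (AlgebraicClosure K) (a i) *
        (algebraMap K (AlgebraicClosure K) (w' (σ' i x)) * θ (E x)) =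
        (∑ i, algebraMap K (AlgebraicClosure K) (a i * w' (σ' i x))) * θ (E x) := by
      rw [Finset.sum_mul]
      exact Finset.sum_congr rfl fun i _ => by rw [map_mul]; ring
    rw [h2, h1, zero_mul]

end Run7.h364.Smyth_GAL
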