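import Pool.Agent.Run7.h446.Smyth.Iface

/-!
# Smyth: piece PERM
-/

set_option autoImplicit false

namespace Run7.h364.Smyth_PERM

open Pool.Agent.Run7.h446.Smyth

/-- a rational functional which is positive on finitely many positive reals -/
theorem exists_functional {S : Type} [Finite S] (y : S → ℝ) (hy : ∀ s, 0 < y s) :
    ∃ q : S → ℚ, (∀ s, 0 < q s) ∧
      ∀ c : S → ℤ, ∑ᶠ s, (c s : ℝ) * y s = 0 → ∑ᶠ s, (c s : ℚ) * q s = 0 := by
  classical
  have : Fintype S := Fintype.ofFinite S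
  set W : Submodule ℚ ℝ := Submodule.span ℚ (Set.range y) with hW
  have hfd : FiniteDimensional ℚ W := FiniteDimensional.span_of_finite ℚ (Set.finite_range y)
  let b := Module.finBasis ℚ W
  have hmem : ∀ s, y s ∈ W := fun s => Submodule.subset_span ⟨s, rfl⟩
  set q₀ : S → Fin (Module.finrank ℚ W) → ℚ := fun s m => b.repr ⟨y s, hmem s⟩ m with hq₀
  have hrep : ∀ s, y s = ∑ m, (q₀ s m : ℝ) * (b m : ℝ) := by
    intro s
    have h1 := b.sum_repr ⟨y s, hmem s⟩
    have h2 := congrArg (Subtype.val : W → ℝ) h1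
    rw [AddSubmonoidClass.coe_finsetSum] at h2
    conv_lhs => rw [← show ((⟨y s, hmem s⟩ : W) : ℝ) = y s from rfl, ← h2]
    refine Finset.sum_congr rfl fun m _ => ?_
    rw [Submodule.coe_smul, Rat.smul_def]
  let O : Set (Fin (Module.finrank ℚ W) → ℝ) := {z | ∀ s, 0 < ∑ m, (q₀ s m : ℝ) * z m}
  have hO : IsOpen O := by
    have : O = ⋂ s, {z | 0 < ∑ m, (q₀ s m : ℝ) * z m} := by
      ext z; simp [O]
    rw [this]
    refine isOpen_iInter_of_finite fun s => ?_
    refine isOpen_lt continuous_const ?_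
    refine continuous_finsetSum _ fun m _ => ?_
    exact continuous_const.mul (continuous_apply m)
  have hne : O.Nonempty := ⟨fun m => (b m : ℝ), fun s => by rw [← hrep]; exact hy s⟩
  have hd : DenseRange (Pi.map (fun (_ : Fin (Module.finrank ℚ W)) (r : ℚ) => (r : ℝ))) :=
    DenseRange.piMap fun _ => Rat.denseRange_cast
  obtain ⟨c, hc⟩ := hd.exists_mem_open hO hne
  have hc' : ∀ s, 0 < ∑ m, (q₀ s m : ℝ) * (c m : ℝ) := hc
  refine ⟨fun s => ∑ m, q₀ s m * c m, ?_, ?_⟩
  · intro s
    have := hc' s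
    exact_mod_cast this
  · intro d hd0
    rw [finsum_eq_sum_of_fintype] at hd0 ⊢
    have h1 : (∑ s, (d s : ℚ) • (⟨y s, hmem s⟩ : W)) = 0 := by
      apply Subtype.ext
      rw [AddSubmonoidClass.coe_finsetSum]
      rw [Submodule.coe_zero, ← hd0]
      refine Finset.sum_congr rfl fun s _ => ?_
      rw [Submodule.coe_smul, Rat.smul_def]
      push_cast
      rfl
    have h2 : ∀ m, ∑ s, (d s : ℚ) * q₀ s m = 0 := by
      intro m
      have h3 := congrArg (fun x => b.repr x m) h1
      simp only [map_sum, map_smul, map_zero, Finsupp.coe_finsetSum, Finset.sum_apply,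
        Finsupp.smul_apply, smul_eq_mul, Finsupp.coe_zero, Pi.zero_apply] at h3
      exact h3
    have h3 : ∑ s, (d s : ℚ) * ∑ m, q₀ s m * c m = ∑ m, (∑ s, (d s : ℚ) * q₀ s m) * c m := by
      simp only [Finset.mul_sum, Finset.sum_mul]
      rw [Finset.sum_comm]
      refine Finset.sum_congr rfl fun m _ => Finset.sum_congr rfl fun s _ => ?_
      ring
    rw [h3]
    exact Finset.sum_eq_zero fun m _ => by rw [h2 m, zero_mul]

/-- the same with natural numbers -/
theorem exists_functional' {S : Type} [Fintype S] (y : S → ℝ) (hy : ∀ s, 0 < y s) :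
    ∃ q : S → ℕ, (∀ s, 0 < q s) ∧
      ∀ c : S → ℤ, ∑ s, (c s : ℝ) * y s = 0 → ∑ s, (c s : ℤ) * q s = 0 := by
  classical
  obtain ⟨q, hq, h⟩ := exists_functional y hy
  refine ⟨fun s => ((q s) * (∏ t, (q t).den : ℕ)).num.toNat, ?_, ?_⟩
  all_goals
    have hint : ∀ s, (((q s) * (∏ t, (q t).den : ℕ)).num : ℚ) = (q s) * (∏ t, (q t).den : ℕ) := by
      intro s
      have h1 : (q s).den ∣ ∏ t, (q t).den := Finset.dvd_prod_of_mem _ (Finset.mem_univ s)
      obtain ⟨k, hk⟩ := h1
      have h2 : (q s) * ((∏ t, (q t).den : ℕ) : ℚ) = (((q s).num * k : ℤ) : ℚ) := by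
        rw [hk]
        push_cast
        rw [← mul_assoc, Rat.mul_den_eq_num]
      rw [h2, Rat.num_intCast]
    have hpos : ∀ s, 0 < (q s) * (∏ t, (q t).den : ℕ) := by
      intro s
      have : 0 < ∏ t, (q t).den := Finset.prod_pos fun t _ => (q t).den_pos
      exact mul_pos (hq s) (by exact_mod_cast this)
    have hpos' : ∀ s, 0 < ((q s) * (∏ t, (q t).den : ℕ)).num := by
      intro s
      exact Rat.num_pos.2 (hpos s)
  · intro s
    have h5 := hpos' s
    show 0 < ((q s) * (∏ t, (q t).den : ℕ)).num.toNat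
    exact Int.pos_iff_toNat_pos.1 h5
  · intro c hc
    have h1 := h c (by rw [finsum_eq_sum_of_fintype]; exact hc)
    rw [finsum_eq_sum_of_fintype] at h1
    have h2 : ((∑ s, (c s : ℤ) * ((((q s) * (∏ t, (q t).den : ℕ)).num.toNat : ℕ) : ℤ) : ℤ) : ℚ) = 0 := by
      push_cast
      have h3 : ∀ s, (((((q s) * (∏ t, (q t).den : ℕ)).num.toNat : ℕ) : ℤ) : ℚ) =
          (q s) * (∏ t, (q t).den : ℕ) := by
        intro s
        rw [Int.toNat_of_nonneg (hpos' s).le]
        exact hint s
      have h4 : ∑ s, (c s : ℚ) * (q s * (∏ t, (q t).den : ℕ)) = 0 := by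
        have : ∑ s, (c s : ℚ) * (q s * (∏ t, (q t).den : ℕ)) =
            (∑ s, (c s : ℚ) * q s) * (∏ t, (q t).den : ℕ) := by
          rw [Finset.sum_mul]
          exact Finset.sum_congr rfl fun s _ => by ring
        rw [this, h1, zero_mul]
      rw [← h4]
      refine Finset.sum_congr rfl fun s _ => ?_
      rw [← h3 s]
      push_cast
      rfl
    exact_mod_cast h2

theorem main : St_perm := by
  classical
  intro ι X A _ hι p μ x₀ hμ0 hx₀ heq
  obtain ⟨i₀⟩ := hι
  -- natural weights on the support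
  obtain ⟨n, hn, hlin⟩ := exists_functional' (S := μ.support) (fun x => μ x) (fun x => by
    have h1 := hμ0 x
    have h2 : μ x ≠ 0 := Finsupp.mem_support_iff.1 x.2
    exact lt_of_le_of_ne h1 (Ne.symm h2))
  -- the equations
  have hmarg : ∀ (i : ι) (t : A), Finsupp.mapDomain (p i) μ t =
      ∑ x : μ.support, (if p i x = t then (1 : ℝ) else 0) * μ x := by
    intro i t
    rw [Finsupp.mapDomain, Finsupp.sum_apply, Finsupp.sum, ← Finset.sum_coe_sort]
    refine Finset.sum_congr rfl fun x _ => ?_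
    rw [Finsupp.single_apply]
    split_ifs with h
    · rw [one_mul]
    · rw [zero_mul]
  have heqn : ∀ (i : ι) (t : A), ∑ x : μ.support, (if p i x = t then n x else 0) =
      ∑ x : μ.support, (if p i₀ x = t then n x else 0) := by
    intro i t
    have h1 := hlin (fun x => (if p i x = t then (1 : ℤ) else 0) - (if p i₀ x = t then (1 : ℤ) else 0)) (by
      have h2 : Finsupp.mapDomain (p i) μ t = Finsupp.mapDomain (p i₀) μ t := by rw [heq i i₀]
      rw [hmarg, hmarg] at h2
      rw [← sub_eq_zero, ← Finset.sum_sub_distrib] at h2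
      rw [← h2]
      refine Finset.sum_congr rfl fun x _ => ?_
      push_cast
      ring)
    have h3 : (∑ x : μ.support, ((if p i x = t then n x else 0 : ℕ) : ℤ)) =
        ∑ x : μ.support, ((if p i₀ x = t then n x else 0 : ℕ) : ℤ) := by
      rw [← sub_eq_zero, ← Finset.sum_sub_distrib, ← h1]
      refine Finset.sum_congr rfl fun x _ => ?_
      split_ifs <;> push_cast <;> ring
    exact_mod_cast h3
  -- the index set
  let κ := Σ x : μ.support, Fin (n x)
  let ξ₀ : κ → X := fun k => (k.1 : X)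
  let e : κ ≃ Fin (Fintype.card κ) := Fintype.equivFin κ
  have hcard : ∀ (i : ι) (t : A), Fintype.card {k : κ // p i (ξ₀ k) = t} =
      ∑ x : μ.support, (if p i x = t then n x else 0) := by
    intro i t
    rw [Fintype.card_subtype, Finset.card_filter, Fintype.sum_sigma]
    refine Finset.sum_congr rfl fun x _ => ?_
    show ∑ y : Fin (n x), (if p i (x : X) = t then 1 else 0) = _
    rw [Finset.sum_const, Finset.card_univ, Fintype.card_fin, smul_eq_mul]
    split_ifs <;> simp
  have hfib : ∀ (i : ι) (t : A), Nonempty ({k : κ // p i (ξ₀ k) = t} ≃ {k : κ // p i₀ (ξ₀ k) = t}) := by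
    intro i t
    rw [← Fintype.card_eq, hcard, hcard, heqn]
  let τ : ι → Equiv.Perm κ := fun i =>
    Equiv.ofFiberEquiv (f := fun k : κ => p i (ξ₀ k)) (g := fun k : κ => p i₀ (ξ₀ k))
      fun t => Classical.choice (hfib i t)
  have hτ : ∀ i k, p i₀ (ξ₀ (τ i k)) = p i (ξ₀ k) := by
    intro i k
    exact Equiv.ofFiberEquiv_map (f := fun k : κ => p i (ξ₀ k)) (g := fun k : κ => p i₀ (ξ₀ k))
      (fun t => Classical.choice (hfib i t)) k
  refine ⟨Fintype.card κ, fun k => ξ₀ (e.symm k), fun i => e.permCongr (τ i),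
    fun k => p i₀ (ξ₀ (e.symm k)), ?_, ?_⟩
  · intro k i
    show p i (ξ₀ (e.symm k)) = p i₀ (ξ₀ (e.symm (e ((τ i) (e.symm k)))))
    rw [Equiv.symm_apply_apply, hτ]
  · have hx : x₀ ∈ μ.support := Finsupp.mem_support_iff.2 hx₀.ne'
    refine ⟨e ⟨⟨x₀, hx⟩, ⟨0, hn ⟨x₀, hx⟩⟩⟩, ?_⟩
    show ξ₀ (e.symm (e _)) = x₀
    rw [Equiv.symm_apply_apply]

end Run7.h364.Smyth_PERM
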