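import Pool.Agent.Run7.h364.Small

/-!
The field generated by the dimensions is spanned by the dimensions; linear independence.
-/

set_option autoImplicit false

namespace Run7.h364

open Polynomial Module IntermediateField

/-- Numerical data of a spherical fusion category, with duality. -/
structure DimData2 (x : ℝ) (n : ℕ) (o : Fin n) (d : Fin n → ℂ) (ν : Fin n → ℤ)
    (N : Fin n → Fin n → Fin n → ℕ) (star : Fin n → Fin n) : Prop
    extends DimData x n o d ν where
  fusion' : ∀ i j, d i * d j = ∑ k, (N i j k : ℂ) * d k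
  N_unit : ∀ i j, N i j o = if j = star i then 1 else 0
  d_star : ∀ i, d (star i) = d i
  ν_star : ∀ i, ν i = 0 → star i ≠ i

namespace DimData

variable {x : ℝ} {n : ℕ} {o : Fin n} {d : Fin n → ℂ} {ν : Fin n → ℤ}

theorem toSubmodule_F (h : DimData x n o d ν) :
    Subalgebra.toSubmodule h.F.toSubalgebra = Submodule.span ℚ (Set.range d) := by
  apply le_antisymm
  · have h1 : h.F.toSubalgebra = Algebra.adjoin ℚ (Set.range d) := by
      apply adjoin_toSubalgebra_of_isAlgebraic
      rintro _ ⟨i, rfl⟩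
      exact ((h.isIntegral i).tower_top (A := ℚ)).isAlgebraic
    have hone : (1 : ℂ) ∈ Submodule.span ℚ (Set.range d) :=
      Submodule.subset_span ⟨o, h.d_unit⟩
    have hmul : ∀ y z : ℂ, y ∈ Submodule.span ℚ (Set.range d) →
        z ∈ Submodule.span ℚ (Set.range d) → y * z ∈ Submodule.span ℚ (Set.range d) := by
      intro y z hy hz
      have h2 : y * z ∈ Submodule.span ℚ (Set.range d) * Submodule.span ℚ (Set.range d) :=
        Submodule.mul_mem_mul hy hz
      rw [Submodule.span_mul_span] at h2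
      refine Submodule.span_le.2 ?_ h2
      rintro _ ⟨_, ⟨i, rfl⟩, _, ⟨j, rfl⟩, rfl⟩
      obtain ⟨N, hN⟩ := h.fusion
      have h3 : (fun a b : ℂ => a * b) (d i) (d j) = ∑ k, (N i j k : ℂ) * d k := hN i j
      rw [h3]
      refine Submodule.sum_mem _ fun k _ => ?_
      have h4 : (N i j k : ℂ) * d k = (N i j k : ℚ) • d k := by
        rw [Algebra.smul_def]; simp
      rw [h4]
      exact Submodule.smul_mem _ _ (Submodule.subset_span ⟨k, rfl⟩)
    have h2 : h.F.toSubalgebra ≤ (Submodule.span ℚ (Set.range d)).toSubalgebra hone hmul := by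
      rw [h1]
      refine Algebra.adjoin_le ?_
      rintro _ ⟨i, rfl⟩
      exact Submodule.subset_span ⟨i, rfl⟩
    intro y hy
    exact h2 hy
  · rw [Submodule.span_le]
    rintro _ ⟨i, rfl⟩
    exact IntermediateField.subset_adjoin ℚ _ ⟨i, rfl⟩

theorem finrank_F (h : DimData x n o d ν) : finrank ℚ h.F = (Set.range d).finrank ℚ := by
  have h1 : finrank ℚ h.F = finrank ℚ (Subalgebra.toSubmodule h.F.toSubalgebra) := rfl
  rw [h1, h.toSubmodule_F]
  rfl

theorem card_F (h : DimData x n o d ν) [FiniteDimensional ℚ h.F] :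
    Fintype.card (h.F →ₐ[ℚ] ℂ) ≤ n := by
  rw [AlgHom.card, h.finrank_F]
  simpa using finrank_range_le_card (R := ℚ) d

theorem linInd (h : DimData x n o d ν) [FiniteDimensional ℚ h.F]
    (hm : Fintype.card (h.F →ₐ[ℚ] ℂ) = n) : LinearIndependent ℚ d := by
  rw [linearIndependent_iff_card_eq_finrank_span, ← h.finrank_F, ← AlgHom.card ℚ h.F ℂ, hm]
  simp

theorem linInd_D (h : DimData x n o d ν) [FiniteDimensional ℚ h.F]
    (hm : Fintype.card (h.F →ₐ[ℚ] ℂ) = n) : LinearIndependent ℚ h.D := by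
  apply LinearIndependent.of_comp h.F.val.toLinearMap
  exact h.linInd hm

theorem eq_of_sum (h : DimData x n o d ν) [FiniteDimensional ℚ h.F]
    (hm : Fintype.card (h.F →ₐ[ℚ] ℂ) = n) (A B : Fin n → ℕ)
    (hAB : ∑ k, (A k : ℂ) * d k = ∑ k, (B k : ℂ) * d k) : A = B := by
  have h1 := Fintype.linearIndependent_iff.1 (h.linInd hm) (fun k => (A k : ℚ) - (B k : ℚ)) (by
    have h2 : ∀ k, ((A k : ℚ) - (B k : ℚ)) • d k = (A k : ℂ) * d k - (B k : ℂ) * d k := by
      intro k
      rw [Algebra.smul_def]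
      push_cast
      simp [sub_mul]
    simp only [h2]
    rw [Finset.sum_sub_distrib, hAB, sub_self])
  funext k
  have h2 := h1 k
  have h3 : (A k : ℚ) = B k := by linarith
  exact_mod_cast h3

theorem exists_int (h : DimData x n o d ν) [FiniteDimensional ℚ h.F] (i : Fin n) :
    ∃ t q : ℤ, ∑ σ, h.a σ i = t ∧ ∑ σ, h.a σ i ^ 2 = q ∧ Even (q - t) := by
  have : NumberField h.F := { to_charZero := inferInstance, to_finiteDimensional := inferInstance }
  have hint : IsIntegral ℤ (h.D i) := by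
    have h1 := h.isIntegral i
    have h2 : (algebraMap h.F ℂ) (h.D i) = d i := rfl
    rw [← h2] at h1
    exact (isIntegral_algebraMap_iff (algebraMap h.F ℂ).injective).1 h1
  exact trace_parity (h.D i) hint (fun σ => h.a σ i) (fun σ => h.a_eq σ i)

theorem prod_ge (h : DimData x n o d ν) [FiniteDimensional ℚ h.F] (i : Fin n) :
    1 ≤ ∏ σ, |h.a σ i| := by
  have hint : IsIntegral ℤ (h.D i) := by
    have h1 := h.isIntegral i
    have h2 : (algebraMap h.F ℂ) (h.D i) = d i := rfl
    rw [← h2] at h1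
    exact (isIntegral_algebraMap_iff (algebraMap h.F ℂ).injective).1 h1
  refine one_le_prod (h.D i) hint ?_ (fun σ => h.a σ i) (fun σ => h.a_eq σ i)
  intro h0
  have := congrArg (Subtype.val) h0
  exact h.ne_zero i this

/-- the inequality is an equality only for the golden ratio. -/
theorem golden (h : DimData x n o d ν) (hx : x < 2) (i : Fin n) (hi : i ≠ o)
    [FiniteDimensional ℚ h.F]
    (hs : ∑ σ, (h.a σ i ^ 2 - ν i * h.a σ i) ≤ (Fintype.card (h.F →ₐ[ℚ] ℂ) : ℝ))
    (τ : h.F →ₐ[ℚ] ℂ) : h.a τ i ^ 2 - ν i * h.a τ i = 1 := by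
  have hint : IsIntegral ℤ (h.D i) := by
    have h1 := h.isIntegral i
    have h2 : (algebraMap h.F ℂ) (h.D i) = d i := rfl
    rw [← h2] at h1
    exact (isIntegral_algebraMap_iff (algebraMap h.F ℂ).injective).1 h1
  refine eq_one_of_sum_le (h.D i ^ 2 - (ν i : h.F) * h.D i)
    ((hint.pow 2).sub ((isIntegral_algebraMap (R := ℤ) (A := h.F) (x := ν i)).mul hint)) ?_
    (fun σ => h.a σ i ^ 2 - ν i * h.a σ i) ?_ (fun σ => h.u_ge σ i) hs τ
  · intro h0
    have h1 : h.D i * (h.D i - ν i) = 0 := by linear_combination h0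
    rcases mul_eq_zero.1 h1 with h2 | h2
    · have := congrArg (Subtype.val) h2
      exact h.ne_zero i this
    · have h3 : h.D i = (ν i : h.F) := sub_eq_zero.1 h2
      have h4 : d i = (ν i : ℂ) := by
        have := congrArg (fun z : h.F => (z : ℂ)) h3
        simpa [D] using this
      rcases h.ν_val i with h5 | h5 | h5
      · rw [h5] at h4
        exact h.ne_zero i (by simpa using h4)
      · have := h.two_le_x i hi (by rw [h4, h5]; norm_num)
        linarith
      · have := h.two_le_x i hi (by rw [h4, h5]; norm_num)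
        linarith
  · intro σ
    rw [map_sub, map_mul, map_pow, h.a_eq]
    simp

theorem a_val (h : DimData x n o d ν) (i : Fin n) : h.a h.F.val i = (d i).re := rfl

/-- the sum inequality for `x < √2` -/
theorem sum_lt (h : DimData x n o d ν) (hx : x ^ 2 < 2) [FiniteDimensional ℚ h.F] :
    ∑ i, ∑ σ, (h.a σ i ^ 2 - ν i * h.a σ i) < 4 * (Fintype.card (h.F →ₐ[ℚ] ℂ) : ℝ) := by
  rw [Finset.sum_comm]
  have hx1 := h.one_le_x
  have h4 : ∀ σ, ∑ i, (h.a σ i ^ 2 - ν i * h.a σ i) < 4 := by
    intro σ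
    have h1 := h.basic σ
    have h2 := h.one_le_Y σ
    have h3 : 1 < 2 / x ^ 2 := by
      rw [lt_div_iff₀ (by positivity)]
      linarith
    have h5 : 4 * (1 - 2 / x ^ 2) * h.Y σ < 0 := by
      apply mul_neg_of_neg_of_pos <;> linarith
    linarith
  calc ∑ σ, ∑ i, (h.a σ i ^ 2 - ν i * h.a σ i) < ∑ _σ : h.F →ₐ[ℚ] ℂ, (4 : ℝ) :=
        Finset.sum_lt_sum_of_nonempty ⟨h.F.val, Finset.mem_univ _⟩ fun σ _ => h4 σ
    _ = _ := by simp [mul_comm]

end DimData

end Run7.h364
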